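import Pool.Agent.Lib_MP_22d2c8_rsf.Basic
import Pool.Agent.Lib_MP_22d2c8_gen.TransferB

/-!
# AVG: the averaged form of Theorem A
-/

namespace Pool.Agent.Lib_MP_22d2c8_rsf

open Finset
open Pool.Agent.Lib_MP_22d2c8_gen

/-- The output of the circuit for the input `x` is true. -/
def Accepts {n s : ℕ} (C : Circuit n s) (x : Fin n → Bool) : Prop :=
  ∃ a : Fin n ⊕ Fin s → Bool, C.IsRun x a ∧ a C.out = true

theorem accepts_iff {n s : ℕ} (C : Circuit n s) {x : Fin n → Bool} {a : Fin n ⊕ Fin s → Bool}
    (ha : C.IsRun x a) : Accepts C x ↔ a C.out = true := by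
  constructor
  · rintro ⟨a', ha', h⟩
    rw [run_unique C ha ha']
    exact h
  · intro h
    exact ⟨a, ha, h⟩

theorem accepts_computes {n s : ℕ} (C : Circuit n s) {f : (Fin n → Bool) → Bool}
    (hC : C.Computes f) (x : Fin n → Bool) : Accepts C x ↔ f x = true := by
  obtain ⟨a, ha, h⟩ := hC x
  rw [accepts_iff C ha, h]

/-- The monotone circuit of a stage. -/
theorem circuit_of_special {n s m B : ℕ} (C : Circuit n s)
    (z0 : Fin n → Bool) (φ : Fin B → Fin m → Fin n) (hφ : Disj φ)
    (hz : ∀ b i, z0 (φ b i) = false) (x : Fin B → Fin m → Bool) (b : Fin B)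
    (a0 : Fin n ⊕ Fin s → Bool) (f0 : (Fin m → Bool) → Bool)
    (hsp : ∀ y a, Frozen C (fun g => a0 (Sum.inr g))
        (cfgB z0 φ (Function.update x b y)) a → (special C a0 a ↔ f0 y = true)) :
    ∃ C' : Circuit m (s + 3), C'.IsMonotone ∧ C'.Computes f0 := by
  classical
  obtain ⟨rank, hrank⟩ := C.acyclic
  -- the new vertex
  let μ : Fin n ⊕ Fin s → Fin m ⊕ (Fin s ⊕ Fin 3) := fun v => match v with
    | Sum.inr g => Sum.inr (Sum.inl g)
    | Sum.inl j => if h : ∃ i, φ b i = j then Sum.inl h.choose
        else if cfgB z0 φ x j = true then Sum.inr (Sum.inr 0) else Sum.inr (Sum.inr 1)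
  let S : Finset (Fin n ⊕ Fin s) := insert C.out (C.entry.filter (fun u => a0 u = false))
  let op : Fin s ⊕ Fin 3 → Op (Fin m ⊕ (Fin s ⊕ Fin 3)) := fun g => match g with
    | Sum.inl g => (match C.op g with
        | .and Q => .and (Q.image μ)
        | .or Q => .or (Q.image μ)
        | .arb _ _ => if a0 (Sum.inr g) = true then .and ∅ else .or ∅)
    | Sum.inr i => if i = 0 then .and ∅ else if i = 1 then .or ∅ else .or (S.image μ)
  let rk : Fin m ⊕ (Fin s ⊕ Fin 3) → ℕ := fun v => match v with
    | Sum.inl _ => 0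
    | Sum.inr (Sum.inl g) => rank (Sum.inr g) + 1
    | Sum.inr (Sum.inr i) => if i = 0 then 0 else if i = 1 then 0 else
        Finset.univ.sup (fun v : Fin n ⊕ Fin s => rank v) + 2
  have hrk : ∀ v, rk (μ v) ≤ rank v + 1 := by
    intro v
    rcases v with j | g
    · simp only [μ]
      split_ifs
      · simp [rk]
      · simp [rk]
      · simp [rk]
    · simp [μ, rk]
  refine mk_circuit (finSumFinEquiv (m := s) (n := 3)) op (Sum.inr (Sum.inr 2)) rk ?_ ?_ f0 ?_
  · intro g u hu
    rcases g with g | i
    · simp only [op] at hu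
      rcases hop : C.op g with Q | Q | ⟨Q, ψ⟩
      · rw [hop] at hu
        simp only [Op.preds, Finset.mem_image] at hu
        obtain ⟨v, hv, rfl⟩ := hu
        have h1 := hrk v
        have h2 := hrank g v (by rw [hop]; exact hv)
        show _ < rank (Sum.inr g) + 1
        omega
      · rw [hop] at hu
        simp only [Op.preds, Finset.mem_image] at hu
        obtain ⟨v, hv, rfl⟩ := hu
        have h1 := hrk v
        have h2 := hrank g v (by rw [hop]; exact hv)
        show _ < rank (Sum.inr g) + 1
        omega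
      · rw [hop] at hu
        simp only at hu
        split_ifs at hu <;> simp [Op.preds] at hu
    · simp only [op] at hu
      split_ifs at hu with h1 h2
      · simp [Op.preds] at hu
      · simp [Op.preds] at hu
      · simp only [Op.preds, Finset.mem_image] at hu
        obtain ⟨v, hv, rfl⟩ := hu
        have h3 := hrk v
        have h4 : rank v ≤ Finset.univ.sup (fun v : Fin n ⊕ Fin s => rank v) :=
          Finset.le_sup (f := fun v : Fin n ⊕ Fin s => rank v) (Finset.mem_univ v)
        show _ < (if i = 0 then 0 else if i = 1 then 0 else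
          Finset.univ.sup (fun v : Fin n ⊕ Fin s => rank v) + 2)
        rw [if_neg h1, if_neg h2]
        omega
  · intro g
    rcases g with g | i
    · simp only [op]
      rcases hop : C.op g with Q | Q | ⟨Q, ψ⟩
      · rfl
      · rfl
      · simp only
        split_ifs <;> rfl
    · simp only [op]
      split_ifs <;> rfl
  · intro y
    obtain ⟨a, ha⟩ := exists_frozen C (fun g => a0 (Sum.inr g)) (cfgB z0 φ (Function.update x b y))
    have hs := hsp y a ha
    let a' : Fin m ⊕ (Fin s ⊕ Fin 3) → Bool := fun v => match v with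
      | Sum.inl i => y i
      | Sum.inr (Sum.inl g) => a (Sum.inr g)
      | Sum.inr (Sum.inr i) => if i = 0 then true else if i = 1 then false else
          decide (special C a0 a)
    have hμ : ∀ v, a' (μ v) = a v := by
      intro v
      rcases v with j | g
      · rw [ha.inp j]
        simp only [μ]
        by_cases h : ∃ i, φ b i = j
        · rw [dif_pos h]
          show y h.choose = _
          conv_rhs => rw [← h.choose_spec]
          rw [cfgB_apply hφ hz, Function.update_self]
        · rw [dif_neg h]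
          have hj : cfgB z0 φ (Function.update x b y) j = cfgB z0 φ x j := by
            unfold cfgB
            congr 2
            apply propext
            constructor
            · rintro ⟨b', i, h1, h2⟩
              have hb : b' ≠ b := by
                rintro rfl
                exact h ⟨i, h2⟩
              rw [Function.update_of_ne hb] at h1
              exact ⟨b', i, h1, h2⟩
            · rintro ⟨b', i, h1, h2⟩
              have hb : b' ≠ b := by
                rintro rfl
                exact h ⟨i, h2⟩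
              exact ⟨b', i, by rw [Function.update_of_ne hb]; exact h1, h2⟩
          rw [hj]
          by_cases h2 : cfgB z0 φ x j = true
          · rw [if_pos h2, h2]; rfl
          · rw [if_neg h2]
            simp only [Bool.not_eq_true] at h2
            rw [h2]; rfl
      · rfl
    refine ⟨a', fun j => rfl, ?_, ?_⟩
    · intro g
      rcases g with g | i
      · show a (Sum.inr g) = _
        simp only [op]
        rcases hop : C.op g with Q | Q | ⟨Q, ψ⟩
        · rw [ha.gt g (by rw [hop]; rfl), hop]
          simp only [Op.eval]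
          congr 1
          apply propext
          constructor
          · intro h w hw
            obtain ⟨v, hv, rfl⟩ := Finset.mem_image.mp hw
            rw [hμ]; exact h v hv
          · intro h v hv
            rw [← hμ]; exact h _ (Finset.mem_image_of_mem μ hv)
        · rw [ha.gt g (by rw [hop]; rfl), hop]
          simp only [Op.eval]
          congr 1
          apply propext
          constructor
          · rintro ⟨v, hv, h⟩
            exact ⟨_, Finset.mem_image_of_mem μ hv, by rw [hμ]; exact h⟩
          · rintro ⟨w, hw, h⟩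
            obtain ⟨v, hv, rfl⟩ := Finset.mem_image.mp hw
            exact ⟨v, hv, by rw [← hμ]; exact h⟩
        · rw [ha.nt g (by rw [hop]; rfl)]
          simp only
          cases hk : a0 (Sum.inr g) with
          | true => simp [Op.eval]
          | false => simp [Op.eval]
      · simp only [op]
        by_cases h1 : i = 0
        · rw [if_pos h1]
          subst h1
          simp [a', Op.eval]
        · rw [if_neg h1]
          by_cases h2 : i = 1
          · rw [if_pos h2]
            subst h2
            simp [a', Op.eval]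
          · rw [if_neg h2]
            show (if i = 0 then true else if i = 1 then false else
              decide (special C a0 a)) = _
            rw [if_neg h1, if_neg h2]
            simp only [Op.eval]
            congr 1
            apply propext
            constructor
            · rintro (h | ⟨u, hu, hu0, h⟩)
              · exact ⟨_, Finset.mem_image_of_mem μ (Finset.mem_insert_self _ _),
                  by rw [hμ]; exact h⟩
              · exact ⟨_, Finset.mem_image_of_mem μ (Finset.mem_insert_of_mem
                  (Finset.mem_filter.mpr ⟨hu, hu0⟩)), by rw [hμ]; exact h⟩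
            · rintro ⟨w, hw, h⟩
              obtain ⟨v, hv, rfl⟩ := Finset.mem_image.mp hw
              rw [hμ] at h
              rcases Finset.mem_insert.mp hv with rfl | hv
              · exact Or.inl h
              · exact Or.inr ⟨v, (Finset.mem_filter.mp hv).1, (Finset.mem_filter.mp hv).2, h⟩
    · show (if (2 : Fin 3) = 0 then true else if (2 : Fin 3) = 1 then false else
        decide (special C a0 a)) = f0 y
      rw [if_neg (by decide), if_neg (by decide)]
      cases hy : f0 y with
      | true => exact decide_eq_true (hs.mpr hy)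
      | false =>
        refine decide_eq_false fun h => ?_
        have := hs.mp h
        rw [hy] at this
        exact absurd this (by simp)

/-! ### Averages -/

open Classical in
theorem prob_eq_sum {Ω : Type} [Fintype Ω] (p : Ω → Prop) :
    prob p = (∑ ω, (if p ω then (1 : ℝ) else 0)) / (Fintype.card Ω : ℝ) := by
  unfold prob
  rw [Finset.sum_boole]

/-- Resampling one coordinate. -/
theorem resample {B : ℕ} {Ω : Type} [Fintype Ω] (i : Fin B) (G : (Fin B → Ω) → ℝ) :
    ∑ ω : Fin B → Ω, ∑ u : Ω, G (Function.update ω i u) =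
      (Fintype.card Ω : ℝ) * ∑ ω : Fin B → Ω, G ω := by
  classical
  rw [← Fintype.sum_prod_type' (fun (ω : Fin B → Ω) (u : Ω) => G (Function.update ω i u))]
  let e : ((Fin B → Ω) × Ω) ≃ ((Fin B → Ω) × Ω) :=
    { toFun := fun p => (Function.update p.1 i p.2, p.1 i)
      invFun := fun p => (Function.update p.1 i p.2, p.1 i)
      left_inv := by
        rintro ⟨ω, u⟩
        simp
      right_inv := by
        rintro ⟨ω, u⟩
        simp }
  have h1 : ∑ p : (Fin B → Ω) × Ω, G (Function.update p.1 i p.2) =
      ∑ p : (Fin B → Ω) × Ω, G p.1 :=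
    Fintype.sum_equiv e _ _ (fun p => rfl)
  rw [h1, Fintype.sum_prod_type]
  rw [Finset.mul_sum]
  refine Finset.sum_congr rfl fun ω _ => ?_
  show ∑ _y : Ω, G ω = _
  rw [Finset.sum_const, Finset.card_univ, nsmul_eq_mul]

/-- The blocks before `i` are filled with the noise. -/
def fill {m B : ℕ} {Ω : Type} (U : Ω → Fin m → Bool) (i : ℕ) (ω : Fin B → Ω) :
    Fin B → Fin m → Bool :=
  fun b => if (b : ℕ) < i then U (ω b) else fun _ => false

theorem fill_succ {m B : ℕ} {Ω : Type} (U : Ω → Fin m → Bool) (i : Fin B) (ω : Fin B → Ω) :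
    fill U ((i : ℕ) + 1) ω = Function.update (fill U i ω) i (U (ω i)) := by
  funext b
  by_cases hb : b = i
  · subst hb
    rw [Function.update_self]
    unfold fill
    rw [if_pos (Nat.lt_succ_self _)]
  · rw [Function.update_of_ne hb]
    unfold fill
    have : (b : ℕ) ≠ i := fun h => hb (Fin.ext h)
    by_cases hlt : (b : ℕ) < i
    · rw [if_pos hlt, if_pos (by omega)]
    · rw [if_neg hlt, if_neg (by omega)]

theorem fill_update {m B : ℕ} {Ω : Type} (U : Ω → Fin m → Bool) (i : Fin B) (ω : Fin B → Ω)
    (u : Ω) : fill U i (Function.update ω i u) = fill U i ω := by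
  funext b
  unfold fill
  by_cases hlt : (b : ℕ) < i
  · rw [if_pos hlt, if_pos hlt, Function.update_of_ne]
    rintro rfl
    exact lt_irrefl _ hlt
  · rw [if_neg hlt, if_neg hlt]

/-- The entry vector changes between the inputs `x` and `x'`. -/
def Changes {n s : ℕ} (C : Circuit n s) (x x' : Fin n → Bool) : Prop :=
  ∃ a a' : Fin n ⊕ Fin s → Bool, C.IsRun x a ∧ C.IsRun x' a' ∧ ∃ u ∈ C.entry, a u ≠ a' u

/-- One stage. -/
theorem stage {n s m B : ℕ} {Ω ΩY : Type} [Fintype Ω] [Fintype ΩY] (C : Circuit n s)
    (z0 : Fin n → Bool) (φ : Fin B → Fin m → Fin n) (hφ : Disj φ)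
    (hz : ∀ b i, z0 (φ b i) = false)
    (U : Ω → Fin m → Bool) (Y : ΩY → Fin m → Bool) (ε : ℝ)
    (hmono : ∀ C' : Circuit m (s + 3), C'.IsMonotone →
      prob (fun a => Accepts C' (Y a)) ≤ prob (fun u => Accepts C' (U u)) + ε)
    (x : Fin B → Fin m → Bool) (b : Fin B) (hxb : x b = fun _ => false) :
    prob (fun a => Accepts C (cfgB z0 φ (Function.update x b (Y a)))) ≤
      prob (fun u => Accepts C (cfgB z0 φ (Function.update x b (U u)))) +
      prob (fun u => Changes C (cfgB z0 φ x) (cfgB z0 φ (Function.update x b (U u)))) + ε := by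
  classical
  obtain ⟨a0, ha0⟩ := exists_run C (cfgB z0 φ x)
  have hexF : ∀ y : Fin m → Bool, ∃ a, Frozen C (fun g => a0 (Sum.inr g))
      (cfgB z0 φ (Function.update x b y)) a := fun y => exists_frozen C _ _
  choose F hF using hexF
  have hle : ∀ y : Fin m → Bool, ∀ j, cfgB z0 φ x j = true →
      cfgB z0 φ (Function.update x b y) j = true := by
    intro y j hj
    refine cfgB_mono z0 φ ?_ j hj
    intro b' i h
    by_cases hb : b' = b
    · rw [hb, hxb] at h
      exact absurd h (by simp)
    · rw [Function.update_of_ne hb]; exact h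
  obtain ⟨C', hC'm, hC'⟩ := circuit_of_special C z0 φ hφ hz x b a0
    (fun y => decide (special C a0 (F y))) (by
      intro y a ha
      have : a = F y := frozen_unique C _ ha (hF y)
      rw [this, decide_eq_true_eq])
  have hacc : ∀ y, Accepts C' y ↔ special C a0 (F y) := by
    intro y
    rw [accepts_computes C' hC', decide_eq_true_eq]
  have h1 : prob (fun a => Accepts C (cfgB z0 φ (Function.update x b (Y a)))) ≤
      prob (fun a => Accepts C' (Y a)) := by
    refine prob_mono fun a ha => ?_
    rw [hacc]
    by_contra hs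
    unfold special at hs
    push Not at hs
    have hrun := frozen_is_run C ha0 (hle (Y a)) (hF (Y a)) (fun u hu hu0 => by
      have := hs.2 u hu hu0
      simpa using this)
    exact hs.1 ((accepts_iff C hrun).mp ha)
  have h2 : prob (fun u => Accepts C' (U u)) ≤
      prob (fun u => Accepts C (cfgB z0 φ (Function.update x b (U u)))) +
      prob (fun u => Changes C (cfgB z0 φ x) (cfgB z0 φ (Function.update x b (U u)))) := by
    refine le_trans (prob_mono ?_) (prob_or_le _ _)
    intro u hu
    rw [hacc] at hu
    obtain ⟨a1, ha1⟩ := exists_run C (cfgB z0 φ (Function.update x b (U u)))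
    by_cases hch : ∃ w ∈ C.entry, a0 w ≠ a1 w
    · exact Or.inr ⟨a0, a1, ha0, ha1, hch⟩
    · left
      push Not at hch
      have hF1 := run_is_frozen C ha0 ha1 (fun w hw => (hch w hw).symm)
      have heq : a1 = F (U u) := frozen_unique C _ hF1 (hF (U u))
      rcases hu with h | ⟨w, hw, hw0, hw1⟩
      · exact ⟨a1, ha1, by rw [heq]; exact h⟩
      · rw [← heq, ← hch w hw, hw0] at hw1
        exact absurd hw1 (by simp)
  have h3 := hmono C' hC'm
  linarith

/-- The number of changes along the filling chain. -/
theorem count_changes {n s m B : ℕ} {Ω : Type} (C : Circuit n s) (T : ℕ)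
    (hT : C.EntryChangesLE T) (z0 : Fin n → Bool) (φ : Fin B → Fin m → Fin n)
    (U : Ω → Fin m → Bool) (ω : Fin B → Ω) [DecidablePred fun i : Fin B =>
      Changes C (cfgB z0 φ (fill U i ω)) (cfgB z0 φ (fill U ((i : ℕ) + 1) ω))] :
    ((Finset.univ : Finset (Fin B)).filter (fun i : Fin B =>
      Changes C (cfgB z0 φ (fill U i ω)) (cfgB z0 φ (fill U ((i : ℕ) + 1) ω)))).card ≤ T := by
  classical
  have hex : ∀ k : ℕ, ∃ a, C.IsRun (cfgB z0 φ (fill U k ω)) a := fun k => exists_run C _
  choose a ha using hex
  have h1 := hT B (fun k => cfgB z0 φ (fill U k ω)) a (by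
    intro i hi j hj
    refine cfgB_mono z0 φ ?_ j hj
    intro b l h
    unfold fill at h ⊢
    by_cases hlt : (b : ℕ) < i
    · rw [if_pos hlt] at h
      rw [if_pos (by omega)]
      exact h
    · rw [if_neg hlt] at h
      exact absurd h (by simp)) (fun k _ => ha k)
  refine le_trans ?_ h1
  refine Finset.card_le_card_of_injOn (fun i : Fin B => (i : ℕ)) ?_ (fun i _ j _ h => Fin.ext h)
  intro i hi
  rw [Finset.mem_coe, Finset.mem_filter] at hi
  obtain ⟨-, b, b', hb, hb', u, hu, hne⟩ := hi
  rw [Finset.mem_coe, Finset.mem_filter]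
  refine ⟨Finset.mem_range.mpr i.2, u, hu, ?_⟩
  rw [run_unique C (ha i) hb, run_unique C (ha (i + 1)) hb']
  exact hne

/-- **The averaged form of Theorem A.** -/
theorem avg_transfer {n s m B : ℕ} {Ω ΩY : Type} [Fintype Ω] [Fintype ΩY] [Nonempty Ω]
    [Nonempty ΩY] (C : Circuit n s) (T : ℕ) (hT : C.EntryChangesLE T)
    (z0 : Fin n → Bool) (φ : Fin B → Fin m → Fin n) (hφ : Disj φ)
    (hz : ∀ b i, z0 (φ b i) = false)
    (U : Ω → Fin m → Bool) (Y : ΩY → Fin m → Bool) (ε : ℝ)
    (hmono : ∀ C' : Circuit m (s + 3), C'.IsMonotone →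
      prob (fun a => Accepts C' (Y a)) ≤ prob (fun u => Accepts C' (U u)) + ε)
    (hB : 0 < B) :
    prob (fun p : Fin B × ((Fin B → Ω) × ΩY) =>
      Accepts C (cfgB z0 φ (Function.update (fill U p.1 p.2.1) p.1 (Y p.2.2)))) ≤
    prob (fun p : Fin B × ((Fin B → Ω) × ΩY) =>
      Accepts C (cfgB z0 φ (fill U ((p.1 : ℕ) + 1) p.2.1))) + T / B + ε := by
  classical
  have hB0 : (0 : ℝ) < B := by exact_mod_cast hB
  have hcO : (0 : ℝ) < (Fintype.card Ω : ℝ) := by exact_mod_cast Fintype.card_pos
  have hcF : (0 : ℝ) < (Fintype.card (Fin B → Ω) : ℝ) := by exact_mod_cast Fintype.card_pos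
  -- stages
  have key : ∀ (i : Fin B),
      ∑ ω : Fin B → Ω, prob (fun a => Accepts C
        (cfgB z0 φ (Function.update (fill U i ω) i (Y a)))) ≤
      ∑ ω : Fin B → Ω, (if Accepts C (cfgB z0 φ (fill U ((i : ℕ) + 1) ω)) then (1 : ℝ) else 0) +
      ∑ ω : Fin B → Ω, (if Changes C (cfgB z0 φ (fill U i ω))
        (cfgB z0 φ (fill U ((i : ℕ) + 1) ω)) then (1 : ℝ) else 0) +
      (Fintype.card (Fin B → Ω) : ℝ) * ε := by
    intro i
    have hst : ∀ ω : Fin B → Ω, prob (fun a => Accepts C
        (cfgB z0 φ (Function.update (fill U i ω) i (Y a)))) ≤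
        (∑ u : Ω, (if Accepts C (cfgB z0 φ (Function.update (fill U i ω) i (U u)))
          then (1 : ℝ) else 0)) / (Fintype.card Ω : ℝ) +
        (∑ u : Ω, (if Changes C (cfgB z0 φ (fill U i ω))
          (cfgB z0 φ (Function.update (fill U i ω) i (U u))) then (1 : ℝ) else 0)) /
          (Fintype.card Ω : ℝ) + ε := by
      intro ω
      have h := stage C z0 φ hφ hz U Y ε hmono (fill U i ω) i (by
        unfold fill
        rw [if_neg (lt_irrefl _)])
      rw [prob_eq_sum (fun u => Accepts C (cfgB z0 φ (Function.update (fill U i ω) i (U u)))),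
        prob_eq_sum (fun u => Changes C (cfgB z0 φ (fill U i ω))
          (cfgB z0 φ (Function.update (fill U i ω) i (U u))))] at h
      exact h
    refine (Finset.sum_le_sum fun ω _ => hst ω).trans (le_of_eq ?_)
    rw [Finset.sum_add_distrib, Finset.sum_add_distrib, ← Finset.sum_div, ← Finset.sum_div,
      Finset.sum_const, Finset.card_univ, nsmul_eq_mul]
    congr 2
    · have hr := resample i (fun ω : Fin B → Ω =>
        if Accepts C (cfgB z0 φ (fill U ((i : ℕ) + 1) ω)) then (1 : ℝ) else 0)
      have hr' : ∀ (ω : Fin B → Ω) (u : Ω), fill U ((i : ℕ) + 1) (Function.update ω i u) =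
          Function.update (fill U i ω) i (U u) := by
        intro ω u
        rw [fill_succ, fill_update, Function.update_self]
      simp only [hr'] at hr
      rw [hr, mul_div_cancel_left₀ _ hcO.ne']
    · have hr := resample i (fun ω : Fin B → Ω =>
        if Changes C (cfgB z0 φ (fill U i ω))
          (cfgB z0 φ (fill U ((i : ℕ) + 1) ω)) then (1 : ℝ) else 0)
      have hr' : ∀ (ω : Fin B → Ω) (u : Ω), fill U ((i : ℕ) + 1) (Function.update ω i u) =
          Function.update (fill U i ω) i (U u) := by
        intro ω u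
        rw [fill_succ, fill_update, Function.update_self]
      simp only [hr', fill_update] at hr
      rw [hr, mul_div_cancel_left₀ _ hcO.ne']
  -- left side
  have hL : prob (fun p : Fin B × ((Fin B → Ω) × ΩY) =>
      Accepts C (cfgB z0 φ (Function.update (fill U p.1 p.2.1) p.1 (Y p.2.2)))) =
      (∑ i : Fin B, (∑ ω : Fin B → Ω, prob (fun a => Accepts C
        (cfgB z0 φ (Function.update (fill U i ω) i (Y a))))) /
        (Fintype.card (Fin B → Ω) : ℝ)) / (B : ℝ) := by
    rw [prob_prod_eq_avg (fun (i : Fin B) (q : (Fin B → Ω) × ΩY) =>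
      Accepts C (cfgB z0 φ (Function.update (fill U i q.1) i (Y q.2)))), Fintype.card_fin]
    congr 1
    refine Finset.sum_congr rfl fun i _ => ?_
    rw [prob_prod_eq_avg (fun (ω : Fin B → Ω) (a : ΩY) =>
      Accepts C (cfgB z0 φ (Function.update (fill U i ω) i (Y a))))]
  have hR : prob (fun p : Fin B × ((Fin B → Ω) × ΩY) =>
      Accepts C (cfgB z0 φ (fill U ((p.1 : ℕ) + 1) p.2.1))) =
      (∑ i : Fin B, (∑ ω : Fin B → Ω,
        (if Accepts C (cfgB z0 φ (fill U ((i : ℕ) + 1) ω)) then (1 : ℝ) else 0)) /
        (Fintype.card (Fin B → Ω) : ℝ)) / (B : ℝ) := by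
    rw [prob_prod_eq_avg (fun (i : Fin B) (q : (Fin B → Ω) × ΩY) =>
      Accepts C (cfgB z0 φ (fill U ((i : ℕ) + 1) q.1))), Fintype.card_fin]
    congr 1
    refine Finset.sum_congr rfl fun i _ => ?_
    rw [prob_prod_eq_avg (fun (ω : Fin B → Ω) (_ : ΩY) =>
      Accepts C (cfgB z0 φ (fill U ((i : ℕ) + 1) ω)))]
    congr 1
    refine Finset.sum_congr rfl fun ω _ => ?_
    by_cases h : Accepts C (cfgB z0 φ (fill U ((i : ℕ) + 1) ω))
    · rw [if_pos h]
      exact prob_true fun _ => h
    · rw [if_neg h]
      exact prob_false fun _ => h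
  have hcount : ∑ i : Fin B, ∑ ω : Fin B → Ω, (if Changes C (cfgB z0 φ (fill U i ω))
        (cfgB z0 φ (fill U ((i : ℕ) + 1) ω)) then (1 : ℝ) else 0) ≤
      (Fintype.card (Fin B → Ω) : ℝ) * T := by
    rw [Finset.sum_comm]
    calc ∑ ω : Fin B → Ω, ∑ i : Fin B, (if Changes C (cfgB z0 φ (fill U i ω))
        (cfgB z0 φ (fill U ((i : ℕ) + 1) ω)) then (1 : ℝ) else 0)
        ≤ ∑ _ω : Fin B → Ω, (T : ℝ) := by
          refine Finset.sum_le_sum fun ω _ => ?_
          rw [Finset.sum_boole]
          exact_mod_cast count_changes C T hT z0 φ U ω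
      _ = (Fintype.card (Fin B → Ω) : ℝ) * T := by
          rw [Finset.sum_const, Finset.card_univ, nsmul_eq_mul]
  have hsum : ∑ i : Fin B, (∑ ω : Fin B → Ω, prob (fun a => Accepts C
        (cfgB z0 φ (Function.update (fill U i ω) i (Y a))))) ≤
      ∑ i : Fin B, (∑ ω : Fin B → Ω,
        (if Accepts C (cfgB z0 φ (fill U ((i : ℕ) + 1) ω)) then (1 : ℝ) else 0)) +
      (Fintype.card (Fin B → Ω) : ℝ) * T + B * ((Fintype.card (Fin B → Ω) : ℝ) * ε) := by
    refine (Finset.sum_le_sum fun i _ => key i).trans ?_
    rw [Finset.sum_add_distrib, Finset.sum_add_distrib, Finset.sum_const, Finset.card_univ,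
      Fintype.card_fin, nsmul_eq_mul]
    linarith
  rw [hL, hR, ← Finset.sum_div, ← Finset.sum_div]
  have hfin : (∑ i : Fin B, (∑ ω : Fin B → Ω,
        (if Accepts C (cfgB z0 φ (fill U ((i : ℕ) + 1) ω)) then (1 : ℝ) else 0)) +
      (Fintype.card (Fin B → Ω) : ℝ) * T + B * ((Fintype.card (Fin B → Ω) : ℝ) * ε)) /
        (Fintype.card (Fin B → Ω) : ℝ) / B =
      (∑ i : Fin B, (∑ ω : Fin B → Ω,
        (if Accepts C (cfgB z0 φ (fill U ((i : ℕ) + 1) ω)) then (1 : ℝ) else 0))) /
        (Fintype.card (Fin B → Ω) : ℝ) / B + T / B + ε := by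
    field_simp
  rw [← hfin]
  gcongr

end Pool.Agent.Lib_MP_22d2c8_rsf
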