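import Pool.Agent.Lib_MP_22d2c8_rsf.Basic
import Pool.Agent.Lib_MP_22d2c8_gen.Frozen

/-!
# PROG: a monotone circuit gives a monotone program

PROOF. For `x : Finset V` let `inp x : Fin m → Bool := fun i => decide (e i ∈ x)` and let `A x` be the run of
`C` for `inp x` (from `hC`, `Classical.choose`), `val u x := A x u = true`. Then
`val (inl i) x ↔ e i ∈ x`; for an and gate with predecessor set `P`: `val g x ↔ ∀ u ∈ P, val u x`;
for an or gate: `∃ u ∈ P`; there are no arbitrary gates.
Claim, by induction on `D.card`, for every set `D` of vertices closed under predecessors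
(`∀ g, inr g ∈ D → (C.op g).preds ⊆ D`): there is a list `l` with `MProg V l`,
`∀ u ∈ D, val u ∈ l`, and `l.length ≤ D.card * (m + s)`. `D = ∅`: nil. Otherwise remove a vertex
`u ∈ D` of maximal rank (`Finset.exists_max_image`); `D.erase u` is closed under predecessors.
If `u` is an input: add `var (e i)` (`val u = fun x => e i ∈ x` by funext and propext); one new
entry, `1 ≤ m + s`. If `u` is an and gate with predecessor set `P ⊆ D.erase u` (acyclic: ranks are
smaller): add `const True` and then successively, for `p ∈ P`, the conjunction of the last entry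
with `val p`: by induction on a subset `P' ⊆ P`: there is a program extending `l` (`∀ g ∈ l, g ∈ l'`)
of length `l.length + P'.card + 1` which contains `fun x => ∀ p ∈ P', val p x`. In all
`P.card + 1 ≤ m + s` new entries, because `P ⊆ univ.erase u` and the number of vertices is `m + s`.
Or gates: the same with `const False` and `or`.
For `D = univ`: `l.length ≤ (m + s) * (m + s) ≤ (m + s + 1) ^ 2`, and `val C.out = F`.
-/

namespace Pool.Agent.Lib_MP_22d2c8_rsf

open Finset

/-- a conjunction of listed functions -/
theorem prog_and {V U : Type} (val : U → Finset V → Prop) {l : List (Finset V → Prop)}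
    (hl : MProg V l) (P : Finset U) (hP : ∀ u ∈ P, val u ∈ l) :
    ∃ l', MProg V l' ∧ (∀ g ∈ l, g ∈ l') ∧ l'.length ≤ l.length + P.card + 1 ∧
      (fun x => ∀ u ∈ P, val u x) ∈ l' := by
  classical
  induction P using Finset.induction_on with
  | empty =>
    refine ⟨(fun _ => True) :: l, MProg.const True l hl, fun g hg => List.mem_cons_of_mem _ hg, ?_, ?_⟩
    · simp
    · have : (fun x : Finset V => ∀ u ∈ (∅ : Finset U), val u x) = fun _ => True := by
        funext x
        simp
      rw [this]
      exact List.mem_cons_self
  | insert a P ha ih =>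
    obtain ⟨l', h1, h2, h3, h4⟩ := ih fun u hu => hP u (Finset.mem_insert_of_mem hu)
    refine ⟨(fun x => val a x ∧ ∀ u ∈ P, val u x) :: l',
      MProg.and _ _ l' h1 (h2 _ (hP a (Finset.mem_insert_self a P))) h4,
      fun g hg => List.mem_cons_of_mem _ (h2 g hg), ?_, ?_⟩
    · rw [List.length_cons, Finset.card_insert_of_notMem ha]
      omega
    · have : (fun x : Finset V => ∀ u ∈ insert a P, val u x) =
          fun x => val a x ∧ ∀ u ∈ P, val u x := by
        funext x
        simp
      rw [this]
      exact List.mem_cons_self

/-- a disjunction of listed functions -/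
theorem prog_or {V U : Type} (val : U → Finset V → Prop) {l : List (Finset V → Prop)}
    (hl : MProg V l) (P : Finset U) (hP : ∀ u ∈ P, val u ∈ l) :
    ∃ l', MProg V l' ∧ (∀ g ∈ l, g ∈ l') ∧ l'.length ≤ l.length + P.card + 1 ∧
      (fun x => ∃ u ∈ P, val u x) ∈ l' := by
  classical
  induction P using Finset.induction_on with
  | empty =>
    refine ⟨(fun _ => False) :: l, MProg.const False l hl, fun g hg => List.mem_cons_of_mem _ hg,
      ?_, ?_⟩
    · simp
    · have : (fun x : Finset V => ∃ u ∈ (∅ : Finset U), val u x) = fun _ => False := by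
        funext x
        simp
      rw [this]
      exact List.mem_cons_self
  | insert a P ha ih =>
    obtain ⟨l', h1, h2, h3, h4⟩ := ih fun u hu => hP u (Finset.mem_insert_of_mem hu)
    refine ⟨(fun x => val a x ∨ ∃ u ∈ P, val u x) :: l',
      MProg.or _ _ l' h1 (h2 _ (hP a (Finset.mem_insert_self a P))) h4,
      fun g hg => List.mem_cons_of_mem _ (h2 g hg), ?_, ?_⟩
    · rw [List.length_cons, Finset.card_insert_of_notMem ha]
      omega
    · have : (fun x : Finset V => ∃ u ∈ insert a P, val u x) =
          fun x => val a x ∨ ∃ u ∈ P, val u x := by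
        funext x
        simp
      rw [this]
      exact List.mem_cons_self

theorem exists_prog {m s : ℕ} {V : Type} [DecidableEq V]
    (C : Pool.Agent.Lib_MP_22d2c8_gen.Circuit m s) (hm : C.IsMonotone)
    (f0 : (Fin m → Bool) → Bool) (hC : C.Computes f0) (e : Fin m → V) :
    ∃ l : List (Finset V → Prop), MProg V l ∧
      (fun x : Finset V => f0 (fun i => decide (e i ∈ x)) = true) ∈ l ∧
      l.length ≤ (m + s + 1) ^ 2 := by
  classical
  choose A hA hout using fun x : Finset V => hC (fun i => decide (e i ∈ x))
  obtain ⟨rank, hrank⟩ := C.acyclic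
  let val : Fin m ⊕ Fin s → Finset V → Prop := fun u x => A x u = true
  have hval_in : ∀ i, val (Sum.inl i) = fun x => e i ∈ x := by
    intro i
    funext x
    simp only [val, (hA x).1 i, decide_eq_true_eq]
  have hval_and : ∀ g P, C.op g = .and P → val (Sum.inr g) = fun x => ∀ u ∈ P, val u x := by
    intro g P hg
    funext x
    simp only [val, (hA x).2 g, hg, Pool.Agent.Lib_MP_22d2c8_gen.Op.eval, decide_eq_true_eq]
  have hval_or : ∀ g P, C.op g = .or P → val (Sum.inr g) = fun x => ∃ u ∈ P, val u x := by
    intro g P hg
    funext x
    simp only [val, (hA x).2 g, hg, Pool.Agent.Lib_MP_22d2c8_gen.Op.eval, decide_eq_true_eq]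
  have hcard : Fintype.card (Fin m ⊕ Fin s) = m + s := by simp
  have key : ∀ (n : ℕ) (D : Finset (Fin m ⊕ Fin s)), D.card = n →
      (∀ g, Sum.inr g ∈ D → (C.op g).preds ⊆ D) →
      ∃ l : List (Finset V → Prop), MProg V l ∧ (∀ u ∈ D, val u ∈ l) ∧ l.length ≤ n * (m + s) := by
    intro n
    induction n with
    | zero =>
      intro D hD _
      rw [Finset.card_eq_zero] at hD
      subst hD
      exact ⟨[], MProg.nil, by simp, by simp⟩
    | succ n ih =>
      intro D hD hcl
      have hne : D.Nonempty := by
        rw [← Finset.card_pos]
        omega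
      obtain ⟨u, hu, hmax⟩ := Finset.exists_max_image D rank hne
      have hD' : (D.erase u).card = n := by
        rw [Finset.card_erase_of_mem hu, hD]
        rfl
      have hpre : ∀ g, Sum.inr g ∈ D → (C.op g).preds ⊆ D.erase u := by
        intro g hg w hw
        refine Finset.mem_erase.mpr ⟨?_, hcl g hg hw⟩
        rintro rfl
        have h1 := hrank g _ hw
        have h2 := hmax _ hg
        omega
      obtain ⟨l, hl, hlD, hlen⟩ := ih (D.erase u) hD' fun g hg =>
        hpre g (Finset.mem_of_mem_erase hg)
      have hstep : ∀ l' : List (Finset V → Prop), MProg V l' → (∀ g ∈ l, g ∈ l') → val u ∈ l' →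
          l'.length ≤ l.length + (m + s) → ∃ l'' : List (Finset V → Prop), MProg V l'' ∧
            (∀ w ∈ D, val w ∈ l'') ∧ l''.length ≤ (n + 1) * (m + s) := by
        intro l' h1 h2 h3 h4
        refine ⟨l', h1, ?_, ?_⟩
        · intro w hw
          by_cases hwu : w = u
          · rw [hwu]; exact h3
          · exact h2 _ (hlD w (Finset.mem_erase.mpr ⟨hwu, hw⟩))
        · rw [Nat.add_mul, one_mul]
          omega
      have hPcard : ∀ P : Finset (Fin m ⊕ Fin s), P ⊆ D.erase u → P.card + 1 ≤ m + s := by
        intro P hP
        have h1 := Finset.card_le_card hP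
        have h2 := Finset.card_le_univ D
        rw [hcard] at h2
        omega
      rcases u with i | g
      · refine hstep ((fun x => e i ∈ x) :: l) (MProg.var _ l hl)
          (fun g hg => List.mem_cons_of_mem _ hg) ?_ ?_
        · rw [hval_in]
          exact List.mem_cons_self
        · rw [List.length_cons]
          have := i.pos
          omega
      · rcases hop : C.op g with P | P | ⟨P, φ⟩
        · have hP : P ⊆ D.erase (Sum.inr g) := by
            have := hpre g hu
            rw [hop] at this
            exact this
          obtain ⟨l', h1, h2, h3, h4⟩ := prog_and val hl P fun w hw => hlD w (hP hw)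
          refine hstep l' h1 h2 ?_ ?_
          · rw [hval_and g P hop]; exact h4
          · have := hPcard P hP
            omega
        · have hP : P ⊆ D.erase (Sum.inr g) := by
            have := hpre g hu
            rw [hop] at this
            exact this
          obtain ⟨l', h1, h2, h3, h4⟩ := prog_or val hl P fun w hw => hlD w (hP hw)
          refine hstep l' h1 h2 ?_ ?_
          · rw [hval_or g P hop]; exact h4
          · have := hPcard P hP
            omega
        · have := hm g
          rw [hop] at this
          simp [Pool.Agent.Lib_MP_22d2c8_gen.Op.isArb] at this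
  obtain ⟨l, hl, hD, hlen⟩ := key (m + s) univ (by rw [Finset.card_univ, hcard])
    (fun g _ => Finset.subset_univ _)
  refine ⟨l, hl, ?_, ?_⟩
  · have h1 := hD C.out (Finset.mem_univ _)
    have h2 : val C.out = fun x : Finset V => f0 (fun i => decide (e i ∈ x)) = true := by
      funext x
      simp only [val, hout x]
    rw [h2] at h1
    exact h1
  · refine hlen.trans ?_
    nlinarith

end Pool.Agent.Lib_MP_22d2c8_rsf
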