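import Pool.Agent.Lib_MP_22d2c8_rsf.Halve

/-!
# AMPL: hitting with high probability

PROOF of `hit_half`: apply `hit_rounds` with `I = Finset V`, `S = F`, `H = id`, `D = F.card`:
`F.card ≤ F.card * (prob (Hit F (noise ω)) + 1/2 - ...)`, and `F.card > 0`, so
`1 ≤ prob (Hit) + 1/2`.

PROOF of `hit_amplified`: induction on `k`. `k = 0`: `prob ≤ 1`. Step: `(k+1) * Nat.size w =
k * Nat.size w + Nat.size w` (`Nat.succ_mul`; rewrite with `cases`/`subst` on an equation for the
number of rounds, or state the induction for every `R` with `R = k * Nat.size w`), `prob_noise_add`,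
`¬ Hit F (A ∪ B) → ¬ Hit F A ∧ ¬ Hit F B`, `prob_prod_and`, induction and
`prob (¬ Hit) = 1 - prob Hit ≤ 1/2` (`prob_not` needs `Nonempty (Fin _ → V → Fin M)`, from `hM`).
-/

namespace Pool.Agent.Lib_MP_22d2c8_rsf

open Finset

theorem hit_half {V : Type} [Fintype V] [DecidableEq V] {M w : ℕ} (hM : 1 ≤ M)
    (F : Finset (Finset V)) (hF : F.Nonempty) (hw : ∀ T ∈ F, T.card ≤ w)
    (hsp : ∀ K : Finset V,
      ((F.filter (fun T => K ⊆ T)).card : ℝ) ≤ F.card / (16 * M : ℝ) ^ K.card) :
    1 / 2 ≤ prob (fun ω : Fin (Nat.size w) → V → Fin M => Hit F (noise ω)) := by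
  have h := hit_rounds (V := V) (M := M) hM w F id (F.card : ℝ) hw hsp
  have hF0 : (0 : ℝ) < F.card := by exact_mod_cast hF.card_pos
  have h2 : prob (fun ω : Fin (Nat.size w) → V → Fin M => ∃ i ∈ F, id i ⊆ noise ω) =
      prob (fun ω : Fin (Nat.size w) → V → Fin M => Hit F (noise ω)) := prob_congr fun ω => Iff.rfl
  rw [h2] at h
  have h3 : (0 : ℝ) < (1 / 2) ^ (w + 1) := by positivity
  by_contra hc
  push Not at hc
  nlinarith

theorem hit_amplified {V : Type} [Fintype V] [DecidableEq V] {M w : ℕ} (hM : 1 ≤ M)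
    (F : Finset (Finset V)) (hF : F.Nonempty) (hw : ∀ T ∈ F, T.card ≤ w)
    (hsp : ∀ K : Finset V,
      ((F.filter (fun T => K ⊆ T)).card : ℝ) ≤ F.card / (16 * M : ℝ) ^ K.card) (k : ℕ) :
    prob (fun ω : Fin (k * Nat.size w) → V → Fin M => ¬ Hit F (noise ω)) ≤ (1 / 2) ^ k := by
  have : Nonempty (Fin M) := ⟨⟨0, hM⟩⟩
  have key : ∀ (k R : ℕ), R = k * Nat.size w →
      prob (fun ω : Fin R → V → Fin M => ¬ Hit F (noise ω)) ≤ (1 / 2) ^ k := by
    intro k
    induction k with
    | zero => intro R _; simpa using prob_le_one _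
    | succ k ih =>
      intro R hR
      rw [Nat.succ_mul] at hR
      subst hR
      rw [prob_noise_add (fun x => ¬ Hit F x)]
      refine (prob_mono (q := fun ω : (Fin (k * Nat.size w) → V → Fin M) ×
        (Fin (Nat.size w) → V → Fin M) => ¬ Hit F (noise ω.1) ∧ ¬ Hit F (noise ω.2)) ?_).trans ?_
      · intro ω h
        constructor
        · rintro ⟨T, hT, hs⟩
          exact h ⟨T, hT, hs.trans Finset.subset_union_left⟩
        · rintro ⟨T, hT, hs⟩
          exact h ⟨T, hT, hs.trans Finset.subset_union_right⟩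
      · rw [prob_prod_and (fun ω : Fin (k * Nat.size w) → V → Fin M => ¬ Hit F (noise ω))
          (fun ω : Fin (Nat.size w) → V → Fin M => ¬ Hit F (noise ω)), pow_succ]
        refine mul_le_mul (ih _ rfl) ?_ (prob_nonneg _) (by positivity)
        rw [prob_not]
        have := hit_half hM F hF hw hsp
        linarith
  exact key k _ rfl

end Pool.Agent.Lib_MP_22d2c8_rsf
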