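import Pool.Agent.Lib_MP_22d2c8_rsf.Basic

/-!
# APPROX: approximation of a monotone program by closed families

PROOF. Induction on `MProg V l` (the error events `EY`, `EU` are for the whole list).
Useful facts, for `0 ≤ δ < 1` and `Ω` nonempty:
(a) the empty family is closed (`prob (fun _ => ¬ Hit ∅ _) = 1 > δ`); (b) the family `Full` of all
sets of size at most `w` is closed and hits everything (`∅ ∈ Full`); (c) if `A`, `B` are closed
then `A ∩ B` is closed (`¬ Hit A x → ¬ Hit (A ∩ B) x`, `prob_mono`); (d) if `A` is closed, `T ∈ A`,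
`T ⊆ K`, `K.card ≤ w` then `K ∈ A` (the event is empty, probability `0 ≤ δ`); (e) if
`Hit A x` then some minimal `T` of `A` (`IsMin A T`) is contained in `x` (strong induction on the
size, or `Finset.exists_minimal`-like lemmas).
* `nil`: trivial with `EY = EU = False`.
* `const p`: by cases on `p`: `Full` resp. the empty family; no new error.
* `var v`: `A` = the closure (from `hcl`) of `{ {v} }` (`1 ≤ w`); `v ∈ Y a → Hit A (Y a)`; new error
  event on the `U` side: `Hit A (U ω) ∧ ¬ Hit {{v}} (U ω)`, of probability at most `ηU`.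
* `or g h`: with `A`, `B` for `g`, `h`: the closure `A'` of `A ∪ B`; `Hit (A ∪ B) x ↔ Hit A x ∨
  Hit B x`; new error on the `U` side only.
* `and g h`: `A ∩ B`. On the `U` side `Hit (A ∩ B) x → Hit A x ∧ Hit B x`, no new error. On the `Y`
  side: the new error event is `E_A ∨ E_B` with `E_A a := ∃ T, IsMin A T ∧ v < T.card ∧ T ⊆ Y a`,
  of probability at most `2 ηY`. Outside, if `Hit A (Y a)` and `Hit B (Y a)`, take by (e) minimal
  `T₁ ∈ A`, `T₂ ∈ B` inside `Y a`; both have size at most `v`, so `T₁ ∪ T₂` has size at most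
  `2 v = w` and is in `A ∩ B` by (d), and it is contained in `Y a`.
For members of the old list keep their families and enlarge the error events (`∨`, `prob_or_le`).
The new event bounds: `(l.length + 1) * (2 ηY)` and `(l.length + 1) * ηU`.
-/

namespace Pool.Agent.Lib_MP_22d2c8_rsf

open Finset

section

variable {V Ω ΩY : Type} [DecidableEq V] [Fintype Ω] [Fintype ΩY]

private theorem ap_closed_empty [Nonempty Ω] (w : ℕ) (U : Ω → Finset V) {δ : ℝ} (hδ1 : δ < 1) :
    Closed w U δ ∅ := by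
  refine ⟨fun T hT => absurd hT (Finset.notMem_empty T), fun K _ h => ?_⟩
  rw [prob_true] at h
  · linarith
  · rintro ω ⟨T, hT, _⟩
    exact absurd hT (Finset.notMem_empty T)

private theorem ap_closed_full [Fintype V] (w : ℕ) (U : Ω → Finset V) (δ : ℝ) :
    ∃ A : Finset (Finset V), Closed w U δ A ∧ ∀ x, Hit A x := by
  classical
  refine ⟨univ.filter fun T => T.card ≤ w, ⟨fun T hT => (Finset.mem_filter.1 hT).2,
    fun K hK _ => Finset.mem_filter.2 ⟨Finset.mem_univ _, hK⟩⟩, fun x => ⟨∅, ?_, by simp⟩⟩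
  rw [Finset.mem_filter]
  exact ⟨Finset.mem_univ _, by simp⟩

omit [DecidableEq V] in
private theorem ap_hit_mono {A B : Finset (Finset V)} (h : A ⊆ B) {x : Finset V} (hA : Hit A x) :
    Hit B x := by
  obtain ⟨T, hT, hx⟩ := hA
  exact ⟨T, h hT, hx⟩

private theorem ap_closed_inter {w : ℕ} {U : Ω → Finset V} {δ : ℝ} {A B : Finset (Finset V)}
    (hA : Closed w U δ A) (hB : Closed w U δ B) : Closed w U δ (A ∩ B) := by
  refine ⟨fun T hT => hA.1 T (Finset.mem_of_mem_inter_left hT), fun K hK h => ?_⟩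
  rw [Finset.mem_inter]
  refine ⟨hA.2 K hK (le_trans (prob_mono ?_) h), hB.2 K hK (le_trans (prob_mono ?_) h)⟩
  · intro ω h1 h2
    exact h1 (ap_hit_mono Finset.inter_subset_left h2)
  · intro ω h1 h2
    exact h1 (ap_hit_mono Finset.inter_subset_right h2)

private theorem ap_up {w : ℕ} {U : Ω → Finset V} {δ : ℝ} (hδ : 0 ≤ δ) {A : Finset (Finset V)}
    (hA : Closed w U δ A) {T K : Finset V} (hT : T ∈ A) (hTK : T ⊆ K) (hK : K.card ≤ w) : K ∈ A := by
  refine hA.2 K hK ?_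
  rw [prob_false]
  · exact hδ
  · intro ω h
    exact h ⟨T, hT, hTK.trans Finset.subset_union_left⟩

private theorem ap_min {A : Finset (Finset V)} {x : Finset V} (h : Hit A x) :
    ∃ T, IsMin A T ∧ T ⊆ x := by
  classical
  obtain ⟨T₀, h0, hx⟩ := h
  have hne : (A.filter fun T => T ⊆ x).Nonempty := ⟨T₀, Finset.mem_filter.2 ⟨h0, hx⟩⟩
  obtain ⟨T, hT, hmin⟩ := Finset.exists_min_image _ Finset.card hne
  rw [Finset.mem_filter] at hT
  refine ⟨T, ⟨hT.1, fun T' hT' hs => ?_⟩, hT.2⟩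
  exact Finset.eq_of_subset_of_card_le hs
    (hmin T' (Finset.mem_filter.2 ⟨hT', hs.trans hT.2⟩))

/-- what is proved for a function -/
private def ApGood (w : ℕ) (U : Ω → Finset V) (Y : ΩY → Finset V) (δ : ℝ) (EY : ΩY → Prop)
    (EU : Ω → Prop) (g : Finset V → Prop) : Prop :=
  ∃ A, Closed w U δ A ∧ (∀ a, g (Y a) → ¬ EY a → Hit A (Y a)) ∧
    (∀ ω, Hit A (U ω) → ¬ EU ω → g (U ω))

omit [Fintype ΩY] in
private theorem ap_good_mono {w : ℕ} {U : Ω → Finset V} {Y : ΩY → Finset V} {δ : ℝ}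
    {EY EY' : ΩY → Prop} {EU EU' : Ω → Prop} {g : Finset V → Prop}
    (h : ApGood w U Y δ EY EU g) (h1 : ∀ a, EY a → EY' a) (h2 : ∀ ω, EU ω → EU' ω) :
    ApGood w U Y δ EY' EU' g := by
  obtain ⟨A, hA, h3, h4⟩ := h
  exact ⟨A, hA, fun a ha hn => h3 a ha fun h => hn (h1 a h),
    fun ω hω hn => h4 ω hω fun h => hn (h2 ω h)⟩

private theorem ap_step {w : ℕ} {U : Ω → Finset V} {Y : ΩY → Finset V} {δ : ℝ} {ηY ηU : ℝ}
    {l : List (Finset V → Prop)} {f : Finset V → Prop}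
    (ih : ∃ (EY : ΩY → Prop) (EU : Ω → Prop), prob EY ≤ l.length * (2 * ηY) ∧
      prob EU ≤ l.length * ηU ∧ ∀ g ∈ l, ApGood w U Y δ EY EU g)
    (hf : ∀ (EY : ΩY → Prop) (EU : Ω → Prop), (∀ g ∈ l, ApGood w U Y δ EY EU g) →
      ∃ (eY : ΩY → Prop) (eU : Ω → Prop), prob eY ≤ 2 * ηY ∧ prob eU ≤ ηU ∧
        ApGood w U Y δ (fun a => EY a ∨ eY a) (fun ω => EU ω ∨ eU ω) f) :
    ∃ (EY : ΩY → Prop) (EU : Ω → Prop), prob EY ≤ (f :: l).length * (2 * ηY) ∧
      prob EU ≤ (f :: l).length * ηU ∧ ∀ g ∈ f :: l, ApGood w U Y δ EY EU g := by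
  obtain ⟨EY, EU, h1, h2, h3⟩ := ih
  obtain ⟨eY, eU, h4, h5, h6⟩ := hf EY EU h3
  refine ⟨fun a => EY a ∨ eY a, fun ω => EU ω ∨ eU ω, ?_, ?_, ?_⟩
  · refine (prob_or_le _ _).trans ?_
    rw [List.length_cons]
    push_cast
    linarith
  · refine (prob_or_le _ _).trans ?_
    rw [List.length_cons]
    push_cast
    linarith
  · intro g hg
    rcases List.mem_cons.1 hg with rfl | hg
    · exact h6
    · exact ap_good_mono (h3 g hg) (fun a h => Or.inl h) (fun ω h => Or.inl h)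

end

theorem approx {V Ω ΩY : Type} [Fintype V] [DecidableEq V] [Fintype Ω] [Nonempty Ω] [Fintype ΩY]
    {w v : ℕ} (hw : w = 2 * v) (hv : 1 ≤ v) (U : Ω → Finset V) (Y : ΩY → Finset V) {δ : ℝ}
    (hδ : 0 ≤ δ) (hδ1 : δ < 1) {ηY ηU : ℝ} (hηY : 0 ≤ ηY) (hηU : 0 ≤ ηU)
    (hcl : ∀ B : Finset (Finset V), (∀ T ∈ B, T.card ≤ w) →
      ∃ A, Closed w U δ A ∧ B ⊆ A ∧ prob (fun ω => Hit A (U ω) ∧ ¬ Hit B (U ω)) ≤ ηU)
    (htail : ∀ A : Finset (Finset V), Closed w U δ A →
      prob (fun a => ∃ T, IsMin A T ∧ v < T.card ∧ T ⊆ Y a) ≤ ηY)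
    {l : List (Finset V → Prop)} (hl : MProg V l) :
    ∃ (EY : ΩY → Prop) (EU : Ω → Prop), prob EY ≤ l.length * (2 * ηY) ∧
      prob EU ≤ l.length * ηU ∧ ∀ g ∈ l, ∃ A, Closed w U δ A ∧
        (∀ a, g (Y a) → ¬ EY a → Hit A (Y a)) ∧ (∀ ω, Hit A (U ω) → ¬ EU ω → g (U ω)) := by
  classical
  have h2ηY : 0 ≤ 2 * ηY := by linarith
  have hfalse : prob (fun _ : ΩY => False) ≤ 2 * ηY := by
    rw [prob_false (fun _ h => h)]; exact h2ηY
  have hfalse' : prob (fun _ : Ω => False) ≤ ηU := by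
    rw [prob_false (fun _ h => h)]; exact hηU
  induction hl with
  | nil =>
    refine ⟨fun _ => False, fun _ => False, ?_, ?_, fun g hg => absurd hg (by simp)⟩
    · rw [prob_false (fun _ h => h)]; simp
    · rw [prob_false (fun _ h => h)]; simp
  | const p l _ ih =>
    refine ap_step ih fun EY EU _ => ⟨fun _ => False, fun _ => False, hfalse, hfalse', ?_⟩
    by_cases hp : p
    · obtain ⟨A, hA, hh⟩ := ap_closed_full (V := V) w U δ
      exact ⟨A, hA, fun a _ _ => hh _, fun ω _ _ => hp⟩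
    · refine ⟨∅, ap_closed_empty w U hδ1, fun a h _ => absurd h hp, ?_⟩
      rintro ω ⟨T, hT, _⟩ _
      exact absurd hT (Finset.notMem_empty T)
  | var x l _ ih =>
    refine ap_step ih fun EY EU _ => ?_
    obtain ⟨B, hB⟩ : ∃ B : Finset (Finset V), B = {{x}} := ⟨_, rfl⟩
    obtain ⟨A, hA, hBA, hpr⟩ := hcl B (by
      intro T hT
      rw [hB, Finset.mem_singleton] at hT
      rw [hT, Finset.card_singleton]
      omega)
    refine ⟨fun _ => False, fun ω => Hit A (U ω) ∧ ¬ Hit B (U ω), hfalse, hpr, A, hA, ?_, ?_⟩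
    · intro a ha _
      have hx : ({x} : Finset V) ∈ B := by rw [hB]; exact Finset.mem_singleton_self _
      exact ⟨{x}, hBA hx, Finset.singleton_subset_iff.2 ha⟩
    · intro ω h1 h2
      by_contra h3
      apply h2
      refine Or.inr ⟨h1, ?_⟩
      rintro ⟨T, hT, hTU⟩
      rw [hB, Finset.mem_singleton] at hT
      rw [hT] at hTU
      exact h3 (Finset.singleton_subset_iff.1 hTU)
  | and g h l _ hg hh ih =>
    refine ap_step ih fun EY EU hgood => ?_
    obtain ⟨A, hA, hAY, hAU⟩ := hgood g hg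
    obtain ⟨B, hB, hBY, hBU⟩ := hgood h hh
    refine ⟨fun a => (∃ T, IsMin A T ∧ v < T.card ∧ T ⊆ Y a) ∨ ∃ T, IsMin B T ∧ v < T.card ∧ T ⊆ Y a,
      fun _ => False, ?_, hfalse', A ∩ B, ap_closed_inter hA hB, ?_, ?_⟩
    · refine (prob_or_le _ _).trans ?_
      have h1 := htail A hA
      have h2 := htail B hB
      linarith
    · rintro a ⟨hga, hha⟩ hn
      have h1 : ¬ EY a := fun h => hn (Or.inl h)
      obtain ⟨T₁, hm1, hT1⟩ := ap_min (hAY a hga h1)
      obtain ⟨T₂, hm2, hT2⟩ := ap_min (hBY a hha h1)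
      have hc1 : T₁.card ≤ v := by
        by_contra hc
        exact hn (Or.inr (Or.inl ⟨T₁, hm1, not_le.1 hc, hT1⟩))
      have hc2 : T₂.card ≤ v := by
        by_contra hc
        exact hn (Or.inr (Or.inr ⟨T₂, hm2, not_le.1 hc, hT2⟩))
      have hc : (T₁ ∪ T₂).card ≤ w := (Finset.card_union_le _ _).trans (by omega)
      refine ⟨T₁ ∪ T₂, Finset.mem_inter.2 ⟨ap_up hδ hA hm1.1 Finset.subset_union_left hc,
        ap_up hδ hB hm2.1 Finset.subset_union_right hc⟩, Finset.union_subset hT1 hT2⟩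
    · intro ω h1 h2
      have h3 : ¬ EU ω := fun h => h2 (Or.inl h)
      exact ⟨hAU ω (ap_hit_mono Finset.inter_subset_left h1) h3,
        hBU ω (ap_hit_mono Finset.inter_subset_right h1) h3⟩
  | or g h l _ hg hh ih =>
    refine ap_step ih fun EY EU hgood => ?_
    obtain ⟨A, hA, hAY, hAU⟩ := hgood g hg
    obtain ⟨B, hB, hBY, hBU⟩ := hgood h hh
    obtain ⟨C, hC, hBC, hpr⟩ := hcl (A ∪ B) (by
      intro T hT
      rcases Finset.mem_union.1 hT with h | h
      · exact hA.1 T h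
      · exact hB.1 T h)
    refine ⟨fun _ => False, fun ω => Hit C (U ω) ∧ ¬ Hit (A ∪ B) (U ω), hfalse, hpr, C, hC, ?_, ?_⟩
    · intro a ha hn
      have h1 : ¬ EY a := fun h => hn (Or.inl h)
      rcases ha with ha | ha
      · exact ap_hit_mono (Finset.subset_union_left.trans hBC) (hAY a ha h1)
      · exact ap_hit_mono (Finset.subset_union_right.trans hBC) (hBY a ha h1)
    · intro ω h1 h2
      have h3 : ¬ EU ω := fun h => h2 (Or.inl h)
      have h4 : Hit (A ∪ B) (U ω) := by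
        by_contra h5
        exact h2 (Or.inr ⟨h1, h5⟩)
      obtain ⟨T, hT, hTU⟩ := h4
      rcases Finset.mem_union.1 hT with h | h
      · exact Or.inl (hAU ω ⟨T, h, hTU⟩ h3)
      · exact Or.inr (hBU ω ⟨T, h, hTU⟩ h3)

end Pool.Agent.Lib_MP_22d2c8_rsf
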