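import Pool.Agent.Lib_MP_22d2c8_rsf.MonoBound

/-!
# DIST: the distributional form of the monotone bound

Every small monotone program accepts the noise at least as often as the graph of a random polynomial,
up to an exponentially small error.
-/

namespace Pool.Agent.Lib_MP_22d2c8_rsf

open Finset

theorem prob_subset_noise_eq {V : Type} [Fintype V] [DecidableEq V] {R M : ℕ} (hM : 1 ≤ M)
    (P : Finset V) :
    prob (fun ω : Fin R → V → Fin M => P ⊆ noise ω) =
      (prob (fun b : Fin R → Fin M => ∃ l, (b l : ℕ) = 0)) ^ P.card := by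
  classical
  have h0 : prob (fun ω : Fin R → V → Fin M => P ⊆ noise ω) =
      prob (fun ω : V → Fin R → Fin M => ∀ v ∈ P, ∃ l, (ω v l : ℕ) = 0) := by
    rw [← prob_equiv (Equiv.piComm (fun (_ : Fin R) (_ : V) => Fin M))]
    refine prob_congr fun ω => ?_
    constructor
    · intro h v hv
      exact mem_noise.mp (h hv)
    · intro h v hv
      exact mem_noise.mpr (h v hv)
  rw [h0]
  set Z : Finset (Fin R → Fin M) := univ.filter (fun b => ∃ l, (b l : ℕ) = 0) with hZ
  have h1 : (univ.filter (fun ω : V → Fin R → Fin M => ∀ v ∈ P, ∃ l, (ω v l : ℕ) = 0)) =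
      Fintype.piFinset (fun v => if v ∈ P then Z else univ) := by
    ext ω
    simp only [Finset.mem_filter, Finset.mem_univ, true_and, Fintype.mem_piFinset]
    refine forall_congr' fun v => ?_
    split_ifs with hv
    · simp [hv, hZ]
    · simp [hv]
  rw [prob_eq, h1, Fintype.card_piFinset, Fintype.card_fun]
  have h2 : ∏ v, (if v ∈ P then Z else univ : Finset (Fin R → Fin M)).card =
      Z.card ^ P.card * (Fintype.card (Fin R → Fin M)) ^ (Fintype.card V - P.card) := by
    have e1 : ∀ v, (if v ∈ P then Z else univ : Finset (Fin R → Fin M)).card =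
        if v ∈ P then Z.card else Fintype.card (Fin R → Fin M) := by
      intro v
      split_ifs <;> simp
    rw [Finset.prod_congr rfl fun v _ => e1 v, Finset.prod_ite, Finset.prod_const,
      Finset.prod_const]
    congr 2
    · simp
    · rw [Finset.filter_not, Finset.card_sdiff_of_subset (Finset.filter_subset _ _)]
      simp
  rw [h2]
  have hNpos : (0 : ℝ) < (Fintype.card (Fin R → Fin M) : ℝ) := by
    have : Nonempty (Fin R → Fin M) := ⟨fun _ => ⟨0, hM⟩⟩
    exact_mod_cast Fintype.card_pos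
  have hPV : P.card ≤ Fintype.card V := Finset.card_le_univ P
  obtain ⟨d, hd⟩ : ∃ d, Fintype.card V = P.card + d := ⟨Fintype.card V - P.card, by omega⟩
  have hZp : prob (fun b : Fin R → Fin M => ∃ l, (b l : ℕ) = 0) =
      (Z.card : ℝ) / (Fintype.card (Fin R → Fin M) : ℝ) := by
    rw [prob_eq]
  rw [hd, Nat.add_sub_cancel_left]
  push_cast
  have h3 : ((Z.card : ℝ) ^ P.card * (Fintype.card (Fin R → Fin M) : ℝ) ^ d) /
      (Fintype.card (Fin R → Fin M) : ℝ) ^ (P.card + d) =
      ((Z.card : ℝ) / (Fintype.card (Fin R → Fin M) : ℝ)) ^ P.card := by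
    rw [pow_add, div_pow, mul_div_mul_right _ _ (pow_pos hNpos d).ne']
  rw [h3, ← hZp]

theorem column_ge {R M : ℕ} (hM : 1 ≤ M) (hR : M ≤ 3 * R) :
    (1 / 4 : ℝ) ≤ prob (fun b : Fin R → Fin M => ∃ l, (b l : ℕ) = 0) := by
  classical
  have hMne : Nonempty (Fin M) := ⟨⟨0, hM⟩⟩
  have hM0 : (0 : ℝ) < M := by exact_mod_cast hM
  have h1 : prob (fun b : Fin R → Fin M => ¬ ∃ l, (b l : ℕ) = 0) = (((M : ℝ) - 1) / M) ^ R := by
    rw [prob_eq]
    have hcard : (univ.filter (fun b : Fin R → Fin M => ¬ ∃ l, (b l : ℕ) = 0)) =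
        Fintype.piFinset (fun _ : Fin R => univ.filter (fun c : Fin M => ¬ (c : ℕ) = 0)) := by
      ext b
      simp only [Finset.mem_filter, Finset.mem_univ, true_and, Fintype.mem_piFinset, not_exists]
    have h2 : (univ.filter (fun c : Fin M => ¬ (c : ℕ) = 0)).card = M - 1 := by
      have h3 : (univ.filter (fun c : Fin M => (c : ℕ) = 0)).card = 1 := by
        rw [Finset.card_eq_one]
        refine ⟨⟨0, hM⟩, ?_⟩
        ext c
        simp [Fin.ext_iff]
      have h4 := Finset.card_filter_add_card_filter_not (s := (univ : Finset (Fin M)))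
        (fun c : Fin M => (c : ℕ) = 0)
      rw [h3, Finset.card_univ, Fintype.card_fin] at h4
      omega
    rw [hcard, Fintype.card_piFinset, Finset.prod_const, h2, Finset.card_univ, Fintype.card_fin,
      Fintype.card_fun, Fintype.card_fin, Fintype.card_fin]
    push_cast
    rw [Nat.cast_sub hM, div_pow]
    simp
  have h2 : prob (fun b : Fin R → Fin M => ∃ l, (b l : ℕ) = 0) = 1 - (((M : ℝ) - 1) / M) ^ R := by
    have h3 := prob_not (fun b : Fin R → Fin M => ∃ l, (b l : ℕ) = 0)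
    rw [h1] at h3
    linarith
  rw [h2]
  have h3 : (((M : ℝ) - 1) / M) ^ R ≤ 3 / 4 := by
    have h5 : (1 : ℝ) + R * (1 / M) ≤ (1 + 1 / M) ^ R := by
      apply one_add_mul_le_pow
      have : (0 : ℝ) ≤ 1 / M := by positivity
      linarith
    have h6 : (4 / 3 : ℝ) ≤ 1 + R * (1 / M) := by
      have h7 : (M : ℝ) ≤ 3 * R := by exact_mod_cast hR
      have h8 : (1 / 3 : ℝ) ≤ R * (1 / M) := by
        rw [mul_one_div, le_div_iff₀ hM0]
        linarith
      linarith
    have h7 : (((M : ℝ) - 1) / M) ^ R * (1 + 1 / M) ^ R ≤ 1 := by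
      rw [← mul_pow]
      apply pow_le_one₀
      · apply mul_nonneg
        · apply div_nonneg _ hM0.le
          have : (1 : ℝ) ≤ M := by exact_mod_cast hM
          linarith
        · positivity
      · have : ((M : ℝ) - 1) / M * (1 + 1 / M) = 1 - 1 / M ^ 2 := by
          field_simp
          ring
        rw [this]
        have : (0 : ℝ) ≤ 1 / M ^ 2 := by positivity
        linarith
    have h8 : (0 : ℝ) ≤ (((M : ℝ) - 1) / M) ^ R := by
      apply pow_nonneg
      apply div_nonneg _ hM0.le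
      have : (1 : ℝ) ≤ M := by exact_mod_cast hM
      linarith
    nlinarith
  linarith

/-- A closed family is hit by the noise at least as often as by the random graph. -/
theorem closed_compare {V ΩY : Type} [Fintype V] [DecidableEq V] [Fintype ΩY] {M w k q : ℕ}
    (hM : 1 ≤ M) (hR3 : M ≤ 3 * (k * Nat.size w))
    (hq : 128 * M ≤ q) (Y : ΩY → Finset V)
    (hY : ∀ T : Finset V, T.card ≤ w → prob (fun a => T ⊆ Y a) ≤ (1 / q : ℝ) ^ T.card)
    {A : Finset (Finset V)}
    (hA : Closed w (noise : (Fin (k * Nat.size w) → V → Fin M) → Finset V) ((1 / 2) ^ k) A) :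
    prob (fun a => Hit A (Y a)) ≤
      prob (fun ω : Fin (k * Nat.size w) → V → Fin M => Hit A (noise ω)) := by
  classical
  have hMne : NeZero M := ⟨by omega⟩
  rcases A.eq_empty_or_nonempty with rfl | hne
  · rw [prob_false]
    · exact prob_nonneg _
    · rintro a ⟨T, hT, _⟩
      exact absurd hT (Finset.notMem_empty T)
  · obtain ⟨T0, hT0, hmin⟩ := Finset.exists_min_image A Finset.card hne
    rcases Nat.eq_zero_or_pos T0.card with h0 | h0
    · have : T0 = ∅ := Finset.card_eq_zero.mp h0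
      rw [this] at hT0
      have h1 : prob (fun ω : Fin (k * Nat.size w) → V → Fin M => Hit A (noise ω)) = 1 :=
        prob_true fun ω => ⟨∅, hT0, Finset.empty_subset _⟩
      rw [h1]
      exact prob_le_one _
    · have h1 : prob (fun a => Hit A (Y a)) ≤ (1 / 8) ^ (T0.card - 1) / 7 := by
        refine le_trans (prob_mono ?_) (tail_le hM hq Y hY hA (T0.card - 1))
        rintro a ⟨T, hT, hTa⟩
        obtain ⟨T', hT', hmin'⟩ := Finset.exists_min_image (A.filter (fun T' => T' ⊆ T))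
          Finset.card ⟨T, by rw [Finset.mem_filter]; exact ⟨hT, Finset.Subset.refl _⟩⟩
        rw [Finset.mem_filter] at hT'
        refine ⟨T', ⟨hT'.1, ?_⟩, ?_, hT'.2.trans hTa⟩
        · intro T'' hT'' hsub
          exact Finset.eq_of_subset_of_card_le hsub (hmin' T'' (by
            rw [Finset.mem_filter]
            exact ⟨hT'', hsub.trans hT'.2⟩))
        · have := hmin T' hT'.1
          omega
      have h2 : (1 / 4 : ℝ) ^ T0.card ≤
          prob (fun ω : Fin (k * Nat.size w) → V → Fin M => Hit A (noise ω)) := by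
        calc (1 / 4 : ℝ) ^ T0.card
            ≤ (prob (fun b : Fin (k * Nat.size w) → Fin M => ∃ l, (b l : ℕ) = 0)) ^ T0.card :=
              pow_le_pow_left₀ (by norm_num) (column_ge hM hR3) _
          _ = prob (fun ω : Fin (k * Nat.size w) → V → Fin M => T0 ⊆ noise ω) :=
              (prob_subset_noise_eq hM T0).symm
          _ ≤ _ := prob_mono fun ω h => ⟨T0, hT0, h⟩
      refine (h1.trans ?_).trans h2
      obtain ⟨n, hn⟩ : ∃ n, T0.card = n + 1 := ⟨T0.card - 1, by omega⟩
      rw [hn, Nat.add_sub_cancel, pow_succ]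
      have h3 : (1 / 8 : ℝ) ^ n ≤ (1 / 4) ^ n := pow_le_pow_left₀ (by norm_num) (by norm_num) n
      have h4 : (0 : ℝ) ≤ (1 / 4 : ℝ) ^ n := by positivity
      linarith

/-- The distributional monotone bound for one block. -/
theorem dist_bound {v k M m q : ℕ} (hv : 1 ≤ v) (hM : 1 ≤ M) (hk1 : 1 ≤ k)
    (hR3 : M ≤ 3 * (k * Nat.size (2 * v))) (hq : q.Prime) (hMq : 128 * M ≤ q) (hmq : m ≤ q)
    (hk : (m * q + 1) ^ (2 * v) * 8 ^ v ≤ 2 ^ k)
    {l : List (Finset (Fin m × Fin q) → Prop)} (hl : MProg (Fin m × Fin q) l)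
    {g : Finset (Fin m × Fin q) → Prop} (hg : g ∈ l) :
    prob (fun a : Fin (2 * v) → Fin q => g (graph (2 * v) m q a)) ≤
      prob (fun ω : Fin (k * Nat.size (2 * v)) → (Fin m × Fin q) → Fin M => g (noise ω)) +
        l.length * (2 * (1 / 8 : ℝ) ^ v) := by
  classical
  have hMne : NeZero M := ⟨by omega⟩
  have hδ1 : ((1 / 2 : ℝ)) ^ k < 1 := pow_lt_one₀ (by norm_num) (by norm_num) (by omega)
  have hδ0 : (0 : ℝ) ≤ (1 / 2 : ℝ) ^ k := by positivity
  have hηY : (0 : ℝ) ≤ (1 / 8 : ℝ) ^ v / 7 := by positivity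
  have h8 : (8 : ℝ) ^ v * (1 / 8 : ℝ) ^ v = 1 := by
    rw [← mul_pow]
    norm_num
  have hcardV : (Fintype.card (Fin m × Fin q) : ℝ) = m * q := by simp
  have hηU : ((Fintype.card (Fin m × Fin q) : ℝ) + 1) ^ (2 * v) * (1 / 2) ^ k ≤ (1 / 8 : ℝ) ^ v := by
    rw [hcardV]
    have h1 : ((m : ℝ) * q + 1) ^ (2 * v) * 8 ^ v ≤ 2 ^ k := by exact_mod_cast hk
    have h2 : (2 : ℝ) ^ k * (1 / 2 : ℝ) ^ k = 1 := by
      rw [← mul_pow]
      norm_num
    have h3 : (0 : ℝ) < (1 / 2 : ℝ) ^ k * (1 / 8 : ℝ) ^ v := by positivity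
    calc ((m : ℝ) * q + 1) ^ (2 * v) * (1 / 2) ^ k
        = (((m : ℝ) * q + 1) ^ (2 * v) * 8 ^ v) * ((1 / 2 : ℝ) ^ k * (1 / 8 : ℝ) ^ v) := by
          rw [show (((m : ℝ) * q + 1) ^ (2 * v) * 8 ^ v) * ((1 / 2 : ℝ) ^ k * (1 / 8 : ℝ) ^ v) =
            ((m : ℝ) * q + 1) ^ (2 * v) * (1 / 2 : ℝ) ^ k * (8 ^ v * (1 / 8 : ℝ) ^ v) by ring, h8,
            mul_one]
      _ ≤ 2 ^ k * ((1 / 2 : ℝ) ^ k * (1 / 8 : ℝ) ^ v) := mul_le_mul_of_nonneg_right h1 h3.le
      _ = (1 / 8 : ℝ) ^ v := by rw [← mul_assoc, h2, one_mul]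
  have hprob : ∀ T : Finset (Fin m × Fin q), T.card ≤ 2 * v →
      prob (fun a : Fin (2 * v) → Fin q => T ⊆ graph (2 * v) m q a) ≤ (1 / q : ℝ) ^ T.card :=
    fun T hT => graph_prob hq hmq T hT
  obtain ⟨EY, EU, hEY, hEU, hmain⟩ := approx (w := 2 * v) (v := v) rfl hv
    (noise : (Fin (k * Nat.size (2 * v)) → (Fin m × Fin q) → Fin M) → Finset (Fin m × Fin q))
    (graph (2 * v) m q) hδ0 hδ1 hηY
    (show (0 : ℝ) ≤ ((Fintype.card (Fin m × Fin q) : ℝ) + 1) ^ (2 * v) * (1 / 2) ^ k by positivity)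
    (fun B hB => exists_closed (2 * v) _ hδ0 B hB)
    (fun A hA => tail_le hM hMq _ hprob hA v) hl
  obtain ⟨A, hA, hAY, hAU⟩ := hmain _ hg
  have h1 : prob (fun a : Fin (2 * v) → Fin q => g (graph (2 * v) m q a)) ≤
      prob (fun a : Fin (2 * v) → Fin q => Hit A (graph (2 * v) m q a)) + prob EY := by
    refine le_trans (prob_mono ?_) (prob_or_le _ _)
    intro a ha
    by_cases hE : EY a
    · exact Or.inr hE
    · exact Or.inl (hAY a ha hE)
  have h2 : prob (fun ω : Fin (k * Nat.size (2 * v)) → (Fin m × Fin q) → Fin M =>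
      Hit A (noise ω)) ≤
      prob (fun ω : Fin (k * Nat.size (2 * v)) → (Fin m × Fin q) → Fin M => g (noise ω)) +
        prob EU := by
    refine le_trans (prob_mono ?_) (prob_or_le _ _)
    intro ω hω
    by_cases hE : EU ω
    · exact Or.inr hE
    · exact Or.inl (hAU ω hω hE)
  have h3 := closed_compare hM hR3 hMq (graph (2 * v) m q) hprob hA
  have hlen : (0 : ℝ) ≤ l.length := by positivity
  have h4 : (l.length : ℝ) * (2 * ((1 / 8 : ℝ) ^ v / 7)) + l.length *
      (((Fintype.card (Fin m × Fin q) : ℝ) + 1) ^ (2 * v) * (1 / 2) ^ k) ≤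
      l.length * (2 * (1 / 8 : ℝ) ^ v) := by
    rw [← mul_add]
    apply mul_le_mul_of_nonneg_left _ hlen
    have : (0 : ℝ) ≤ (1 / 8 : ℝ) ^ v := by positivity
    linarith
  linarith

end Pool.Agent.Lib_MP_22d2c8_rsf
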