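import Mathlib

/-!
# PARAMSD: the parameters of the distributional bound
-/

namespace Pool.Agent.Lib_MP_22d2c8_rsf

theorem paramsD_pow (l : ℕ) (hl : 1 ≤ l) : 242688 * l ^ 2 ≤ 2 ^ (18 * l) := by
  induction l, hl using Nat.le_induction with
  | base => norm_num
  | succ n hn ih =>
    have h1 : (n + 1) ^ 2 ≤ 4 * n ^ 2 := by nlinarith
    calc 242688 * (n + 1) ^ 2 ≤ 242688 * (4 * n ^ 2) := Nat.mul_le_mul_left _ h1
      _ = 4 * (242688 * n ^ 2) := by ring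
      _ ≤ 4 * 2 ^ (18 * n) := Nat.mul_le_mul_left _ ih
      _ ≤ 2 ^ 18 * 2 ^ (18 * n) := Nat.mul_le_mul_right _ (by norm_num)
      _ = 2 ^ (18 * (n + 1)) := by rw [← pow_add]; congr 1; ring

theorem exists_paramsD (v : ℕ) (hv : 1 ≤ v) :
    ∃ k M m q : ℕ, 1 ≤ k ∧ 1 ≤ M ∧ M = 2 * (k * Nat.size (2 * (v + 1))) ∧ q.Prime ∧
      128 * M ≤ q ∧ 2 * (v + 1) ≤ m ∧ m ≤ q ∧
      (m * q + 1) ^ (2 * (v + 1)) * 8 ^ (v + 1) ≤ 2 ^ k ∧
      4 ^ (v + 1) * q ^ (2 * (v + 1)) ≤ 2 ^ m ∧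
      m * q ≤ 2 ^ 25 * v ^ 2 * (Nat.log 2 v + 1) ^ 3 := by
  set l := Nat.log 2 v + 1 with hl
  have hl1 : 1 ≤ l := by omega
  have hvl : v < 2 ^ l := Nat.lt_pow_succ_log_self (by norm_num) v
  set b := 19 * l with hb
  set k := (v + 1) * (4 * b + 3) with hk
  set σ := Nat.size (2 * (v + 1)) with hσ
  have hσ1 : 1 ≤ σ := by
    rw [hσ]
    have : 0 < Nat.size (2 * (v + 1)) := Nat.size_pos.mpr (by omega)
    omega
  have hσ2 : σ ≤ 3 * l := by
    have h1 : σ ≤ l + 2 := by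
      rw [hσ, Nat.size_le]
      have : 2 ^ (l + 2) = 4 * 2 ^ l := by rw [pow_add]; ring
      omega
    omega
  have hk1 : 1 ≤ k := by
    rw [hk]
    exact Nat.mul_pos (by omega) (by omega)
  have hk2 : k ≤ 158 * (v * l) := by
    calc k = (v + 1) * (4 * b + 3) := hk
      _ ≤ (2 * v) * (79 * l) := by
          apply Nat.mul_le_mul
          · omega
          · omega
      _ = 158 * (v * l) := by ring
  set M := 2 * (k * σ) with hM
  have hM1 : 1 ≤ M := by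
    have : 1 ≤ k * σ := Nat.mul_pos hk1 hσ1
    omega
  have hMk : 2 * k ≤ M := by
    have : k * 1 ≤ k * σ := Nat.mul_le_mul_left _ hσ1
    omega
  obtain ⟨q, hq, h1, h2⟩ := Nat.exists_prime_lt_and_le_two_mul (128 * M) (by omega)
  have hqle : q ≤ 242688 * (v * l ^ 2) := by
    calc q ≤ 2 * (128 * M) := h2
      _ = 512 * (k * σ) := by rw [hM]; ring
      _ ≤ 512 * ((158 * (v * l)) * (3 * l)) := by gcongr
      _ = 242688 * (v * l ^ 2) := by ring
  have hqb : q < 2 ^ b := by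
    calc q ≤ 242688 * (v * l ^ 2) := hqle
      _ = v * (242688 * l ^ 2) := by ring
      _ ≤ v * 2 ^ (18 * l) := Nat.mul_le_mul_left _ (paramsD_pow l hl1)
      _ < 2 ^ l * 2 ^ (18 * l) := by
          apply Nat.mul_lt_mul_of_pos_right hvl (by positivity)
      _ = 2 ^ b := by rw [← pow_add, hb]; congr 1; ring
  set m := 2 * (v + 1) * (b + 1) with hm
  have hmq : m ≤ q := by
    have h3 : (v + 1) * (4 * b + 3) = 4 * ((v + 1) * b) + 3 * (v + 1) := by ring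
    have h4 : 2 * (v + 1) * (b + 1) = 2 * ((v + 1) * b) + 2 * (v + 1) := by ring
    have h5 : m ≤ k := by
      rw [hm, hk, h3, h4]
      omega
    omega
  have hmq2 : m * q + 1 ≤ 2 ^ (2 * b) := by
    calc m * q + 1 ≤ q * q + 1 := by
          have := Nat.mul_le_mul_right q hmq
          omega
      _ ≤ (q + 1) * (q + 1) := by nlinarith
      _ ≤ 2 ^ b * 2 ^ b := Nat.mul_le_mul hqb hqb
      _ = 2 ^ (2 * b) := by rw [← pow_add]; congr 1; ring
  refine ⟨k, M, m, q, hk1, hM1, rfl, hq, h1.le, ?_, hmq, ?_, ?_, ?_⟩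
  · have : 2 * (v + 1) * 1 ≤ 2 * (v + 1) * (b + 1) := Nat.mul_le_mul_left _ (by omega)
    omega
  · calc (m * q + 1) ^ (2 * (v + 1)) * 8 ^ (v + 1)
        ≤ (2 ^ (2 * b)) ^ (2 * (v + 1)) * 8 ^ (v + 1) :=
          Nat.mul_le_mul_right _ (Nat.pow_le_pow_left hmq2 _)
      _ = 2 ^ k := by
          rw [show (8 : ℕ) = 2 ^ 3 by norm_num, ← pow_mul, ← pow_mul, ← pow_add, hk]
          congr 1
          ring
  · calc 4 ^ (v + 1) * q ^ (2 * (v + 1)) ≤ 4 ^ (v + 1) * (2 ^ b) ^ (2 * (v + 1)) :=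
          Nat.mul_le_mul_left _ (Nat.pow_le_pow_left hqb.le _)
      _ = 2 ^ m := by
          rw [show (4 : ℕ) = 2 ^ 2 by norm_num, ← pow_mul, ← pow_mul, ← pow_add, hm]
          congr 1
          ring
  · have hm2 : m ≤ 80 * (v * l) := by
      calc m = 2 * (v + 1) * (b + 1) := hm
        _ ≤ 2 * (2 * v) * (20 * l) := by
            apply Nat.mul_le_mul
            · omega
            · omega
        _ = 80 * (v * l) := by ring
    calc m * q ≤ (80 * (v * l)) * (242688 * (v * l ^ 2)) := Nat.mul_le_mul hm2 hqle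
      _ = 19415040 * (v ^ 2 * l ^ 3) := by ring
      _ ≤ 2 ^ 25 * (v ^ 2 * l ^ 3) := Nat.mul_le_mul_right _ (by norm_num)
      _ = 2 ^ 25 * v ^ 2 * l ^ 3 := by ring

end Pool.Agent.Lib_MP_22d2c8_rsf
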