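import Pool.Agent.Lib_MP_22d2c8_rsf.Final
import Pool.Agent.Lib_MP_22d2c8_rsf.Dist
import Pool.Agent.Lib_MP_22d2c8_rsf.Avg
import Pool.Agent.Lib_MP_22d2c8_rsf.ParamsD

/-!
# The average-case bound: assembly
-/

namespace Pool.Agent.Lib_MP_22d2c8_rsf

open Finset
open Pool.Agent.Lib_MP_22d2c8_gen (Circuit Disj cfgB)

/-- The distributional monotone bound for one block, for circuits. -/
theorem dist_circuit {v k M m q s : ℕ} (hv : 1 ≤ v) (hM : 1 ≤ M) (hk1 : 1 ≤ k)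
    (hR3 : M ≤ 3 * (k * Nat.size (2 * v))) (hq : q.Prime) (hMq : 128 * M ≤ q) (hmq : m ≤ q)
    (hk : (m * q + 1) ^ (2 * v) * 8 ^ v ≤ 2 ^ k)
    (C : Circuit (m * q) s) (hC : C.IsMonotone) :
    prob (fun a : Fin (2 * v) → Fin q => Accepts C
      (fun i => decide ((finProdFinEquiv (m := m) (n := q)).symm i ∈ graph (2 * v) m q a))) ≤
      prob (fun ω : Fin (k * Nat.size (2 * v)) → (Fin m × Fin q) → Fin M => Accepts C
        (fun i => decide ((finProdFinEquiv (m := m) (n := q)).symm i ∈ noise ω))) +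
        ((m * q + s + 1) ^ 2 : ℕ) * (2 * (1 / 8 : ℝ) ^ v) := by
  classical
  set f : (Fin (m * q) → Bool) → Bool := fun x => decide (Accepts C x) with hf
  have hCf : C.Computes f := by
    intro x
    obtain ⟨a, ha⟩ := Pool.Agent.Lib_MP_22d2c8_gen.exists_run C x
    refine ⟨a, ha, ?_⟩
    simp only [hf]
    cases h : a C.out with
    | true => exact (decide_eq_true ((accepts_iff C ha).mpr h)).symm
    | false =>
      refine (decide_eq_false fun h' => ?_).symm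
      rw [accepts_iff C ha, h] at h'
      exact absurd h' (by simp)
  obtain ⟨l, hl, hl0, hlen⟩ := exists_prog C hC f hCf (finProdFinEquiv (m := m) (n := q)).symm
  have h1 := dist_bound hv hM hk1 hR3 hq hMq hmq hk hl hl0
  simp only [hf, decide_eq_true_eq] at h1
  refine h1.trans ?_
  have h2 : (l.length : ℝ) ≤ ((m * q + s + 1) ^ 2 : ℕ) := by exact_mod_cast hlen
  have h3 : (0 : ℝ) ≤ 2 * (1 / 8 : ℝ) ^ v := by positivity
  have h4 := mul_le_mul_of_nonneg_right h2 h3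
  linarith

theorem prob_coord {B : ℕ} {Ω : Type} [Fintype Ω] [Nonempty Ω] (b : Fin B) (p : Ω → Prop) :
    prob (fun ω : Fin B → Ω => p (ω b)) = prob p := by
  classical
  rw [prob_eq_sum, prob_eq_sum]
  have hcO : (0 : ℝ) < (Fintype.card Ω : ℝ) := by exact_mod_cast Fintype.card_pos
  have hcF : (0 : ℝ) < (Fintype.card (Fin B → Ω) : ℝ) := by exact_mod_cast Fintype.card_pos
  have hr := resample b (fun ω : Fin B → Ω => if p (ω b) then (1 : ℝ) else 0)
  simp only [Function.update_self] at hr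
  rw [Finset.sum_const, Finset.card_univ, nsmul_eq_mul] at hr
  rw [div_eq_div_iff hcF.ne' hcO.ne']
  linarith

theorem prob_mid {A Ω ΩY : Type} [Fintype A] [Nonempty A] [Fintype Ω] [Fintype ΩY] [Nonempty ΩY]
    (p : Ω → Prop) : prob (fun x : A × (Ω × ΩY) => p x.2.1) = prob p := by
  have h1 : prob (fun x : A × (Ω × ΩY) => p x.2.1) =
      prob (fun x : A × (Ω × ΩY) => True ∧ p x.2.1) := prob_congr fun x => by simp
  rw [h1, prob_prod_and (fun _ : A => True) (fun x : Ω × ΩY => p x.1)]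
  have h2 : prob (fun x : Ω × ΩY => p x.1) = prob (fun x : Ω × ΩY => p x.1 ∧ True) :=
    prob_congr fun x => by simp
  rw [h2, prob_prod_and p (fun _ : ΩY => True)]
  rw [prob_true (Ω := A) (fun _ => trivial), prob_true (Ω := ΩY) (fun _ => trivial)]
  ring

/-- **The average-case bound.** -/
theorem avg_bound {n v : ℕ} (hv : 1 ≤ v)
    (hn : 2 ^ 28 * v ^ 2 * (Nat.log 2 v + 1) ^ 3 ≤ n) (hnv : n ≤ 2 ^ v) :
    ∃ (Ω : Type) (_ : Fintype Ω) (_ : Nonempty Ω) (X Y : Ω → Fin n → Bool),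
      (∀ ω, polyFun (X ω) = true) ∧
      prob (fun ω => polyFun (Y ω) = true) ≤ (1 / 2 : ℝ) ^ v ∧
      ∀ (s T : ℕ) (C : Circuit n s), n + s ≤ 2 ^ v → C.EntryChangesLE T →
        prob (fun ω => Accepts C (X ω)) ≤ prob (fun ω => Accepts C (Y ω)) +
          2 ^ 29 * (T : ℝ) * v ^ 2 * (Nat.log 2 v + 1 : ℕ) ^ 3 / n + (1 / 2 : ℝ) ^ v := by
  classical
  obtain ⟨k, M, m, q, hk1, hM, hMk, hq, hMq, hwm, hmq, hk, hm, hmqle⟩ := exists_paramsD v hv
  have hq1 : 1 ≤ q := hq.one_lt.le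
  have hm4 : 4 ≤ m := by omega
  have hm1 : 1 ≤ m := by omega
  have hmq1 : 1 ≤ m * q := Nat.mul_pos hm1 hq1
  have hMne : NeZero M := ⟨by omega⟩
  have hqne : NeZero q := ⟨hq.ne_zero⟩
  have h8 : 8 * (m * q) ≤ n := by
    have : 8 * (2 ^ 25 * v ^ 2 * (Nat.log 2 v + 1) ^ 3) =
        2 ^ 28 * v ^ 2 * (Nat.log 2 v + 1) ^ 3 := by ring
    omega
  have hqm : 4 * q ≤ m * q := Nat.mul_le_mul_right _ hm4
  have hbigq : 128 ≤ q := by omega
  have hn1 : 4096 ≤ n := by omega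
  have hmqn : m * q < n / 4 := by omega
  have hqn : q < n / 4 := by omega
  have hmn : m < n / 4 := lt_of_le_of_lt hmq hqn
  set B := (n / 4) / (m * q) with hB
  have hBpos : 0 < B := Nat.div_pos (by omega) hmq1
  have hBmq : B * (m * q) ≤ n / 4 := Nat.div_mul_le_self _ _
  have hBlow : n ≤ 16 * (B * (m * q)) := by
    have h1 : n / 4 < (B + 1) * (m * q) := by
      rw [hB]
      exact (Nat.div_lt_iff_lt_mul hmq1).mp (Nat.lt_succ_self _)
    have h2 : (B + 1) * (m * q) = B * (m * q) + m * q := by ring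
    omega
  have hBn : B ≤ n := by
    have : B * 1 ≤ B * (m * q) := Nat.mul_le_mul_left _ hmq1
    omega
  have : Nonempty (Fin B) := ⟨⟨0, hBpos⟩⟩
  obtain ⟨z0, φ, hφ, hz, hf⟩ := exists_embedding (n := n) (w := 2 * (v + 1)) (m := m) (q := q)
    (B := B) (by omega) (by omega) hm1 hmn hq1 hqn hBmq
  let ΩU := Fin (k * Nat.size (2 * (v + 1))) → (Fin m × Fin q) → Fin M
  let ΩY := Fin (2 * (v + 1)) → Fin q
  have : Nonempty ΩU := ⟨fun _ _ => ⟨0, hM⟩⟩
  have : Nonempty ΩY := ⟨fun _ => ⟨0, hq1⟩⟩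
  let U : ΩU → Fin (m * q) → Bool :=
    fun ω i => decide ((finProdFinEquiv (m := m) (n := q)).symm i ∈ noise ω)
  let Y : ΩY → Fin (m * q) → Bool :=
    fun a i => decide ((finProdFinEquiv (m := m) (n := q)).symm i ∈ graph (2 * (v + 1)) m q a)
  have hblockY : ∀ a, block (2 * (v + 1)) m q (Y a) = true := by
    intro a
    unfold block
    rw [decide_eq_true_iff]
    refine ⟨a, fun p hp => ?_⟩
    show decide _ = true
    rw [decide_eq_true_iff, Equiv.symm_apply_apply]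
    exact hp
  have hblockU : prob (fun ω : ΩU => block (2 * (v + 1)) m q (U ω) = true) ≤
      (1 / 4 : ℝ) ^ (v + 1) := by
    have h1 : prob (fun ω : ΩU => block (2 * (v + 1)) m q (U ω) = true) ≤
        prob (fun ω : ΩU => ∃ a ∈ (Finset.univ : Finset ΩY),
          graph (2 * (v + 1)) m q a ⊆ noise ω) := by
      refine prob_mono fun ω hω => ?_
      unfold block at hω
      rw [decide_eq_true_iff] at hω
      obtain ⟨a, ha⟩ := hω
      refine ⟨a, Finset.mem_univ _, fun p hp => ?_⟩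
      have h2 := ha p hp
      have h3 : decide ((finProdFinEquiv (m := m) (n := q)).symm (finProdFinEquiv p) ∈ noise ω)
          = true := h2
      rw [decide_eq_true_iff, Equiv.symm_apply_apply] at h3
      exact h3
    refine h1.trans ((prob_exists_le _ _).trans ?_)
    have hMpos : (0 : ℝ) < M := by exact_mod_cast hM
    have hRM : ((k * Nat.size (2 * (v + 1)) : ℕ) : ℝ) / M ≤ 1 / 2 := by
      rw [div_le_div_iff₀ hMpos (by norm_num)]
      have : ((2 * (k * Nat.size (2 * (v + 1))) : ℕ) : ℝ) ≤ M := by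
        rw [← hMk]
      push_cast at this ⊢
      linarith
    have h2 : ∀ a : ΩY, prob (fun ω : ΩU => graph (2 * (v + 1)) m q a ⊆ noise ω) ≤
        (1 / 2 : ℝ) ^ m := by
      intro a
      refine (prob_subset_noise hM _).trans ?_
      rw [graph_card hq1]
      exact pow_le_pow_left₀ (by positivity) hRM m
    refine (Finset.sum_le_sum fun a _ => h2 a).trans ?_
    rw [Finset.sum_const, Finset.card_univ, nsmul_eq_mul]
    have h3 : (Fintype.card ΩY : ℝ) = (q : ℝ) ^ (2 * (v + 1)) := by simp [ΩY]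
    rw [h3]
    have h4 : (4 : ℝ) ^ (v + 1) * (q : ℝ) ^ (2 * (v + 1)) ≤ 2 ^ m := by exact_mod_cast hm
    have h5 : (2 : ℝ) ^ m * (1 / 2 : ℝ) ^ m = 1 := by
      rw [← mul_pow]
      norm_num
    have h6 : (0 : ℝ) < (1 / 2 : ℝ) ^ m := by positivity
    have h7 : (4 : ℝ) ^ (v + 1) * (1 / 4 : ℝ) ^ (v + 1) = 1 := by
      rw [← mul_pow]
      norm_num
    have h9 : (0 : ℝ) < (1 / 4 : ℝ) ^ (v + 1) := by positivity
    calc (q : ℝ) ^ (2 * (v + 1)) * (1 / 2 : ℝ) ^ m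
        = ((4 : ℝ) ^ (v + 1) * (q : ℝ) ^ (2 * (v + 1))) *
          ((1 / 4 : ℝ) ^ (v + 1) * (1 / 2 : ℝ) ^ m) := by
          rw [show ((4 : ℝ) ^ (v + 1) * (q : ℝ) ^ (2 * (v + 1))) *
            ((1 / 4 : ℝ) ^ (v + 1) * (1 / 2 : ℝ) ^ m) =
            ((4 : ℝ) ^ (v + 1) * (1 / 4 : ℝ) ^ (v + 1)) *
              ((q : ℝ) ^ (2 * (v + 1)) * (1 / 2 : ℝ) ^ m) by ring, h7, one_mul]
      _ ≤ 2 ^ m * ((1 / 4 : ℝ) ^ (v + 1) * (1 / 2 : ℝ) ^ m) :=
          mul_le_mul_of_nonneg_right h4 (by positivity)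
      _ = (1 / 4 : ℝ) ^ (v + 1) := by
          rw [show (2 : ℝ) ^ m * ((1 / 4 : ℝ) ^ (v + 1) * (1 / 2 : ℝ) ^ m) =
            (2 ^ m * (1 / 2 : ℝ) ^ m) * (1 / 4 : ℝ) ^ (v + 1) by ring, h5, one_mul]
  refine ⟨Fin B × ((Fin B → ΩU) × ΩY), inferInstance, inferInstance,
    fun p => cfgB z0 φ (Function.update (fill U p.1 p.2.1) p.1 (Y p.2.2)),
    fun p => cfgB z0 φ (fill U ((p.1 : ℕ) + 1) p.2.1), ?_, ?_, ?_⟩
  · rintro ⟨i, ω, a⟩
    refine (hf _).mpr ⟨i, ?_⟩
    simp only [Function.update_self]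
    exact hblockY a
  · -- the negative inputs
    have h1 : prob (fun p : Fin B × ((Fin B → ΩU) × ΩY) =>
        polyFun (cfgB z0 φ (fill U ((p.1 : ℕ) + 1) p.2.1)) = true) ≤
        prob (fun p : Fin B × ((Fin B → ΩU) × ΩY) =>
          ∃ b ∈ (Finset.univ : Finset (Fin B)),
            block (2 * (v + 1)) m q (U (p.2.1 b)) = true) := by
      refine prob_mono fun p hp => ?_
      obtain ⟨b, hb⟩ := (hf _).mp hp
      refine ⟨b, Finset.mem_univ _, ?_⟩
      unfold fill at hb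
      by_cases hlt : (b : ℕ) < (p.1 : ℕ) + 1
      · rw [if_pos hlt] at hb
        exact hb
      · rw [if_neg hlt, block_zero hm1 hq1] at hb
        exact absurd hb (by simp)
    refine h1.trans ((prob_exists_le _ _).trans ?_)
    have h2 : ∀ b : Fin B, prob (fun p : Fin B × ((Fin B → ΩU) × ΩY) =>
        block (2 * (v + 1)) m q (U (p.2.1 b)) = true) ≤ (1 / 4 : ℝ) ^ (v + 1) := by
      intro b
      rw [prob_mid (fun ω : Fin B → ΩU => block (2 * (v + 1)) m q (U (ω b)) = true),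
        prob_coord b (fun u : ΩU => block (2 * (v + 1)) m q (U u) = true)]
      exact hblockU
    refine (Finset.sum_le_sum fun b _ => h2 b).trans ?_
    rw [Finset.sum_const, Finset.card_univ, Fintype.card_fin, nsmul_eq_mul]
    have h3 : (B : ℝ) ≤ 2 ^ v := by exact_mod_cast hBn.trans hnv
    have h4 : (2 : ℝ) ^ v * (1 / 4 : ℝ) ^ (v + 1) = (1 / 2 : ℝ) ^ v * (1 / 4) := by
      rw [pow_succ, ← mul_assoc, ← mul_pow]
      norm_num
    calc (B : ℝ) * (1 / 4 : ℝ) ^ (v + 1) ≤ 2 ^ v * (1 / 4 : ℝ) ^ (v + 1) :=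
          mul_le_mul_of_nonneg_right h3 (by positivity)
      _ = (1 / 2 : ℝ) ^ v * (1 / 4) := h4
      _ ≤ (1 / 2 : ℝ) ^ v := by
          have : (0 : ℝ) < (1 / 2 : ℝ) ^ v := by positivity
          linarith
  · intro s T C hs hT
    have hmono : ∀ C' : Circuit (m * q) (s + 3), C'.IsMonotone →
        prob (fun a => Accepts C' (Y a)) ≤ prob (fun u => Accepts C' (U u)) +
          (1 / 2 : ℝ) ^ v := by
      intro C' hC'
      have h1 := dist_circuit (v := v + 1) (by omega) hM hk1 (by omega) hq hMq hmq hk C' hC'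
      refine h1.trans ?_
      have h2 : (m * q + (s + 3) + 1) ^ 2 ≤ (2 ^ v) ^ 2 := by
        apply Nat.pow_le_pow_left
        omega
      have h3 : (((m * q + (s + 3) + 1) ^ 2 : ℕ) : ℝ) ≤ (2 ^ v) ^ 2 := by exact_mod_cast h2
      have h4 : ((2 : ℝ) ^ v) ^ 2 * (2 * (1 / 8 : ℝ) ^ (v + 1)) = (1 / 2 : ℝ) ^ v * (1 / 4) := by
        rw [← pow_mul, mul_comm v 2, pow_mul, pow_succ (1 / 8 : ℝ) v]
        have : ((2 : ℝ) ^ 2) ^ v * (2 * ((1 / 8) ^ v * (1 / 8))) =
            (((2 : ℝ) ^ 2) ^ v * (1 / 8) ^ v) * (1 / 4) := by ring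
        rw [this, ← mul_pow]
        norm_num
      have h5 : (0 : ℝ) < (1 / 2 : ℝ) ^ v := by positivity
      have h6 := mul_le_mul_of_nonneg_right h3
        (show (0 : ℝ) ≤ 2 * (1 / 8 : ℝ) ^ (v + 1) by positivity)
      rw [h4] at h6
      linarith
    have h1 := avg_transfer C T hT z0 φ hφ hz U Y ((1 / 2 : ℝ) ^ v) hmono hBpos
    refine h1.trans ?_
    have hnpos : (0 : ℝ) < n := by
      have : 0 < n := by omega
      exact_mod_cast this
    have hBposR : (0 : ℝ) < B := by exact_mod_cast hBpos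
    have h2 : (T : ℝ) / B ≤ 2 ^ 29 * (T : ℝ) * v ^ 2 * (Nat.log 2 v + 1 : ℕ) ^ 3 / n := by
      rw [div_le_div_iff₀ hBposR hnpos]
      have h3 : n ≤ 2 ^ 29 * v ^ 2 * (Nat.log 2 v + 1) ^ 3 * B := by
        calc n ≤ 16 * (B * (m * q)) := hBlow
          _ ≤ 16 * (B * (2 ^ 25 * v ^ 2 * (Nat.log 2 v + 1) ^ 3)) := by gcongr
          _ = 2 ^ 29 * v ^ 2 * (Nat.log 2 v + 1) ^ 3 * B := by ring
      have h4 : (n : ℝ) ≤ 2 ^ 29 * v ^ 2 * (Nat.log 2 v + 1 : ℕ) ^ 3 * B := by exact_mod_cast h3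
      have h5 : (0 : ℝ) ≤ (T : ℝ) := by positivity
      have h6 := mul_le_mul_of_nonneg_left h4 h5
      calc (T : ℝ) * n ≤ (T : ℝ) * (2 ^ 29 * v ^ 2 * (Nat.log 2 v + 1 : ℕ) ^ 3 * B) := h6
        _ = 2 ^ 29 * (T : ℝ) * v ^ 2 * (Nat.log 2 v + 1 : ℕ) ^ 3 * B := by ring
    linarith

theorem prob_bool {Ω : Type} [Fintype Ω] (p : Bool × Ω → Prop) :
    prob p = (prob (fun ω => p (true, ω)) + prob (fun ω => p (false, ω))) / 2 := by
  have h := prob_prod_eq_avg (fun (b : Bool) (ω : Ω) => p (b, ω))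
  have h2 : prob (fun x : Bool × Ω => p (x.1, x.2)) = prob p := prob_congr fun x => by simp
  rw [h2] at h
  rw [h, Fintype.sum_bool, Fintype.card_bool]
  norm_num

/-- **The average-case bound**, in terms of the agreement with `polyFun`. -/
theorem agree_bound {n v : ℕ} (hv : 1 ≤ v)
    (hn : 2 ^ 28 * v ^ 2 * (Nat.log 2 v + 1) ^ 3 ≤ n) (hnv : n ≤ 2 ^ v) :
    ∃ (Ω : Type) (_ : Fintype Ω) (_ : Nonempty Ω) (Z : Ω → Fin n → Bool),
      ∀ (s T : ℕ) (C : Circuit n s), n + s ≤ 2 ^ v → C.EntryChangesLE T →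
        prob (fun ω => Accepts C (Z ω) ↔ polyFun (Z ω) = true) ≤
          1 / 2 + 2 ^ 28 * (T : ℝ) * v ^ 2 * (Nat.log 2 v + 1 : ℕ) ^ 3 / n + (1 / 2 : ℝ) ^ v := by
  classical
  obtain ⟨Ω, hΩ, hne, X, Y, hX, hY, hmain⟩ := avg_bound hv hn hnv
  refine ⟨Bool × Ω, inferInstance, inferInstance, fun p => if p.1 = true then X p.2 else Y p.2, ?_⟩
  intro s T C hs hT
  have h := hmain s T C hs hT
  rw [prob_bool]
  simp only [if_true, Bool.false_eq_true, if_false]
  have h1 : prob (fun ω => Accepts C (X ω) ↔ polyFun (X ω) = true) =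
      prob (fun ω => Accepts C (X ω)) := prob_congr fun ω => by simp [hX ω]
  have h2 : prob (fun ω => Accepts C (Y ω) ↔ polyFun (Y ω) = true) ≤
      prob (fun ω => ¬ Accepts C (Y ω)) + prob (fun ω => polyFun (Y ω) = true) := by
    refine le_trans (prob_mono ?_) (prob_or_le _ _)
    intro ω hω
    by_cases hp : polyFun (Y ω) = true
    · exact Or.inr hp
    · exact Or.inl fun ha => hp (hω.mp ha)
  rw [prob_not] at h2
  rw [h1]
  have h3 : 2 ^ 29 * (T : ℝ) * v ^ 2 * (Nat.log 2 v + 1 : ℕ) ^ 3 / n =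
      2 * (2 ^ 28 * (T : ℝ) * v ^ 2 * (Nat.log 2 v + 1 : ℕ) ^ 3 / n) := by ring
  rw [h3] at h
  linarith

end Pool.Agent.Lib_MP_22d2c8_rsf
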