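import Pool.Agent.Lib_MP_22d2c8_rsf.Defs

/-!
# Counting probabilities: basic facts
-/

namespace Pool.Agent.Lib_MP_22d2c8_rsf

open Finset

section General

variable {Ω Ω' : Type} [Fintype Ω] [Fintype Ω'] {p q : Ω → Prop}

theorem prob_eq (p : Ω → Prop) [DecidablePred p] :
    prob p = ((univ.filter p).card : ℝ) / (Fintype.card Ω : ℝ) := by
  unfold prob
  congr 3
  exact Finset.filter_congr_decidable _ _ _

theorem prob_nonneg (p : Ω → Prop) : 0 ≤ prob p := by
  unfold prob
  positivity

theorem prob_le_one (p : Ω → Prop) : prob p ≤ 1 := by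
  classical
  unfold prob
  rcases Nat.eq_zero_or_pos (Fintype.card Ω) with h | h
  · simp [h]
  · rw [div_le_one (by exact_mod_cast h)]
    exact_mod_cast Finset.card_le_univ _

theorem prob_mono (h : ∀ ω, p ω → q ω) : prob p ≤ prob q := by
  classical
  unfold prob
  apply div_le_div_of_nonneg_right _ (by positivity)
  exact_mod_cast Finset.card_le_card (Finset.monotone_filter_right _ (fun ω _ => h ω))

theorem prob_congr (h : ∀ ω, p ω ↔ q ω) : prob p = prob q :=
  le_antisymm (prob_mono fun ω => (h ω).1) (prob_mono fun ω => (h ω).2)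

theorem prob_true [Nonempty Ω] (h : ∀ ω, p ω) : prob p = 1 := by
  classical
  unfold prob
  rw [Finset.filter_true_of_mem (fun ω _ => h ω), Finset.card_univ, div_self]
  exact_mod_cast Fintype.card_ne_zero

theorem prob_false (h : ∀ ω, ¬ p ω) : prob p = 0 := by
  classical
  unfold prob
  rw [Finset.filter_false_of_mem (fun ω _ => h ω)]
  simp

theorem prob_or_le (p q : Ω → Prop) : prob (fun ω => p ω ∨ q ω) ≤ prob p + prob q := by
  classical
  rw [prob_eq, prob_eq, prob_eq, ← add_div]
  apply div_le_div_of_nonneg_right _ (by positivity)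
  rw [Finset.filter_or]
  exact_mod_cast Finset.card_union_le _ _

theorem prob_exists_le {ι : Type} (S : Finset ι) (p : ι → Ω → Prop) :
    prob (fun ω => ∃ i ∈ S, p i ω) ≤ ∑ i ∈ S, prob (p i) := by
  classical
  induction S using Finset.induction_on with
  | empty => simp [prob_false]
  | insert a S ha ih =>
    rw [Finset.sum_insert ha]
    refine le_trans (prob_mono (q := fun ω => p a ω ∨ ∃ i ∈ S, p i ω) ?_) ?_
    · rintro ω ⟨i, hi, hp⟩
      rcases Finset.mem_insert.mp hi with rfl | hi
      · exact Or.inl hp
      · exact Or.inr ⟨i, hi, hp⟩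
    · exact (prob_or_le _ _).trans (by linarith)

theorem prob_not [Nonempty Ω] (p : Ω → Prop) : prob (fun ω => ¬ p ω) = 1 - prob p := by
  classical
  rw [prob_eq, prob_eq]
  have h := Finset.card_filter_add_card_filter_not (s := (univ : Finset Ω)) p
  have hc : (0 : ℝ) < Fintype.card Ω := by exact_mod_cast Fintype.card_pos
  rw [eq_sub_iff_add_eq, ← add_div, div_eq_one_iff_eq hc.ne']
  rw [Finset.card_univ] at h
  have : (((univ.filter p).card + (univ.filter fun ω => ¬ p ω).card : ℕ) : ℝ) = Fintype.card Ω := by
    exact_mod_cast h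
  push_cast at this
  linarith

/-- Change of variables. -/
theorem prob_equiv (e : Ω ≃ Ω') (p : Ω' → Prop) : prob (fun ω => p (e ω)) = prob p := by
  classical
  unfold prob
  rw [Fintype.card_congr e]
  congr 2
  apply Finset.card_bij (fun ω _ => e ω)
  · intro ω hω
    simpa using hω
  · intro a _ b _ h
    exact e.injective h
  · intro b hb
    exact ⟨e.symm b, by simpa using hb, by simp⟩

/-- The probability of an event in a product is the average over the first coordinate. -/
theorem prob_prod_eq_avg (p : Ω → Ω' → Prop) :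
    prob (fun ω : Ω × Ω' => p ω.1 ω.2) =
      (∑ a, prob (fun b => p a b)) / (Fintype.card Ω : ℝ) := by
  classical
  unfold prob
  rw [Fintype.card_prod]
  have h : (univ.filter (fun ω : Ω × Ω' => p ω.1 ω.2)).card =
      ∑ a, (univ.filter (fun b => p a b)).card := by
    rw [← Finset.univ_product_univ, Finset.card_filter, Finset.sum_product]
    apply Finset.sum_congr rfl
    intro a _
    rw [Finset.card_filter]
  rw [h, ← Finset.sum_div]
  push_cast
  rw [div_div, mul_comm (Fintype.card Ω' : ℝ)]

/-- Independence in a product. -/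
theorem prob_prod_and (p : Ω → Prop) (q : Ω' → Prop) :
    prob (fun ω : Ω × Ω' => p ω.1 ∧ q ω.2) = prob p * prob q := by
  classical
  rw [prob_eq, prob_eq, prob_eq, Fintype.card_prod]
  have h : (univ.filter (fun ω : Ω × Ω' => p ω.1 ∧ q ω.2)).card =
      (univ.filter p).card * (univ.filter q).card := by
    rw [← Finset.card_product]
    congr 1
    ext ω
    simp
  rw [h]
  push_cast
  rw [div_mul_div_comm]

end General

section Noise

variable {V : Type} [Fintype V] {M : ℕ}

theorem mem_sparse {u : V → Fin M} {v : V} : v ∈ sparse u ↔ (u v : ℕ) = 0 := by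
  simp [sparse]

theorem mem_noise {R : ℕ} {ω : Fin R → V → Fin M} {v : V} :
    v ∈ noise ω ↔ ∃ l, (ω l v : ℕ) = 0 := by
  simp [noise]

variable [DecidableEq V]

theorem noise_zero (ω : Fin 0 → V → Fin M) : noise ω = ∅ := by
  ext v
  simp [mem_noise]

theorem noise_append {a b : ℕ} (α : Fin a → V → Fin M) (β : Fin b → V → Fin M) :
    noise (Fin.append α β) = noise α ∪ noise β := by
  ext v
  simp only [mem_noise, Finset.mem_union]
  constructor
  · rintro ⟨l, hl⟩
    revert hl
    refine Fin.addCases (fun i => ?_) (fun i => ?_) l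
    · rw [Fin.append_left]
      exact fun h => Or.inl ⟨i, h⟩
    · rw [Fin.append_right]
      exact fun h => Or.inr ⟨i, h⟩
  · rintro (⟨l, hl⟩ | ⟨l, hl⟩)
    · exact ⟨Fin.castAdd b l, by rw [Fin.append_left]; exact hl⟩
    · exact ⟨Fin.natAdd a l, by rw [Fin.append_right]; exact hl⟩

/-- The noise with `a + b` rounds is the union of two independent noises. -/
theorem prob_noise_add {a b : ℕ} (p : Finset V → Prop) :
    prob (fun ω : Fin (a + b) → V → Fin M => p (noise ω)) =
      prob (fun ω : (Fin a → V → Fin M) × (Fin b → V → Fin M) => p (noise ω.1 ∪ noise ω.2)) := by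
  rw [← prob_equiv (Fin.appendEquiv a b) (fun ω => p (noise ω))]
  apply prob_congr
  intro ω
  have : Fin.appendEquiv a b ω = Fin.append ω.1 ω.2 := rfl
  rw [this, noise_append]

theorem noise_one (u : Fin 1 → V → Fin M) : noise u = sparse (u 0) := by
  ext v
  simp [mem_noise, mem_sparse]

/-- One more round of noise. -/
theorem prob_noise_succ {R : ℕ} (p : Finset V → Prop) :
    prob (fun ω : Fin (R + 1) → V → Fin M => p (noise ω)) =
      (∑ u : V → Fin M, prob (fun ω : Fin R → V → Fin M => p (sparse u ∪ noise ω))) /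
        (Fintype.card (V → Fin M) : ℝ) := by
  rw [← prob_prod_eq_avg (fun (u : V → Fin M) (ω : Fin R → V → Fin M) => p (sparse u ∪ noise ω))]
  rw [← prob_equiv (Fin.consEquiv (fun _ : Fin (R + 1) => V → Fin M)) (fun ω => p (noise ω))]
  apply prob_congr
  intro ω
  have : noise (Fin.consEquiv (fun _ : Fin (R + 1) => V → Fin M) ω) = sparse ω.1 ∪ noise ω.2 := by
    ext v
    simp only [mem_noise, Finset.mem_union, mem_sparse, Fin.consEquiv]
    constructor
    · rintro ⟨l, hl⟩
      revert hl
      refine Fin.cases (fun h => Or.inl (by simpa using h)) (fun i h => Or.inr ⟨i, by simpa using h⟩) l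
    · rintro (h | ⟨l, hl⟩)
      · exact ⟨0, by simpa using h⟩
      · exact ⟨l.succ, by simpa using hl⟩
  rw [this]

end Noise

end Pool.Agent.Lib_MP_22d2c8_rsf
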