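import Pool.Agent.Lib_MP_22d2c8_rsf.Basic

/-!
# CLOSURE: the closure of a family adds a small error

PROOF. First: for every `B` with members of size at most `w` there is a closed `A ⊇ B` with
`prob (Hit A (U ω) ∧ ¬ Hit B (U ω)) ≤ (A \ B).card * δ`. Strong induction on the number of sets of
size at most `w` that are not in `B`. If `B` is closed take `A = B` (the event is empty).
Otherwise there is `K ∉ B` with `K.card ≤ w` and `prob (¬ Hit B (K ∪ U ω)) ≤ δ`. Put
`B' = insert K B` and take `A ⊇ B'` by induction. If `Hit A (U ω)` and `¬ Hit B (U ω)` then either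
`¬ Hit B' (U ω)`, or `Hit B' (U ω)`, and then `K ⊆ U ω`, so `K ∪ U ω = U ω` and
`¬ Hit B (K ∪ U ω)`. So the probability is at most `(A \ B').card * δ + δ = (A \ B).card * δ`
(`K ∈ A`, `K ∉ B`).
Then `(A \ B).card ≤ #{T : T.card ≤ w} ≤ (card V + 1) ^ w`: the map from `Fin w → Option V` to
finsets `f ↦ {v | some v ∈ range f}` is onto the sets of size at most `w`; (or
`∑ i ≤ w, choose (card V) i ≤ (card V + 1) ^ w`).
-/

namespace Pool.Agent.Lib_MP_22d2c8_rsf

open Finset

theorem card_small_sets {V : Type} [Fintype V] [DecidableEq V] (w : ℕ) :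
    ((univ : Finset (Finset V)).filter (fun T => T.card ≤ w)).card ≤
      (Fintype.card V + 1) ^ w := by
  have h1 : ((univ : Finset (Finset V)).filter (fun T => T.card ≤ w)) ⊆
      (univ : Finset (Fin w → Option V)).image
        (fun f => univ.filter (fun v => ∃ i, f i = some v)) := by
    intro T hT
    rw [Finset.mem_filter] at hT
    rw [Finset.mem_image]
    refine ⟨fun i => T.toList[(i : ℕ)]?, Finset.mem_univ _, ?_⟩
    ext v
    rw [Finset.mem_filter, ← Finset.mem_toList (s := T), List.mem_iff_getElem?]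
    constructor
    · rintro ⟨_, i, hi⟩
      exact ⟨i, hi⟩
    · rintro ⟨i, hi⟩
      refine ⟨Finset.mem_univ _, ⟨i, ?_⟩, hi⟩
      have := (List.getElem?_eq_some_iff.mp hi).1
      rw [Finset.length_toList] at this
      omega
  refine (Finset.card_le_card h1).trans (Finset.card_image_le.trans ?_)
  rw [Finset.card_univ, Fintype.card_fun, Fintype.card_option, Fintype.card_fin]

theorem exists_closed_aux {V Ω : Type} [Fintype V] [DecidableEq V] [Fintype Ω] (w : ℕ)
    (U : Ω → Finset V) {δ : ℝ} (hδ : 0 ≤ δ) :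
    ∀ (n : ℕ) (B : Finset (Finset V)), (∀ T ∈ B, T.card ≤ w) →
      (((univ : Finset (Finset V)).filter (fun T => T.card ≤ w)) \ B).card = n →
      ∃ A, Closed w U δ A ∧ B ⊆ A ∧
        prob (fun ω => Hit A (U ω) ∧ ¬ Hit B (U ω)) ≤ ((A \ B).card : ℝ) * δ := by
  intro n
  induction n with
  | zero =>
    intro B hB hn
    refine ⟨B, ⟨hB, ?_⟩, Finset.Subset.refl _, ?_⟩
    · intro K hK _
      rw [Finset.card_eq_zero, Finset.sdiff_eq_empty_iff_subset] at hn
      exact hn (by simpa using hK)
    · rw [prob_false (fun ω h => h.2 h.1)]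
      positivity
  | succ n ih =>
    intro B hB hn
    by_cases hc : Closed w U δ B
    · refine ⟨B, hc, Finset.Subset.refl _, ?_⟩
      rw [prob_false (fun ω h => h.2 h.1)]
      positivity
    · have : ∃ K : Finset V, K.card ≤ w ∧ prob (fun ω => ¬ Hit B (K ∪ U ω)) ≤ δ ∧ K ∉ B := by
        by_contra hcon
        apply hc
        refine ⟨hB, fun K h1 h2 => ?_⟩
        by_contra h3
        exact hcon ⟨K, h1, h2, h3⟩
      obtain ⟨K, hKw, hKp, hKB⟩ := this
      have hKmem : K ∈ ((univ : Finset (Finset V)).filter (fun T => T.card ≤ w)) \ B := by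
        simp [hKw, hKB]
      have hcard : (((univ : Finset (Finset V)).filter (fun T => T.card ≤ w)) \
          insert K B).card = n := by
        have h1 : ((univ : Finset (Finset V)).filter (fun T => T.card ≤ w)) \ insert K B =
            (((univ : Finset (Finset V)).filter (fun T => T.card ≤ w)) \ B).erase K := by
          ext T
          simp only [Finset.mem_sdiff, Finset.mem_insert, Finset.mem_erase]
          tauto
        rw [h1, Finset.card_erase_of_mem hKmem, hn]
        rfl
      obtain ⟨A, hA, hBA, hp⟩ := ih (insert K B) (by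
        intro T hT
        rcases Finset.mem_insert.mp hT with rfl | hT
        · exact hKw
        · exact hB T hT) hcard
      have hKA : K ∈ A := hBA (Finset.mem_insert_self _ _)
      refine ⟨A, hA, (Finset.subset_insert _ _).trans hBA, ?_⟩
      have hcd : ((A \ B).card : ℝ) = ((A \ insert K B).card : ℝ) + 1 := by
        have h1 : A \ insert K B = (A \ B).erase K := by
          ext T
          simp only [Finset.mem_sdiff, Finset.mem_insert, Finset.mem_erase]
          tauto
        have h2 := Finset.card_erase_add_one (s := A \ B) (a := K) (by simp [hKA, hKB])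
        rw [← h1] at h2
        exact_mod_cast h2.symm
      rw [hcd, add_mul, one_mul]
      refine le_trans (prob_mono (q := fun ω => (Hit A (U ω) ∧ ¬ Hit (insert K B) (U ω)) ∨
        ¬ Hit B (K ∪ U ω)) ?_) ((prob_or_le _ _).trans (add_le_add hp hKp))
      rintro ω ⟨hA1, hB1⟩
      by_cases hI : Hit (insert K B) (U ω)
      · right
        obtain ⟨T, hT, hTU⟩ := hI
        rcases Finset.mem_insert.mp hT with rfl | hT
        · rw [Finset.union_eq_right.mpr hTU]
          exact hB1
        · exact absurd ⟨T, hT, hTU⟩ hB1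
      · exact Or.inl ⟨hA1, hI⟩

theorem exists_closed {V Ω : Type} [Fintype V] [DecidableEq V] [Fintype Ω] (w : ℕ)
    (U : Ω → Finset V) {δ : ℝ} (hδ : 0 ≤ δ) (B : Finset (Finset V)) (hB : ∀ T ∈ B, T.card ≤ w) :
    ∃ A, Closed w U δ A ∧ B ⊆ A ∧
      prob (fun ω => Hit A (U ω) ∧ ¬ Hit B (U ω)) ≤ ((Fintype.card V + 1 : ℝ)) ^ w * δ := by
  obtain ⟨A, hA, hBA, hp⟩ := exists_closed_aux w U hδ _ B hB rfl
  refine ⟨A, hA, hBA, hp.trans (mul_le_mul_of_nonneg_right ?_ hδ)⟩
  have h1 : (A \ B).card ≤ (Fintype.card V + 1) ^ w := by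
    refine (Finset.card_le_card ?_).trans (card_small_sets (V := V) w)
    intro T hT
    rw [Finset.mem_sdiff] at hT
    simpa using hA.1 T hT.1
  exact_mod_cast h1

end Pool.Agent.Lib_MP_22d2c8_rsf
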