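import Pool.Agent.Lib_MP_22d2c8_lc.SharingDefs
import Pool.Agent.Lib_MP_22d2c8_gen.Defs

/-!
# The explicit monotone function `polyFun`, monotone programs, random sets

The circuits are those of `Lib_MP_22d2c8_gen` (and/or gates of any fan-in and arbitrary gates).
-/

namespace Pool.Agent.Lib_MP_22d2c8_rsf

open Finset
open Pool.Agent.Lib_MP_22d2c8_lc (bitAt)

open Classical in
/-- The explicit function. The first three quarters of the input select numbers `w`, `m` and `q`
below `n / 4` (by a bit equal to one at the corresponding place); the rest of the input is cut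
into blocks, each of which is an array with `m` rows and `q` columns. The value is one if, for some
selected `w`, `m`, `q`, some block contains the graph of a polynomial `P` with `w` coefficients
modulo `q`, that is, a one in row `j` and column `P(j) mod q` for every `j < m`. -/
noncomputable def polyFun {n : ℕ} (x : Fin n → Bool) : Bool :=
  decide (∃ w m q i : ℕ, 1 ≤ w ∧ w < n / 4 ∧ m < n / 4 ∧ q < n / 4 ∧ bitAt x w = true ∧
    bitAt x (n / 4 + m) = true ∧ bitAt x (2 * (n / 4) + q) = true ∧
    ∃ a : Fin w → Fin q, ∀ j < m,
      bitAt x (3 * (n / 4) + (i * m + j) * q + (∑ l, (a l : ℕ) * j ^ (l : ℕ)) % q) = true)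

/-! ### Monotone programs -/

/-- A monotone straight line program over the variables `V`, as the list of the functions it
computes (a function is a predicate of the set of the variables that are one). -/
inductive MProg (V : Type) : List (Finset V → Prop) → Prop
  | nil : MProg V []
  | const (p : Prop) (l : List (Finset V → Prop)) : MProg V l → MProg V ((fun _ => p) :: l)
  | var (v : V) (l : List (Finset V → Prop)) : MProg V l → MProg V ((fun x => v ∈ x) :: l)
  | and (g h : Finset V → Prop) (l : List (Finset V → Prop)) : MProg V l → g ∈ l → h ∈ l →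
      MProg V ((fun x => g x ∧ h x) :: l)
  | or (g h : Finset V → Prop) (l : List (Finset V → Prop)) : MProg V l → g ∈ l → h ∈ l →
      MProg V ((fun x => g x ∨ h x) :: l)

/-- The predicate is constant or a variable. -/
def Simple {V : Type} (g : Finset V → Prop) : Prop :=
  (∃ p : Prop, ∀ x, g x ↔ p) ∨ ∃ v : V, ∀ x, g x ↔ v ∈ x

/-! ### Counting probabilities -/

open Classical in
/-- The probability of an event in a finite uniform probability space. -/
noncomputable def prob {Ω : Type} [Fintype Ω] (p : Ω → Prop) : ℝ :=
  ((univ.filter p).card : ℝ) / (Fintype.card Ω : ℝ)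

/-- Some member of the family `A` is contained in `x`. -/
def Hit {V : Type} (A : Finset (Finset V)) (x : Finset V) : Prop := ∃ T ∈ A, T ⊆ x

/-- The random set of density `1 / M`. -/
def sparse {V : Type} [Fintype V] {M : ℕ} (u : V → Fin M) : Finset V :=
  univ.filter (fun v => (u v : ℕ) = 0)

/-- The union of `R` random sets of density `1 / M`. -/
def noise {V : Type} [Fintype V] {R M : ℕ} (ω : Fin R → V → Fin M) : Finset V :=
  univ.filter (fun v => ∃ l, (ω l v : ℕ) = 0)

/-- A family of sets of size at most `w` is closed (relative to a random set `U` and `δ`) if it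
contains every set `K` of size at most `w` such that `K ∪ U` contains a member of the family with
probability at least `1 - δ`. -/
def Closed {V Ω : Type} [DecidableEq V] [Fintype Ω] (w : ℕ) (U : Ω → Finset V) (δ : ℝ)
    (A : Finset (Finset V)) : Prop :=
  (∀ T ∈ A, T.card ≤ w) ∧
    ∀ K : Finset V, K.card ≤ w → prob (fun ω => ¬ Hit A (K ∪ U ω)) ≤ δ → K ∈ A

/-- `T` is a minimal member of the family `A`. -/
def IsMin {V : Type} (A : Finset (Finset V)) (T : Finset V) : Prop :=
  T ∈ A ∧ ∀ T' ∈ A, T' ⊆ T → T' = T

open Classical in
/-- The minimal members of size `s` of the family `A`. -/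
noncomputable def layer {V : Type} (A : Finset (Finset V)) (s : ℕ) : Finset (Finset V) :=
  A.filter (fun T => T.card = s ∧ IsMin A T)

/-- The graph of the polynomial with coefficients `a` modulo `q`, in the array with `m` rows and
`q` columns. -/
def graph (w m q : ℕ) (a : Fin w → Fin q) : Finset (Fin m × Fin q) :=
  univ.filter (fun p => (p.2 : ℕ) = (∑ l, (a l : ℕ) * (p.1 : ℕ) ^ (l : ℕ)) % q)

open Classical in
/-- The function of one block: the array with `m` rows and `q` columns (entry `(j, c)` is bit
`c + q * j`) contains the graph of a polynomial with `w` coefficients modulo `q`. -/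
noncomputable def block (w m q : ℕ) (x : Fin (m * q) → Bool) : Bool :=
  decide (∃ a : Fin w → Fin q, ∀ p ∈ graph w m q a, x (finProdFinEquiv p) = true)

end Pool.Agent.Lib_MP_22d2c8_rsf
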