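import Pool.Agent.Lib_MP_22d2c8_rsf.Ampl

/-!
# DEGREE: the minimal members of a closed family are spread out

PROOF. Suppose the statement fails for some `K` with `K.card ≤ s`. Choose a failing `K` with
`K.card` maximal (finitely many finsets; e.g. `Finset.exists_max_image` on the filter of `univ`).
If `K.card = s` then the filtered set has at most one element (`K ⊆ T`, `T.card = s = K.card` force
`T = K`), and `(16 M) ^ 0 = 1`, no failure. So `K.card < s`, put `s' = s - K.card ≥ 1` and
`F = image (fun T => T \ K) ((layer A s).filter (K ⊆ ·))`. The map is injective there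
(`T = (T \ K) ∪ K`), so `F.card` is the number in question, `> (16 M) ^ s'`, in particular `F`
is nonempty. The members of `F` have size `s' ≤ w` (members of `A` have size at most `w`).
`F` is spread in the sense of `hit_amplified`: let `J : Finset V`. If `J` is empty the bound is
trivial. If `J` meets `K` no member of `F` contains `J`. If `J.card > s'` no member of `F`
contains `J`. Otherwise `K ∪ J` has size `K.card + J.card ≤ s` and is larger than `K`, so it does
not fail: `#{T' ∈ F : J ⊆ T'} ≤ #{T ∈ layer A s : K ∪ J ⊆ T} ≤ (16 M) ^ (s' - J.card) =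
(16 M) ^ s' / (16 M) ^ J.card ≤ F.card / (16 M) ^ J.card` (`16 M > 0`).
By `hit_amplified` (with `w`), `prob (¬ Hit F (noise ω)) ≤ (1/2) ^ k`. If `Hit F (noise ω)`, say
`T \ K ⊆ noise ω` with `T ∈ A`, then `T ⊆ K ∪ noise ω`, so `Hit A (K ∪ noise ω)`. Hence
`prob (¬ Hit A (K ∪ noise ω)) ≤ (1/2) ^ k` and `K ∈ A` because `A` is closed and
`K.card ≤ s ≤ w` (some `T` of size `s` is in `A`). But there is a minimal `T ∈ layer A s` with
`K ⊆ T`, `K ≠ T` (sizes), contradiction with minimality.
-/

namespace Pool.Agent.Lib_MP_22d2c8_rsf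

open Finset

theorem layer_degree {V : Type} [Fintype V] [DecidableEq V] {M w k : ℕ} (hM : 1 ≤ M)
    {A : Finset (Finset V)}
    (hA : Closed w (noise : (Fin (k * Nat.size w) → V → Fin M) → Finset V) ((1 / 2) ^ k) A)
    {s : ℕ} (K : Finset V) (hK : K.card ≤ s) :
    (((layer A s).filter (fun T => K ⊆ T)).card : ℝ) ≤ (16 * M : ℝ) ^ (s - K.card) := by
  classical
  by_contra hcon
  push Not at hcon
  obtain ⟨K, hKf, hmax⟩ := Finset.exists_max_image ((univ : Finset (Finset V)).filter (fun K : Finset V =>
    K.card ≤ s ∧ (16 * M : ℝ) ^ (s - K.card) < (((layer A s).filter (fun T => K ⊆ T)).card : ℝ)))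
    Finset.card ⟨K, by rw [Finset.mem_filter]; exact ⟨Finset.mem_univ _, hK, hcon⟩⟩
  rw [Finset.mem_filter] at hKf
  obtain ⟨-, hKs, hbig⟩ := hKf
  have hMr : (1 : ℝ) ≤ 16 * M := by
    have : (1 : ℝ) ≤ M := by exact_mod_cast hM
    linarith
  have hMp : (0 : ℝ) < 16 * M := by linarith
  have hmem : ∀ T, T ∈ (layer A s).filter (fun T => K ⊆ T) ↔ (T ∈ A ∧ T.card = s ∧ IsMin A T) ∧ K ⊆ T := by
    intro T
    rw [Finset.mem_filter, layer, Finset.mem_filter]
  have hFKne : ((layer A s).filter (fun T => K ⊆ T)).Nonempty := by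
    rw [← Finset.card_pos]
    have h1 : (0 : ℝ) < (((layer A s).filter (fun T => K ⊆ T)).card : ℝ) :=
      lt_of_le_of_lt (by positivity) hbig
    exact_mod_cast h1
  obtain ⟨T0, hT0⟩ := hFKne
  have hT0' := (hmem T0).mp hT0
  rcases Nat.lt_or_ge K.card s with hlt | hge
  swap
  · have hsub : (layer A s).filter (fun T => K ⊆ T) ⊆ {K} := by
      intro T hT
      have hT' := (hmem T).mp hT
      rw [Finset.mem_singleton]
      exact (Finset.eq_of_subset_of_card_le hT'.2 (by omega)).symm
    have h1 : ((layer A s).filter (fun T => K ⊆ T)).card ≤ 1 := by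
      simpa using Finset.card_le_card hsub
    have h2 : s - K.card = 0 := by omega
    rw [h2, pow_zero] at hbig
    have h3 : (((layer A s).filter (fun T => K ⊆ T)).card : ℝ) ≤ 1 := by exact_mod_cast h1
    linarith
  · let F : Finset (Finset V) := ((layer A s).filter (fun T => K ⊆ T)).image (fun T => T \ K)
    have hinj : Set.InjOn (fun T : Finset V => T \ K) ((layer A s).filter (fun T => K ⊆ T)) := by
      intro T hT T' hT' h
      have h1 := ((hmem T).mp hT).2
      have h2 := ((hmem T').mp hT').2
      have h' : T \ K = T' \ K := h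
      calc T = T \ K ∪ K := (Finset.sdiff_union_of_subset h1).symm
        _ = T' \ K ∪ K := by rw [h']
        _ = T' := Finset.sdiff_union_of_subset h2
    have hFcard : F.card = ((layer A s).filter (fun T => K ⊆ T)).card := Finset.card_image_of_injOn hinj
    have hFmem : ∀ T1, T1 ∈ F ↔ ∃ T, ((T ∈ A ∧ T.card = s ∧ IsMin A T) ∧ K ⊆ T) ∧ T \ K = T1 := by
      intro T1
      simp only [F, Finset.mem_image]
      constructor
      · rintro ⟨T, hT, rfl⟩
        exact ⟨T, (hmem T).mp hT, rfl⟩
      · rintro ⟨T, hT, rfl⟩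
        exact ⟨T, (hmem T).mpr hT, rfl⟩
    have hFne : F.Nonempty := ⟨T0 \ K, (hFmem _).mpr ⟨T0, hT0', rfl⟩⟩
    have hw : ∀ T ∈ F, T.card ≤ w := by
      intro T1 hT1
      obtain ⟨T, hT, rfl⟩ := (hFmem T1).mp hT1
      exact (Finset.card_le_card Finset.sdiff_subset).trans (hA.1 T hT.1.1)
    have hsp : ∀ J : Finset V,
        ((F.filter (fun T => J ⊆ T)).card : ℝ) ≤ F.card / (16 * M : ℝ) ^ J.card := by
      intro J
      have hMJ : (0 : ℝ) < (16 * M : ℝ) ^ J.card := by positivity
      rcases Finset.eq_empty_or_nonempty (F.filter (fun T => J ⊆ T)) with hem | ⟨T1, hT1⟩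
      · rw [hem]
        simp only [Finset.card_empty, Nat.cast_zero]
        positivity
      · rcases Finset.eq_empty_or_nonempty J with rfl | hJne
        · simp
        · rw [Finset.mem_filter] at hT1
          obtain ⟨T, hT, rfl⟩ := (hFmem T1).mp hT1.1
          have hJT : J ⊆ T \ K := hT1.2
          have hdisj : Disjoint K J := by
            rw [Finset.disjoint_left]
            intro x hxK hxJ
            exact (Finset.mem_sdiff.mp (hJT hxJ)).2 hxK
          have hcard : (K ∪ J).card = K.card + J.card := Finset.card_union_of_disjoint hdisj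
          have hKJ : K ∪ J ⊆ T := Finset.union_subset hT.2 (hJT.trans Finset.sdiff_subset)
          have hle : (K ∪ J).card ≤ s := by
            have := Finset.card_le_card hKJ
            omega
          have hJpos : 0 < J.card := Finset.card_pos.mpr hJne
          have hnf : (((layer A s).filter (fun T => K ∪ J ⊆ T)).card : ℝ) ≤ (16 * M : ℝ) ^ (s - (K ∪ J).card) := by
            by_contra hc
            push Not at hc
            have := hmax (K ∪ J) (by
              rw [Finset.mem_filter]
              exact ⟨Finset.mem_univ _, hle, hc⟩)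
            omega
          have hsub : F.filter (fun T => J ⊆ T) ⊆
              ((layer A s).filter (fun T => K ∪ J ⊆ T)).image (fun T => T \ K) := by
            intro S hS
            rw [Finset.mem_filter] at hS
            obtain ⟨T', hT', rfl⟩ := (hFmem S).mp hS.1
            rw [Finset.mem_image]
            refine ⟨T', ?_, rfl⟩
            rw [Finset.mem_filter, layer, Finset.mem_filter]
            exact ⟨hT'.1, Finset.union_subset hT'.2 (hS.2.trans Finset.sdiff_subset)⟩
          have h1 : (F.filter (fun T => J ⊆ T)).card ≤ ((layer A s).filter (fun T => K ∪ J ⊆ T)).card :=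
            (Finset.card_le_card hsub).trans Finset.card_image_le
          have h2 : (16 * M : ℝ) ^ (s - (K ∪ J).card) * (16 * M : ℝ) ^ J.card = (16 * M : ℝ) ^ (s - K.card) := by
            rw [← pow_add]
            congr 1
            omega
          rw [le_div_iff₀ hMJ]
          calc ((F.filter (fun T => J ⊆ T)).card : ℝ) * (16 * M : ℝ) ^ J.card
              ≤ (((layer A s).filter (fun T => K ∪ J ⊆ T)).card : ℝ) * (16 * M : ℝ) ^ J.card := by
                apply mul_le_mul_of_nonneg_right _ hMJ.le
                exact_mod_cast h1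
            _ ≤ (16 * M : ℝ) ^ (s - (K ∪ J).card) * (16 * M : ℝ) ^ J.card :=
                mul_le_mul_of_nonneg_right hnf hMJ.le
            _ = (16 * M : ℝ) ^ (s - K.card) := h2
            _ ≤ F.card := by
                rw [hFcard]
                exact hbig.le
    have hhit := hit_amplified (w := w) hM F hFne hw hsp k
    have hclosed : prob (fun ω : Fin (k * Nat.size w) → V → Fin M => ¬ Hit A (K ∪ noise ω)) ≤ (1 / 2) ^ k := by
      refine le_trans (prob_mono ?_) hhit
      intro ω h1 h2
      apply h1
      obtain ⟨S, hS, hSsub⟩ := h2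
      obtain ⟨T, hT, rfl⟩ := (hFmem S).mp hS
      refine ⟨T, hT.1.1, ?_⟩
      intro x hx
      rw [Finset.mem_union]
      by_cases hxK : x ∈ K
      · exact Or.inl hxK
      · exact Or.inr (hSsub (Finset.mem_sdiff.mpr ⟨hx, hxK⟩))
    have hsw : s ≤ w := by
      have := hA.1 T0 hT0'.1.1
      omega
    have hKA : K ∈ A := hA.2 K (by omega) hclosed
    have hKT := hT0'.1.2.2.2 K hKA hT0'.2
    rw [hKT] at hlt
    omega

/-- The case `K = ∅`. -/
theorem layer_card {V : Type} [Fintype V] [DecidableEq V] {M w k : ℕ} (hM : 1 ≤ M)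
    {A : Finset (Finset V)}
    (hA : Closed w (noise : (Fin (k * Nat.size w) → V → Fin M) → Finset V) ((1 / 2) ^ k) A)
    (s : ℕ) : ((layer A s).card : ℝ) ≤ (16 * M : ℝ) ^ s := by
  have h := layer_degree hM hA (s := s) ∅ (by simp)
  simpa using h

end Pool.Agent.Lib_MP_22d2c8_rsf
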