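import Pool.Agent.Lib_MP_22d2c8_rsf.Basic
import Pool.Agent.Lib_MP_22d2c8_gen.Chain

/-!
# EMBED: the blocks of `polyFun`, and monotonicity

PROOF of `polyFun_mono`: every bit condition in the definition is monotone.

PROOF of `exists_embedding`. Let `h = n / 4`. The background `z0 p` is true iff `p = w`, `p = h + m` or
`p = 2 h + q`. The block map is `φ b i = 3 h + b * (m * q) + i` (`i : Fin (m * q)`); it is `< n` because
`B * (m * q) ≤ h` and `4 h ≤ n`; injective by division with remainder. `finProdFinEquiv (j, c)` has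
the value `c + q * j` (`finProdFinEquiv_apply_val`), so `φ b (finProdFinEquiv (j, c))` is the
position `3 h + (b m + j) q + c` of `polyFun`.
(←) If `block w m q (x b)` with coefficients `a` then take `w`, `m`, `q`, `i = b`, `a`; the header bits
are one, and for `j < m` the point `(j, P(j) mod q)` is in the graph.
(→) Let `w' m' q' i' a'` be as in `polyFun`. All ones of the input below `3 h` are at `w`, `h + m`,
`2 h + q` (the blocks are at positions `≥ 3 h`), and these lie in `[0,h)`, `[h,2h)`, `[2h,3h)`; so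
`w' = w`, `m' = m`, `q' = q`. For every `j < m` the bit at `3 h + (i' m + j) q + c_j`, `c_j < q`, is
one; this position is `≥ 3 h`, so it is `φ b_j i_j` with `x b_j i_j = true`; with
`i_j = c + q * j'`: `(i' m + j) q + c_j = (b_j m + j') q + c`, so `c = c_j` and `i' m + j = b_j m + j'`,
hence `j = j'`, `i' = b_j`. As `m ≥ 1`, `i' < B` and `block w m q (x i')` holds with `a'`.
-/

namespace Pool.Agent.Lib_MP_22d2c8_rsf

open Finset
open Pool.Agent.Lib_MP_22d2c8_gen (Disj)
open Pool.Agent.Lib_MP_22d2c8_lc (bitAt)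

theorem polyFun_mono {n : ℕ} (x y : Fin n → Bool) (h : ∀ i, x i = true → y i = true)
    (hx : polyFun x = true) : polyFun y = true := by
  classical
  unfold polyFun at hx ⊢
  rw [decide_eq_true_eq] at hx ⊢
  have hb : ∀ i, bitAt x i = true → bitAt y i = true := by
    intro i hi
    unfold bitAt at hi ⊢
    split_ifs at hi ⊢ with hlt
    exact h _ hi
  obtain ⟨w, m, q, i, h1, h2, h3, h4, h5, h6, h7, a, ha⟩ := hx
  exact ⟨w, m, q, i, h1, h2, h3, h4, hb _ h5, hb _ h6, hb _ h7, a, fun j hj => hb _ (ha j hj)⟩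

/-- Uniqueness in division with remainder. -/
theorem divmod_inj {q a b c d : ℕ} (hc : c < q) (hd : d < q) (h : a * q + c = b * q + d) :
    a = b ∧ c = d := by
  have hq : 0 < q := by omega
  have h1 : (a * q + c) / q = a := by
    rw [Nat.add_comm, Nat.add_mul_div_right _ _ hq, Nat.div_eq_of_lt hc, Nat.zero_add]
  have h2 : (b * q + d) / q = b := by
    rw [Nat.add_comm, Nat.add_mul_div_right _ _ hq, Nat.div_eq_of_lt hd, Nat.zero_add]
  have hab : a = b := by rw [← h1, ← h2, h]
  subst hab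
  exact ⟨rfl, by omega⟩

/-- The position of entry `(j, c)` of block `b`. -/
theorem pos_eq (b m j q c : ℕ) : b * (m * q) + (c + q * j) = (b * m + j) * q + c := by
  ring

theorem exists_embedding {n w m q B : ℕ} (hw : 1 ≤ w) (hwn : w < n / 4) (hm : 1 ≤ m)
    (hmn : m < n / 4) (hq : 1 ≤ q) (hqn : q < n / 4) (hB : B * (m * q) ≤ n / 4) :
    ∃ (z0 : Fin n → Bool) (φ : Fin B → Fin (m * q) → Fin n), Disj φ ∧
      (∀ b i, z0 (φ b i) = false) ∧
      ∀ x : Fin B → Fin (m * q) → Bool,
        polyFun (fun j => z0 j || decide (∃ b i, x b i = true ∧ φ b i = j)) = true ↔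
          ∃ b, block w m q (x b) = true := by
  classical
  have h4 : 4 * (n / 4) ≤ n := Nat.mul_div_le n 4
  have hφlt : ∀ (b : Fin B) (i : Fin (m * q)), 3 * (n / 4) + ((b : ℕ) * (m * q) + i) < n := by
    intro b i
    have h1 : ((b : ℕ) + 1) * (m * q) ≤ B * (m * q) := Nat.mul_le_mul_right _ b.2
    have h2 := i.2
    rw [Nat.add_mul, one_mul] at h1
    omega
  refine ⟨fun p => decide ((p : ℕ) = w ∨ (p : ℕ) = n / 4 + m ∨ (p : ℕ) = 2 * (n / 4) + q),
    fun b i => ⟨3 * (n / 4) + ((b : ℕ) * (m * q) + i), hφlt b i⟩, ?_, ?_, ?_⟩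
  · intro b b' i i' h
    have h1 := congrArg Fin.val h
    simp only at h1
    obtain ⟨h2, h3⟩ := divmod_inj i.2 i'.2 (Nat.add_left_cancel h1)
    exact ⟨Fin.ext h2, Fin.ext h3⟩
  · intro b i
    refine decide_eq_false ?_
    simp only
    omega
  · intro x
    have hbit : ∀ p, bitAt (fun j : Fin n =>
        decide ((j : ℕ) = w ∨ (j : ℕ) = n / 4 + m ∨ (j : ℕ) = 2 * (n / 4) + q) ||
          decide (∃ (b : Fin B) (i : Fin (m * q)), x b i = true ∧
            (⟨3 * (n / 4) + ((b : ℕ) * (m * q) + i), hφlt b i⟩ : Fin n) = j)) p = true ↔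
        (p = w ∨ p = n / 4 + m ∨ p = 2 * (n / 4) + q) ∨
          ∃ (b : Fin B) (i : Fin (m * q)), x b i = true ∧
            3 * (n / 4) + ((b : ℕ) * (m * q) + i) = p := by
      intro p
      unfold bitAt
      split_ifs with hp
      · simp only [Bool.or_eq_true, decide_eq_true_eq, Fin.ext_iff]
      · simp only [false_iff, not_or, not_exists, not_and]
        refine ⟨⟨by omega, by omega, by omega⟩, ?_⟩
        intro b i _ hbi
        exact hp (hbi ▸ hφlt b i)
    unfold polyFun block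
    rw [decide_eq_true_eq]
    simp only [hbit, decide_eq_true_eq]
    constructor
    · rintro ⟨w', m', q', i', -, hw', hm', hq', e1, e2, e3, a, ha⟩
      have ew : w' = w := by
        rcases e1 with h | ⟨b, i, -, h⟩ <;> omega
      have em : m' = m := by
        rcases e2 with h | ⟨b, i, -, h⟩ <;> omega
      have eq : q' = q := by
        rcases e3 with h | ⟨b, i, -, h⟩ <;> omega
      subst ew em eq
      have key : ∀ j < m', ∃ b : Fin B, (b : ℕ) = i' ∧ ∀ (hj : j < m'),
          x b (finProdFinEquiv (⟨j, hj⟩, ⟨(∑ l, (a l : ℕ) * j ^ (l : ℕ)) % q',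
            Nat.mod_lt _ hq⟩)) = true := by
        intro j hj
        have hc : (∑ l, (a l : ℕ) * j ^ (l : ℕ)) % q' < q' := Nat.mod_lt _ hq
        rcases ha j hj with h | ⟨b, r, hr, h⟩
        · exfalso
          omega
        · obtain ⟨⟨j', c⟩, rfl⟩ := finProdFinEquiv.surjective r
          rw [finProdFinEquiv_apply_val, pos_eq] at h
          simp only at h
          obtain ⟨h1, h2⟩ := divmod_inj (a := (b : ℕ) * m' + j') (b := i' * m' + j) (q := q')
            c.2 hc (by omega)
          obtain ⟨h3, h5⟩ := divmod_inj j'.2 hj h1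
          refine ⟨b, h3, fun _ => ?_⟩
          have e : ((j', c) : Fin m' × Fin q') = (⟨j, hj⟩,
              ⟨(∑ l, (a l : ℕ) * j ^ (l : ℕ)) % q', hc⟩) :=
            Prod.ext (Fin.ext h5) (Fin.ext h2)
          rw [← e]
          exact hr
      obtain ⟨b, hb, -⟩ := key 0 hm
      refine ⟨b, a, ?_⟩
      rintro ⟨j, c⟩ hp
      have hp2 : (c : ℕ) = (∑ l, (a l : ℕ) * (j : ℕ) ^ (l : ℕ)) % q' :=
        (Finset.mem_filter.mp hp).2
      obtain ⟨b2, hb2, hx2⟩ := key j j.2
      have hbb : b2 = b := Fin.ext (hb2.trans hb.symm)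
      subst hbb
      have e : ((j, c) : Fin m' × Fin q') = (⟨j, j.2⟩,
          ⟨(∑ l, (a l : ℕ) * (j : ℕ) ^ (l : ℕ)) % q', Nat.mod_lt _ hq⟩) :=
        Prod.ext rfl (Fin.ext hp2)
      rw [e]
      exact hx2 j.2
    · rintro ⟨b, a, hba⟩
      refine ⟨w, m, q, b, hw, hwn, hmn, hqn, Or.inl (Or.inl rfl), Or.inl (Or.inr (Or.inl rfl)),
        Or.inl (Or.inr (Or.inr rfl)), a, ?_⟩
      intro j hj
      have hc : (∑ l, (a l : ℕ) * j ^ (l : ℕ)) % q < q := Nat.mod_lt _ hq
      refine Or.inr ⟨b, finProdFinEquiv (⟨j, hj⟩, ⟨_, hc⟩),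
        hba (⟨j, hj⟩, ⟨_, hc⟩) (by simp [graph]), ?_⟩
      rw [finProdFinEquiv_apply_val, pos_eq]
      simp only
      omega

end Pool.Agent.Lib_MP_22d2c8_rsf
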