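import Mathlib

/-!
# PARAMS: the choice of the parameters (pure arithmetic and Bertrand's postulate)

PROOF. Let `λ = Nat.log 2 v + 1` (so `v < 2 ^ λ`), `v' = v + 1 ≤ 2 v`, `b = 19 λ`, `k = v' (4 b + 3)`,
`σ = Nat.size (2 v') ≤ λ + 2 ≤ 3 λ` (`2 v' ≤ 4 v < 2 ^ (λ + 2)`, `Nat.size_le`), `M = 2 k σ`. By Bertrand
(`Nat.exists_prime_lt_and_le_two_mul`) there is a prime `q` with `128 M < q ≤ 256 M`. Then
`q ≤ 512 k σ ≤ 512 * 2 v * (76 λ + 3) * 3 λ ≤ 512 * 2 * 79 * 3 * v λ ^ 2 = 242688 v λ^2`, and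
`242688 v λ ^ 2 < 2 ^ (19 λ)`: `v < 2 ^ λ` and `242688 λ ^ 2 ≤ 2 ^ (18 λ)` (`2 ^ 18 = 262144`;
induction on `λ`), so `q < 2 ^ b`. Let `m = 2 v' b + 2`; `m ≤ q` clearly (`q > 128 M ≥ 256 k`).
`hm`: `4 q ^ (2 v') ≤ 4 * 2 ^ (2 v' b) = 2 ^ m`. `hk`: `m q + 1 ≤ q ^ 2 + 1 ≤ 2 ^ (2 b)` (as
`q < 2 ^ b`), so `(m q + 1) ^ (2 v') * 8 ^ v' ≤ 2 ^ (4 b v' + 3 v') = 2 ^ k`.
`m ≤ 4 v * 19 λ + 2 ≤ 78 v λ`, so `m q ≤ 78 * 242688 v ^ 2 λ ^ 3 = 18929664 v ^ 2 λ ^ 3 ≤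
2 ^ 25 v ^ 2 λ ^ 3`.
-/

namespace Pool.Agent.Lib_MP_22d2c8_rsf

theorem par_pow (l : ℕ) (hl : 1 ≤ l) : 242688 * l ^ 2 ≤ 2 ^ (18 * l) := by
  induction l, hl using Nat.le_induction with
  | base => norm_num
  | succ n hn ih =>
    have e1 : 2 ^ (18 * (n + 1)) = 262144 * 2 ^ (18 * n) := by
      rw [show 18 * (n + 1) = 18 * n + 18 by ring, pow_add]
      norm_num
      ring
    rw [e1]
    nlinarith [sq_nonneg (n : ℤ)]

theorem exists_params (v : ℕ) (hv : 1 ≤ v) :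
    ∃ k M m q : ℕ, 1 ≤ M ∧ 2 * (k * Nat.size (2 * (v + 1))) ≤ M ∧ q.Prime ∧ 128 * M ≤ q ∧
      2 * (v + 1) ≤ m ∧ m ≤ q ∧ (m * q + 1) ^ (2 * (v + 1)) * 8 ^ (v + 1) ≤ 2 ^ k ∧
      4 * q ^ (2 * (v + 1)) ≤ 2 ^ m ∧ m * q ≤ 2 ^ 25 * v ^ 2 * (Nat.log 2 v + 1) ^ 3 := by
  set l := Nat.log 2 v + 1 with hl
  have hl1 : 1 ≤ l := by omega
  have hvl : v < 2 ^ l := Nat.lt_pow_succ_log_self one_lt_two v
  set b := 19 * l with hb
  set k := (v + 1) * (4 * b + 3) with hk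
  set sg := Nat.size (2 * (v + 1)) with hsg
  have hsg1 : 1 ≤ sg := by
    rw [hsg, Nat.one_le_iff_ne_zero, ← Nat.pos_iff_ne_zero, Nat.size_pos]
    omega
  have hsg2 : sg ≤ l + 2 := by
    rw [hsg, Nat.size_le]
    have : 2 ^ (l + 2) = 4 * 2 ^ l := by rw [pow_add]; ring
    rw [this]
    omega
  have hsg3 : sg ≤ 3 * l := by omega
  set M := 2 * (k * sg) with hM
  have hk1 : 1 ≤ k := by
    rw [hk]
    exact Nat.mul_pos (by omega) (by omega)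
  have hM1 : 1 ≤ M := by
    have := Nat.mul_pos hk1 hsg1
    omega
  obtain ⟨q, hqp, hq1, hq2⟩ := Nat.exists_prime_lt_and_le_two_mul (128 * M) (by omega)
  have hkb : k ≤ 2 * v * (79 * l) := by
    rw [hk]
    exact Nat.mul_le_mul (by omega) (by omega)
  have hMb : M ≤ 2 * (2 * v * (79 * l) * (3 * l)) := by
    rw [hM]
    exact Nat.mul_le_mul le_rfl (Nat.mul_le_mul hkb hsg3)
  have hqb : q ≤ 242688 * v * l ^ 2 := by
    calc q ≤ 2 * (128 * M) := hq2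
      _ ≤ 2 * (128 * (2 * (2 * v * (79 * l) * (3 * l)))) := by omega
      _ = 242688 * v * l ^ 2 := by ring
  have hqlt : q < 2 ^ b := by
    calc q ≤ 242688 * v * l ^ 2 := hqb
      _ = v * (242688 * l ^ 2) := by ring
      _ ≤ v * 2 ^ (18 * l) := Nat.mul_le_mul le_rfl (par_pow l hl1)
      _ < 2 ^ l * 2 ^ (18 * l) := Nat.mul_lt_mul_of_pos_right hvl (by positivity)
      _ = 2 ^ b := by rw [← pow_add, hb]; ring_nf
  set m := 2 * (v + 1) * b + 2 with hm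
  have hb1 : 1 ≤ b := by omega
  have hmk : m ≤ k + 2 := by
    rw [hm, hk]
    have : 2 * (v + 1) * b ≤ (v + 1) * (4 * b + 3) := by nlinarith
    omega
  have hMk : k ≤ M := by
    rw [hM]
    nlinarith
  have hmq : m ≤ q := by omega
  have hq0 : 1 ≤ q := by omega
  refine ⟨k, M, m, q, hM1, le_rfl, hqp, by omega, ?_, hmq, ?_, ?_, ?_⟩
  · rw [hm]
    nlinarith
  · have h1 : m * q + 1 ≤ 2 ^ (2 * b) := by
      have h2 : m * q ≤ (2 ^ b - 1) * (2 ^ b - 1) := Nat.mul_le_mul (by omega) (by omega)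
      have h3 : 2 ^ (2 * b) = 2 ^ b * 2 ^ b := by rw [two_mul, pow_add]
      have h4 : 1 ≤ 2 ^ b := Nat.one_le_two_pow
      obtain ⟨c, hc⟩ : ∃ c, 2 ^ b = c + 1 := ⟨2 ^ b - 1, by omega⟩
      rw [h3]
      rw [hc] at h2 ⊢
      have : (c + 1 - 1) = c := by omega
      rw [this] at h2
      nlinarith
    have h8 : (8 : ℕ) ^ (v + 1) = 2 ^ (3 * (v + 1)) := by
      rw [pow_mul]; norm_num
    calc (m * q + 1) ^ (2 * (v + 1)) * 8 ^ (v + 1) ≤ (2 ^ (2 * b)) ^ (2 * (v + 1)) * 8 ^ (v + 1) :=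
          Nat.mul_le_mul (Nat.pow_le_pow_left h1 _) le_rfl
      _ = 2 ^ k := by
          rw [h8, ← pow_mul, ← pow_add, hk]
          congr 1
          ring
  · have h1 : q ^ (2 * (v + 1)) ≤ 2 ^ (2 * (v + 1) * b) := by
      calc q ^ (2 * (v + 1)) ≤ (2 ^ b) ^ (2 * (v + 1)) := Nat.pow_le_pow_left hqlt.le _
        _ = 2 ^ (2 * (v + 1) * b) := by rw [← pow_mul]; ring_nf
    have h2 : 2 ^ m = 4 * 2 ^ (2 * (v + 1) * b) := by
      rw [hm, pow_add]; ring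
    rw [h2]
    exact Nat.mul_le_mul le_rfl h1
  · have h1 : m ≤ 78 * v * l := by
      rw [hm, hb]
      have : 1 ≤ v * l := Nat.mul_pos hv hl1
      nlinarith
    calc m * q ≤ (78 * v * l) * (242688 * v * l ^ 2) := Nat.mul_le_mul h1 hqb
      _ = 18929664 * (v ^ 2 * l ^ 3) := by ring
      _ ≤ 2 ^ 25 * (v ^ 2 * l ^ 3) := Nat.mul_le_mul (by norm_num) le_rfl
      _ = 2 ^ 25 * v ^ 2 * l ^ 3 := by ring

end Pool.Agent.Lib_MP_22d2c8_rsf
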