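import Pool.Agent.Lib_MP_22d2c8_rsf.MonoBound
import Pool.Agent.Lib_MP_22d2c8_rsf.Prog
import Pool.Agent.Lib_MP_22d2c8_rsf.Embed
import Pool.Agent.Lib_MP_22d2c8_rsf.Params
import Pool.Agent.Lib_MP_22d2c8_gen.TransferB

/-!
# The final assembly
-/

namespace Pool.Agent.Lib_MP_22d2c8_rsf

open Finset
open Pool.Agent.Lib_MP_22d2c8_gen (Circuit Disj transferB cfgB)

/-- The monotone bound for one block, for circuits. -/
theorem mono_circuit_bound {v k M m q s : ℕ} (hv : 1 ≤ v) (hM : 1 ≤ M)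
    (hR : 2 * (k * Nat.size (2 * v)) ≤ M) (hq : q.Prime) (hMq : 128 * M ≤ q) (hmq : m ≤ q)
    (hk : (m * q + 1) ^ (2 * v) * 8 ^ v ≤ 2 ^ k) (hm : 4 * q ^ (2 * v) ≤ 2 ^ m)
    (C : Circuit (m * q) s) (hC : C.IsMonotone) (hf : C.Computes (block (2 * v) m q)) :
    8 ^ v < 4 * (m * q + s + 1) ^ 2 := by
  classical
  obtain ⟨l, hl, hl0, hlen⟩ := exists_prog C hC _ hf (finProdFinEquiv (m := m) (n := q)).symm
  have hb := mono_bound hv hM hR hq hMq hmq hk hm hl (by
    convert hl0 using 2 with x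
    unfold block
    rw [decide_eq_true_iff]
    constructor
    · rintro ⟨a, ha⟩
      refine ⟨a, fun p hp => ?_⟩
      rw [decide_eq_true_iff, Equiv.symm_apply_apply]
      exact ha hp
    · rintro ⟨a, ha⟩
      refine ⟨a, fun p hp => ?_⟩
      have := ha p hp
      rwa [decide_eq_true_iff, Equiv.symm_apply_apply] at this)
  exact lt_of_lt_of_le hb (Nat.mul_le_mul_left _ hlen)

theorem block_zero {w m q : ℕ} (hm : 1 ≤ m) (hq : 1 ≤ q) :
    block w m q (fun _ => false) = false := by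
  classical
  unfold block
  rw [decide_eq_false_iff_not]
  rintro ⟨a, ha⟩
  have hc := graph_card (w := w) (m := m) hq a
  have hne : (graph w m q a).Nonempty := by
    rw [← Finset.card_pos, hc]
    exact hm
  obtain ⟨p, hp⟩ := hne
  exact absurd (ha p hp) (by simp)

/-- The bound: circuits for `polyFun` with few changes of the entry vertices are large. -/
theorem size_bound {n s T v : ℕ} (C : Circuit n s) (hC : C.Computes polyFun)
    (hT : C.EntryChangesLE T) (hv : 1 ≤ v)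
    (hn : 2 ^ 28 * (T + 1) * v ^ 2 * (Nat.log 2 v + 1) ^ 3 ≤ n) : 2 ^ v < n + s := by
  by_contra hcon
  push Not at hcon
  obtain ⟨k, M, m, q, hM, hR, hq, hMq, hwm, hmq, hk, hm, hmq'⟩ := exists_params v hv
  have hq1 : 1 ≤ q := hq.one_lt.le
  have hm1 : 1 ≤ m := by omega
  have hbig : 4 * ((T + 1) * (m * q)) + 4 ≤ n := by
    have h1 : 4 * ((T + 1) * (m * q)) ≤
        4 * ((T + 1) * (2 ^ 25 * v ^ 2 * (Nat.log 2 v + 1) ^ 3)) := by
      gcongr
    have h2 : 4 * ((T + 1) * (2 ^ 25 * v ^ 2 * (Nat.log 2 v + 1) ^ 3)) * 2 =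
        2 ^ 28 * (T + 1) * v ^ 2 * (Nat.log 2 v + 1) ^ 3 := by ring
    have h3 : 4 ≤ 4 * ((T + 1) * (2 ^ 25 * v ^ 2 * (Nat.log 2 v + 1) ^ 3)) := by
      have : 0 < (T + 1) * (2 ^ 25 * v ^ 2 * (Nat.log 2 v + 1) ^ 3) := by positivity
      omega
    omega
  have hTmq : (T + 1) * (m * q) < n / 4 := by omega
  have hmqn : m * q < n / 4 := by
    have : 1 * (m * q) ≤ (T + 1) * (m * q) := Nat.mul_le_mul_right _ (by omega)
    omega
  have hqn : q < n / 4 := by
    have : 1 * q ≤ m * q := Nat.mul_le_mul_right _ hm1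
    omega
  have hmn : m < n / 4 := lt_of_le_of_lt hmq hqn
  obtain ⟨z0, φ, hφ, hz, hf⟩ := exists_embedding (n := n) (w := 2 * (v + 1)) (m := m) (q := q)
    (B := T + 1) (by omega) (by omega) hm1 hmn hq1 hqn (by omega)
  obtain ⟨C', hC'm, hC'⟩ := transferB C polyFun hC T hT (Nat.lt_succ_self T) z0 φ hφ hz
    (block (2 * (v + 1)) m q) (block_zero hm1 hq1) hf
  have hb := mono_circuit_bound (v := v + 1) (by omega) hM hR hq hMq hmq hk hm C' hC'm hC'
  have h5 : (m * q + (s + 3) + 1) ^ 2 ≤ (2 ^ v) ^ 2 := by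
    apply Nat.pow_le_pow_left
    omega
  have h6 : 4 * (2 ^ v) ^ 2 = 2 ^ (2 * v + 2) := by
    rw [← pow_mul, pow_add]
    ring
  have h7 : (8 : ℕ) ^ (v + 1) = 2 ^ (3 * (v + 1)) := by
    rw [pow_mul]
    norm_num
  have h8 : 2 ^ (2 * v + 2) ≤ 2 ^ (3 * (v + 1)) :=
    Nat.pow_le_pow_right (by norm_num) (by omega)
  omega

end Pool.Agent.Lib_MP_22d2c8_rsf
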