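import Pool.Agent.Lib_MP_22d2c8_rsf.Basic

/-!
# FRAG: minimum fragments, one round

Helper facts on `prob` are in Basic.lean (not needed here: this file is pure counting).

PROOF. Write `W u = sparse u`. For `u` and `i ∈ S` the set of `j ∈ S` with `H j ⊆ H i ∪ W u` is
nonempty (it contains `i`); choose `j = j(u,i)` in it with `(H j \ W u).card` minimal and put
`frag u i = H j \ W u`. Then `frag u i ⊆ H i` and `H j ⊆ frag u i ∪ W u`. (For `i ∉ S` put
`frag u i = ∅`.)

Counting. Fix `t`. Consider the pairs `(u, i)`, `i ∈ S`, with `T := frag u i` of size `t`. Let `u'`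
be `u` changed to the value `0 : Fin M` on `T`; then `W u' = W u ∪ T`. There is some `j ∈ S` with
`H j ⊆ W u'` (the `j(u,i)` above); let `J u'` be one such index, chosen depending on `u'` only.
Claim `T ⊆ H (J u')`: put `j = J u'`; `H j ⊆ W u ∪ T ⊆ W u ∪ H i`, so by minimality
`(H j \ W u).card ≥ T.card`, and `H j \ W u ⊆ T`, so `H j \ W u = T`, hence `T ⊆ H j`.
So the pair `(u, i)` is determined by `u'`, by `T ∈ powersetCard t (H (J u'))` (at most
`w.choose t` choices), by the values of `u` on `T` (at most `M ^ t` choices) and by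
`i ∈ S.filter (T ⊆ H i)` (at most `D / r ^ t` choices). Total at most
`card (V → Fin M) * w.choose t * M ^ t * (D / r ^ t)`.

Convenient form of the count: the number of pairs is at most
`∑ u', ∑ T ∈ powersetCard t (H (J u')), M ^ t * #{i ∈ S : T ⊆ H i}`, because for a given `T` and
`u'` the functions `u` with `u = u'` off `T` are at most `M ^ t` many: they inject into
`Fintype.piFinset (fun v => if v ∈ T then univ else {u' v})`. (Or: swap the sums, for each fixed
`(T, i)` the number of `u` with `frag u i = T` is at most `M ^ t` times the number of `u'` that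
vanish on `T`, have a `J u'` with `T ⊆ H (J u')`.) If `t > w` there are no pairs because
`(H i).card ≤ w` (and `w.choose t = 0`).
-/

namespace Pool.Agent.Lib_MP_22d2c8_rsf

open Finset

private theorem frag_sum_modify {V : Type} [Fintype V] [DecidableEq V] {M : ℕ} (z : Fin M)
    (T : Finset V) (F : (V → Fin M) → ℝ) (hF : ∀ u, 0 ≤ F u) :
    ∑ u : V → Fin M, F (fun v => if v ∈ T then z else u v) ≤
      (M : ℝ) ^ T.card * ∑ u : V → Fin M, F u := by
  classical
  let φ : (V → Fin M) → (V → Fin M) × (T → Fin M) :=
    fun u => (fun v => if v ∈ T then z else u v, fun v => u v)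
  have hφ : Function.Injective φ := by
    intro u₁ u₂ h
    have h1 : (fun v => if v ∈ T then z else u₁ v) = fun v => if v ∈ T then z else u₂ v :=
      congrArg Prod.fst h
    have h2 : (fun v : T => u₁ v) = fun v : T => u₂ v := congrArg Prod.snd h
    funext v
    by_cases hv : v ∈ T
    · exact congrFun h2 ⟨v, hv⟩
    · have := congrFun h1 v
      simpa [hv] using this
  have h1 : ∑ u : V → Fin M, F (fun v => if v ∈ T then z else u v) =
      ∑ x ∈ univ.image φ, F x.1 := by
    rw [Finset.sum_image (fun a _ b _ h => hφ h)]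
  rw [h1]
  refine (Finset.sum_le_sum_of_subset_of_nonneg (Finset.subset_univ _) fun x _ _ => hF x.1).trans ?_
  rw [← Finset.univ_product_univ, Finset.sum_product]
  simp only [Finset.sum_const, Finset.card_univ, Fintype.card_pi, Fintype.card_fin,
    Finset.prod_const, Fintype.card_coe, nsmul_eq_mul, Nat.cast_pow]
  rw [← Finset.mul_sum]

private theorem frag_sparse_modify {V : Type} [Fintype V] [DecidableEq V] {M : ℕ} (hM : 1 ≤ M)
    (T : Finset V) (u : V → Fin M) :
    sparse (fun v => if v ∈ T then (⟨0, hM⟩ : Fin M) else u v) = sparse u ∪ T := by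
  ext v
  rw [mem_sparse, Finset.mem_union, mem_sparse]
  by_cases hv : v ∈ T
  · simp [hv]
  · simp [hv]

/-- Minimum fragments: after adding the random set `sparse u` of density `1 / M` to a spread family
of sets of size at most `w`, few members still miss `t` elements. -/
theorem fragment_round {V I : Type} [Fintype V] [DecidableEq V] {M w : ℕ} (hM : 1 ≤ M)
    (S : Finset I) (H : I → Finset V) (hw : ∀ i ∈ S, (H i).card ≤ w) {D r : ℝ} (hr : 0 < r)
    (hD : ∀ K : Finset V, ((S.filter (fun i => K ⊆ H i)).card : ℝ) ≤ D / r ^ K.card) :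
    ∃ frag : (V → Fin M) → I → Finset V,
      (∀ u, ∀ i ∈ S, frag u i ⊆ H i ∧ ∃ j ∈ S, H j ⊆ frag u i ∪ sparse u) ∧
      ∀ t : ℕ, (∑ u : V → Fin M, ((S.filter (fun i => (frag u i).card = t)).card : ℝ)) ≤
        (w.choose t : ℝ) * (M / r) ^ t * D * Fintype.card (V → Fin M) := by
  classical
  have hD0 : 0 ≤ D := by
    have h := hD ∅
    rw [Finset.card_empty, pow_zero, div_one] at h
    exact le_trans (Nat.cast_nonneg _) h
  -- the choice of the fragments
  have hmin : ∀ (u : V → Fin M) (i : I), ∃ K : Finset V, i ∈ S →
      ∃ j ∈ S, H j ⊆ H i ∪ sparse u ∧ K = H j \ sparse u ∧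
        ∀ j' ∈ S, H j' ⊆ H i ∪ sparse u → K.card ≤ (H j' \ sparse u).card := by
    intro u i
    by_cases hi : i ∈ S
    · have hne : (S.filter fun j => H j ⊆ H i ∪ sparse u).Nonempty :=
        ⟨i, Finset.mem_filter.2 ⟨hi, Finset.subset_union_left⟩⟩
      obtain ⟨j, hj, hj'⟩ := Finset.exists_min_image _ (fun j => (H j \ sparse u).card) hne
      rw [Finset.mem_filter] at hj
      exact ⟨H j \ sparse u, fun _ => ⟨j, hj.1, hj.2, rfl, fun j' h1 h2 =>
        hj' j' (Finset.mem_filter.2 ⟨h1, h2⟩)⟩⟩
    · exact ⟨∅, fun h => absurd h hi⟩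
  choose frag hfrag using hmin
  -- the choice of a member inside a sparse set
  have hG : ∀ u : V → Fin M, ∃ K : Finset V, K.card ≤ w ∧ ((∃ j ∈ S, H j ⊆ sparse u) →
      ∃ j ∈ S, H j ⊆ sparse u ∧ K = H j) := by
    intro u
    by_cases h : ∃ j ∈ S, H j ⊆ sparse u
    · obtain ⟨j, h1, h2⟩ := h
      exact ⟨H j, hw j h1, fun _ => ⟨j, h1, h2, rfl⟩⟩
    · exact ⟨∅, by simp, fun h' => absurd h' h⟩
  choose G hGw hG using hG
  have hsub : ∀ u, ∀ i ∈ S, frag u i ⊆ H i := by
    intro u i hi
    obtain ⟨j, hj, h1, h2, _⟩ := hfrag u i hi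
    rw [h2]
    intro v hv
    rw [Finset.mem_sdiff] at hv
    exact (Finset.mem_union.1 (h1 hv.1)).resolve_right hv.2
  refine ⟨frag, fun u i hi => ⟨hsub u i hi, ?_⟩, ?_⟩
  · obtain ⟨j, hj, h1, h2, _⟩ := hfrag u i hi
    refine ⟨j, hj, ?_⟩
    rw [h2]
    intro v hv
    by_cases h : v ∈ sparse u
    · exact Finset.mem_union_right _ h
    · exact Finset.mem_union_left _ (Finset.mem_sdiff.2 ⟨hv, h⟩)
  -- counting
  intro t
  set z : Fin M := ⟨0, hM⟩ with hz
  -- the key claim
  have key : ∀ (u : V → Fin M), ∀ i ∈ S,
      frag u i ⊆ G (fun v => if v ∈ frag u i then z else u v) := by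
    intro u i hi
    set T := frag u i with hT
    obtain ⟨j, hj, h1, h2, h3⟩ := hfrag u i hi
    have hW : sparse (fun v => if v ∈ T then z else u v) = sparse u ∪ T := frag_sparse_modify hM T u
    obtain ⟨j', hj', h4, h5⟩ := hG (fun v => if v ∈ T then z else u v) ⟨j, hj, by
      rw [hW]
      intro v hv
      by_cases h : v ∈ sparse u
      · exact Finset.mem_union_left _ h
      · apply Finset.mem_union_right
        rw [hT, h2]
        exact Finset.mem_sdiff.2 ⟨hv, h⟩⟩
    rw [hW] at h4
    rw [h5]
    have h6 : H j' ⊆ H i ∪ sparse u := by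
      intro v hv
      rcases Finset.mem_union.1 (h4 hv) with h | h
      · exact Finset.mem_union_right _ h
      · exact Finset.mem_union_left _ (hsub u i hi h)
    have h7 := h3 j' hj' h6
    have h8 : H j' \ sparse u ⊆ T := by
      intro v hv
      rw [Finset.mem_sdiff] at hv
      exact (Finset.mem_union.1 (h4 hv.1)).resolve_left hv.2
    have h9 : H j' \ sparse u = T := Finset.eq_of_subset_of_card_le h8 h7
    rw [← h9]
    exact Finset.sdiff_subset
  -- first step: split according to the value of the fragment
  have s1 : ∀ u : V → Fin M, ((S.filter (fun i => (frag u i).card = t)).card : ℝ) ≤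
      ∑ T ∈ Finset.powersetCard t (univ : Finset V),
        (if T ⊆ G (fun v => if v ∈ T then z else u v) then D / r ^ t else 0) := by
    intro u
    have h1 : (S.filter (fun i => (frag u i).card = t)).card =
        ∑ T ∈ Finset.powersetCard t (univ : Finset V),
          ((S.filter (fun i => (frag u i).card = t)).filter (fun i => frag u i = T)).card := by
      apply Finset.card_eq_sum_card_fiberwise
      intro i hi
      rw [Finset.mem_coe, Finset.mem_filter] at hi
      rw [Finset.mem_coe, Finset.mem_powersetCard]
      exact ⟨Finset.subset_univ _, hi.2⟩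
    rw [h1]
    push_cast
    apply Finset.sum_le_sum
    intro T hT
    rw [Finset.mem_powersetCard] at hT
    split_ifs with h
    · refine le_trans ?_ ((hD T).trans_eq (by rw [hT.2]))
      have : (Finset.filter (fun i => frag u i = T) (Finset.filter (fun i => (frag u i).card = t) S))
          ⊆ S.filter (fun i => T ⊆ H i) := by
        intro i hi
        rw [Finset.mem_filter, Finset.mem_filter] at hi
        rw [Finset.mem_filter]
        refine ⟨hi.1.1, ?_⟩
        rw [← hi.2]
        exact hsub u i hi.1.1
      exact_mod_cast Finset.card_le_card this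
    · have : (Finset.filter (fun i => frag u i = T) (Finset.filter (fun i => (frag u i).card = t) S))
          = ∅ := by
        rw [Finset.eq_empty_iff_forall_notMem]
        intro i hi
        rw [Finset.mem_filter, Finset.mem_filter] at hi
        apply h
        have h2 := key u i hi.1.1
        rw [hi.2] at h2
        exact h2
      rw [this]
      simp
  have hDr : 0 ≤ D / r ^ t := div_nonneg hD0 (pow_nonneg hr.le _)
  calc (∑ u : V → Fin M, ((S.filter (fun i => (frag u i).card = t)).card : ℝ))
      ≤ ∑ u : V → Fin M, ∑ T ∈ Finset.powersetCard t (univ : Finset V),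
        (if T ⊆ G (fun v => if v ∈ T then z else u v) then D / r ^ t else 0) :=
        Finset.sum_le_sum fun u _ => s1 u
    _ = ∑ T ∈ Finset.powersetCard t (univ : Finset V), ∑ u : V → Fin M,
        (if T ⊆ G (fun v => if v ∈ T then z else u v) then D / r ^ t else 0) := Finset.sum_comm
    _ ≤ ∑ T ∈ Finset.powersetCard t (univ : Finset V), (M : ℝ) ^ t * ∑ u : V → Fin M,
        (if T ⊆ G u then D / r ^ t else 0) := by
        apply Finset.sum_le_sum
        intro T hT
        rw [Finset.mem_powersetCard] at hT
        have h := frag_sum_modify z T (fun u => if T ⊆ G u then D / r ^ t else 0) (fun u => by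
          split_ifs
          · exact hDr
          · exact le_rfl)
        rw [hT.2] at h
        exact h
    _ = (M : ℝ) ^ t * ∑ u : V → Fin M, ∑ T ∈ Finset.powersetCard t (univ : Finset V),
        (if T ⊆ G u then D / r ^ t else 0) := by
        rw [← Finset.mul_sum, Finset.sum_comm]
    _ ≤ (M : ℝ) ^ t * ∑ u : V → Fin M, (w.choose t : ℝ) * (D / r ^ t) := by
        apply mul_le_mul_of_nonneg_left _ (by positivity)
        apply Finset.sum_le_sum
        intro u _
        rw [← Finset.sum_filter, Finset.sum_const, nsmul_eq_mul]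
        apply mul_le_mul_of_nonneg_right _ hDr
        have h1 : (Finset.powersetCard t (univ : Finset V)).filter (fun T => T ⊆ G u) ⊆
            Finset.powersetCard t (G u) := by
          intro T hT
          rw [Finset.mem_filter, Finset.mem_powersetCard] at hT
          rw [Finset.mem_powersetCard]
          exact ⟨hT.2, hT.1.2⟩
        have h2 := Finset.card_le_card h1
        rw [Finset.card_powersetCard] at h2
        exact_mod_cast h2.trans (Nat.choose_le_choose t (hGw u))
    _ = (w.choose t : ℝ) * (M / r) ^ t * D * Fintype.card (V → Fin M) := by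
        rw [Finset.sum_const, nsmul_eq_mul, Finset.card_univ, div_pow]
        field_simp

end Pool.Agent.Lib_MP_22d2c8_rsf
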