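import Pool.Agent.Lib_MP_22d2c8_rsf.Frag

/-!
# HALVE: iteration of the one-round lemma

PROOF of `hit_rounds`. Strong induction on `w` (for all `I`, `S`, `H`, `D`; note `I` may change, but
we can keep `I`: the fragments are again indexed by `I`). The number of rounds is `Nat.size w`.

`w = 0`: all `H i = ∅`. If `S` is empty the claim is `0 ≤ ...`. Otherwise the event has probability
one (the space `Fin 0 → _` is nonempty), and `S.card ≤ D` by `hD ∅`.

`w ≥ 1`: `Nat.size w = Nat.size (w / 2) + 1` (Nat.size_of... or `Nat.size_bit`/ via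
`Nat.size_le`; for instance `Nat.size w = Nat.log 2 w + 1`). Take `frag` from `fragment_round`
with `r = 16 M`. For each `u` put `S_u = S.filter ((frag u i).card ≤ w / 2)`. The family
`frag u`, indexed by `S_u`, has sets of size at most `w / 2` and is spread with the same `D`,
because `K ⊆ frag u i → K ⊆ H i`. By induction
`S_u.card ≤ D * (prob (∃ i ∈ S_u, frag u i ⊆ noise ω) + 1/2 - (1/2) ^ (w/2+1))`, where `ω` has
`Nat.size (w/2)` rounds. If `frag u i ⊆ noise ω` then `H j ⊆ sparse u ∪ noise ω` for some `j ∈ S`.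
Sum over `u`, divide by the number of `u` and use `prob_noise_succ`:
`(∑ u, S_u.card) / card ≤ D * (prob(hit with size w rounds) + 1/2 - (1/2) ^ (w/2+1))`.
The rest: `S.card - S_u.card = #{i ∈ S : (frag u i).card > w/2}`, the sum over `t` in
`(w/2, w]` of the classes of size `t` (sets have size at most `w` since `frag u i ⊆ H i`), so
`∑ u, (S.card - S_u.card) ≤ card * D * ∑ t ∈ Ioc (w/2) w, w.choose t * (1/16) ^ t`
and `(1/16) ^ t ≤ (1/4) ^ (w + 1)` for `2 t ≥ w + 1`, and the sum of the binomials is at most
`2 ^ w`, so this is at most `card * D * 2 ^ w * (1/4) ^ (w+1) = card * D * (1/4) * (1/2) ^ w`.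
Finally `1/2 - (1/2)^(w/2+1) + (1/4) (1/2)^w ≤ 1/2 - (1/2)^(w+1)`, i.e.
`(3/4) (1/2)^w ≤ (1/2)^(w/2+1)`: for `w ≥ 1`, `w ≥ w/2 + 1`, so `(1/2)^w ≤ (1/2)^(w/2+1)`.
(Note `0 ≤ D` follows from `hD ∅`.)
-/

namespace Pool.Agent.Lib_MP_22d2c8_rsf

open Finset

theorem size_half {w : ℕ} (hw : 1 ≤ w) : Nat.size w = Nat.size (w / 2) + 1 := by
  apply le_antisymm
  · rw [Nat.size_le]
    have h := Nat.lt_size_self (w / 2)
    rw [pow_succ]
    omega
  · rw [Nat.succ_le_iff, Nat.lt_size]
    rcases Nat.eq_zero_or_pos (w / 2) with h | h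
    · rw [h]
      simpa using hw
    · obtain ⟨t, ht⟩ : ∃ t, Nat.size (w / 2) = t + 1 := by
        have : 0 < Nat.size (w / 2) := Nat.size_pos.mpr h
        exact ⟨Nat.size (w / 2) - 1, by omega⟩
      have h2 : 2 ^ t ≤ w / 2 := by
        rw [← Nat.lt_size, ht]
        exact Nat.lt_succ_self t
      rw [ht, pow_succ]
      omega

/-- The sum of the one-round losses. -/
theorem loss_le {w : ℕ} :
    ∑ t ∈ Ioc (w / 2) w, (w.choose t : ℝ) * (1 / 16) ^ t ≤ (1 / 4) * (1 / 2) ^ w := by
  have h1 : ∀ t ∈ Ioc (w / 2) w, (w.choose t : ℝ) * (1 / 16) ^ t ≤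
      (w.choose t : ℝ) * (1 / 4) ^ (w + 1) := by
    intro t ht
    rw [Finset.mem_Ioc] at ht
    apply mul_le_mul_of_nonneg_left _ (by positivity)
    have : ((1 : ℝ) / 16) ^ t = (1 / 4) ^ (2 * t) := by
      rw [pow_mul]
      norm_num
    rw [this]
    exact pow_le_pow_of_le_one (by norm_num) (by norm_num) (by omega)
  calc ∑ t ∈ Ioc (w / 2) w, (w.choose t : ℝ) * (1 / 16) ^ t
      ≤ ∑ t ∈ Ioc (w / 2) w, (w.choose t : ℝ) * (1 / 4) ^ (w + 1) := Finset.sum_le_sum h1
    _ = (∑ t ∈ Ioc (w / 2) w, (w.choose t : ℝ)) * (1 / 4) ^ (w + 1) := by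
        rw [Finset.sum_mul]
    _ ≤ (∑ t ∈ range (w + 1), (w.choose t : ℝ)) * (1 / 4) ^ (w + 1) := by
        apply mul_le_mul_of_nonneg_right _ (by positivity)
        apply Finset.sum_le_sum_of_subset_of_nonneg
        · intro t ht
          rw [Finset.mem_Ioc] at ht
          rw [Finset.mem_range]
          omega
        · intros
          positivity
    _ = 2 ^ w * (1 / 4) ^ (w + 1) := by
        congr 1
        exact_mod_cast Nat.sum_range_choose w
    _ = (1 / 4) * (1 / 2) ^ w := by
        rw [pow_succ, ← mul_assoc, ← mul_pow]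
        norm_num
        ring

/-- A spread family of sets of size at most `w` is hit after `Nat.size w` rounds. -/
theorem hit_rounds {V I : Type} [Fintype V] [DecidableEq V] {M : ℕ} (hM : 1 ≤ M) :
    ∀ (w : ℕ) (S : Finset I) (H : I → Finset V) (D : ℝ), (∀ i ∈ S, (H i).card ≤ w) →
      (∀ K : Finset V, ((S.filter (fun i => K ⊆ H i)).card : ℝ) ≤ D / (16 * M : ℝ) ^ K.card) →
      (S.card : ℝ) ≤ D * (prob (fun ω : Fin (Nat.size w) → V → Fin M => ∃ i ∈ S, H i ⊆ noise ω) +
        1 / 2 - (1 / 2) ^ (w + 1)) := by
  classical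
  have hMpos : (0 : ℝ) < 16 * M := by
    have : (1 : ℝ) ≤ M := by exact_mod_cast hM
    linarith
  have : Nonempty (Fin M) := ⟨⟨0, hM⟩⟩
  intro w
  induction w using Nat.strong_induction_on with
  | _ w ih =>
    intro S H D hw hD
    have hSD : (S.card : ℝ) ≤ D := by
      have h := hD ∅
      simpa using h
    have hD0 : 0 ≤ D := le_trans (by positivity) hSD
    rcases Nat.eq_zero_or_pos w with rfl | hwpos
    · rcases S.eq_empty_or_nonempty with rfl | ⟨i, hi⟩
      · have h1 := prob_nonneg (fun ω : Fin (Nat.size 0) → V → Fin M =>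
          ∃ i ∈ (∅ : Finset I), H i ⊆ noise ω)
        simp only [Finset.card_empty, Nat.cast_zero, zero_add, pow_one]
        have : D * (prob (fun ω : Fin (Nat.size 0) → V → Fin M =>
          ∃ i ∈ (∅ : Finset I), H i ⊆ noise ω) + 1 / 2 - 1 / 2) = D * prob (fun ω : Fin (Nat.size 0) → V → Fin M =>
          ∃ i ∈ (∅ : Finset I), H i ⊆ noise ω) := by ring
        rw [this]
        positivity
      · have h1 : prob (fun ω : Fin (Nat.size 0) → V → Fin M => ∃ i ∈ S, H i ⊆ noise ω) = 1 := by
          apply prob_true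
          intro ω
          refine ⟨i, hi, ?_⟩
          have : H i = ∅ := Finset.card_eq_zero.mp (Nat.le_zero.mp (hw i hi))
          rw [this]
          exact Finset.empty_subset _
        rw [h1]
        norm_num
        exact hSD
    · obtain ⟨frag, hfrag, hcount⟩ := fragment_round hM S H hw hMpos hD
      set N : ℝ := (Fintype.card (V → Fin M) : ℝ) with hN
      have hNpos : 0 < N := by
        rw [hN]
        exact_mod_cast Fintype.card_pos
      set Su : (V → Fin M) → Finset I := fun u => S.filter (fun i => (frag u i).card ≤ w / 2)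
        with hSu
      -- the good part
      have hgood : ∀ u, ((Su u).card : ℝ) ≤ D * (prob (fun ω : Fin (Nat.size (w / 2)) → V → Fin M =>
          ∃ i ∈ S, H i ⊆ sparse u ∪ noise ω) + 1 / 2 - (1 / 2) ^ (w / 2 + 1)) := by
        intro u
        have h1 := ih (w / 2) (Nat.div_lt_self hwpos (by norm_num)) (Su u) (frag u) D
          (fun i hi => (Finset.mem_filter.mp hi).2) (by
            intro K
            refine le_trans ?_ (hD K)
            have hsub : (Su u).filter (fun i => K ⊆ frag u i) ⊆ S.filter (fun i => K ⊆ H i) := by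
              intro i hi
              rw [Finset.mem_filter, hSu] at hi
              simp only [Finset.mem_filter] at hi
              rw [Finset.mem_filter]
              exact ⟨hi.1.1, hi.2.trans (hfrag u i hi.1.1).1⟩
            exact_mod_cast Finset.card_le_card hsub)
        refine h1.trans ?_
        apply mul_le_mul_of_nonneg_left _ hD0
        have h2 : prob (fun ω : Fin (Nat.size (w / 2)) → V → Fin M =>
            ∃ i ∈ Su u, frag u i ⊆ noise ω) ≤ prob (fun ω : Fin (Nat.size (w / 2)) → V → Fin M =>
            ∃ i ∈ S, H i ⊆ sparse u ∪ noise ω) := by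
          apply prob_mono
          rintro ω ⟨i, hi, hsub⟩
          obtain ⟨_, j, hj, hHj⟩ := hfrag u i (Finset.mem_filter.mp hi).1
          refine ⟨j, hj, hHj.trans ?_⟩
          intro v hv
          rcases Finset.mem_union.mp hv with hv | hv
          · exact Finset.mem_union_right _ (hsub hv)
          · exact Finset.mem_union_left _ hv
        linarith
      -- the bad part
      have hbad : ∀ u, (S.card : ℝ) - (Su u).card ≤
          ∑ t ∈ Ioc (w / 2) w, ((S.filter (fun i => (frag u i).card = t)).card : ℝ) := by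
        intro u
        have h1 : S.card = (Su u).card + (S.filter (fun i => ¬ (frag u i).card ≤ w / 2)).card := by
          rw [hSu]
          exact (Finset.card_filter_add_card_filter_not _).symm
        have h2 : (S.filter (fun i => ¬ (frag u i).card ≤ w / 2)).card ≤
            ∑ t ∈ Ioc (w / 2) w, (S.filter (fun i => (frag u i).card = t)).card := by
          have hsub : S.filter (fun i => ¬ (frag u i).card ≤ w / 2) ⊆
              (Ioc (w / 2) w).biUnion (fun t => S.filter (fun i => (frag u i).card = t)) := by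
            intro i hi
            rw [Finset.mem_filter] at hi
            rw [Finset.mem_biUnion]
            refine ⟨(frag u i).card, ?_, Finset.mem_filter.mpr ⟨hi.1, rfl⟩⟩
            rw [Finset.mem_Ioc]
            exact ⟨not_le.mp hi.2,
              (Finset.card_le_card (hfrag u i hi.1).1).trans (hw i hi.1)⟩
          exact (Finset.card_le_card hsub).trans Finset.card_biUnion_le
        have h3 : (S.card : ℝ) = (Su u).card +
            (S.filter (fun i => ¬ (frag u i).card ≤ w / 2)).card := by exact_mod_cast h1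
        have h4 : ((S.filter (fun i => ¬ (frag u i).card ≤ w / 2)).card : ℝ) ≤
            ∑ t ∈ Ioc (w / 2) w, ((S.filter (fun i => (frag u i).card = t)).card : ℝ) := by
          exact_mod_cast h2
        linarith
      have hbadsum : ∑ u : V → Fin M, ((S.card : ℝ) - (Su u).card) ≤
          N * D * ((1 / 4) * (1 / 2) ^ w) := by
        calc ∑ u : V → Fin M, ((S.card : ℝ) - (Su u).card)
            ≤ ∑ u : V → Fin M, ∑ t ∈ Ioc (w / 2) w,
                ((S.filter (fun i => (frag u i).card = t)).card : ℝ) :=
              Finset.sum_le_sum (fun u _ => hbad u)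
          _ = ∑ t ∈ Ioc (w / 2) w, ∑ u : V → Fin M,
                ((S.filter (fun i => (frag u i).card = t)).card : ℝ) := Finset.sum_comm
          _ ≤ ∑ t ∈ Ioc (w / 2) w, (w.choose t : ℝ) * (M / (16 * M : ℝ)) ^ t * D * N :=
              Finset.sum_le_sum (fun t _ => hcount t)
          _ = N * D * ∑ t ∈ Ioc (w / 2) w, (w.choose t : ℝ) * (1 / 16) ^ t := by
              rw [Finset.mul_sum]
              apply Finset.sum_congr rfl
              intro t _
              have : (M : ℝ) / (16 * M) = 1 / 16 := by
                have hM0 : (M : ℝ) ≠ 0 := by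
                  have : (1 : ℝ) ≤ M := by exact_mod_cast hM
                  linarith
                field_simp
              rw [this]
              ring
          _ ≤ N * D * ((1 / 4) * (1 / 2) ^ w) := by
              apply mul_le_mul_of_nonneg_left loss_le (by positivity)
      -- the average
      have hsucc := prob_noise_succ (M := M) (R := Nat.size (w / 2)) (fun x : Finset V =>
        ∃ i ∈ S, H i ⊆ x)
      have hgoodsum : ∑ u : V → Fin M, ((Su u).card : ℝ) ≤
          N * (D * (prob (fun ω : Fin (Nat.size (w / 2) + 1) → V → Fin M =>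
            ∃ i ∈ S, H i ⊆ noise ω) + 1 / 2 - (1 / 2) ^ (w / 2 + 1))) := by
        rw [hsucc]
        calc ∑ u : V → Fin M, ((Su u).card : ℝ)
            ≤ ∑ u : V → Fin M, D * (prob (fun ω : Fin (Nat.size (w / 2)) → V → Fin M =>
                ∃ i ∈ S, H i ⊆ sparse u ∪ noise ω) + 1 / 2 - (1 / 2) ^ (w / 2 + 1)) :=
              Finset.sum_le_sum (fun u _ => hgood u)
          _ = _ := by
              rw [← Finset.mul_sum]
              rw [Finset.sum_sub_distrib, Finset.sum_add_distrib]
              simp only [Finset.sum_const, Finset.card_univ, nsmul_eq_mul]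
              rw [← hN]
              field_simp
      have htotal : N * (S.card : ℝ) = ∑ u : V → Fin M, ((Su u).card : ℝ) +
          ∑ u : V → Fin M, ((S.card : ℝ) - (Su u).card) := by
        rw [← Finset.sum_add_distrib]
        simp only [add_sub_cancel, Finset.sum_const, Finset.card_univ, nsmul_eq_mul]
        rw [← hN]
      have hpow : (1 / 4 : ℝ) * (1 / 2) ^ w + (1 / 2) ^ (w + 1) ≤ (1 / 2) ^ (w / 2 + 1) := by
        have h1 : ((1 : ℝ) / 2) ^ w ≤ (1 / 2) ^ (w / 2 + 1) :=
          pow_le_pow_of_le_one (by norm_num) (by norm_num) (by omega)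
        have h2 : ((1 : ℝ) / 2) ^ (w + 1) = (1 / 2) * (1 / 2) ^ w := by rw [pow_succ]; ring
        have h3 : (0 : ℝ) < (1 / 2) ^ w := by positivity
        rw [h2]
        nlinarith
      rw [size_half hwpos]
      have hfin : N * (S.card : ℝ) ≤ N * (D * (prob (fun ω : Fin (Nat.size (w / 2) + 1) →
          V → Fin M => ∃ i ∈ S, H i ⊆ noise ω) + 1 / 2 - (1 / 2) ^ (w + 1))) := by
        rw [htotal]
        refine (add_le_add hgoodsum hbadsum).trans ?_
        have h5 : N * D * ((1 / 4 : ℝ) * (1 / 2) ^ w + (1 / 2) ^ (w + 1)) ≤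
            N * D * (1 / 2) ^ (w / 2 + 1) :=
          mul_le_mul_of_nonneg_left hpow (by positivity)
        nlinarith
      exact le_of_mul_le_mul_left hfin hNpos

end Pool.Agent.Lib_MP_22d2c8_rsf
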