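import Pool.Agent.Lib_MP_22d2c8_rsf.Basic

/-!
# NOISESUB: a given set is rarely covered by the noise

PROOF. `P ⊆ noise ω` iff there is `σ : P → Fin R` with `ω (σ v) v = 0` for all `v ∈ P`. So the number
of such `ω` is at most the sum over `σ ∈ (P → Fin R)` (there are `R ^ P.card`) of the number of `ω`
with `ω (σ v) v = 0` for `v ∈ P`; these `ω : Fin R → V → Fin M` are prescribed at `P.card` places
`(σ v, v)`, so their number is `M ^ (R * card V - P.card)`. Divide by `M ^ (R * card V)`.
ALTERNATIVE (maybe shorter): turn `ω` into `V → (Fin R → Fin M)` (`Equiv.piComm`, `prob_equiv`); the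
event is `ω v ∈ Z` for all `v ∈ P`, where `Z = {b : Fin R → Fin M | ∃ l, b l = 0}`,
`Z.card ≤ R * M ^ (R - 1)`; the set of such `ω` is
`Fintype.piFinset (fun v => if v ∈ P then Z else univ)`, and `Fintype.card_piFinset` gives a
product. `Z.card / M ^ R ≤ R / M` (union bound over `l`: `prob_exists_le`, and
`prob (fun b => b l = 0) = 1 / M`).
-/

namespace Pool.Agent.Lib_MP_22d2c8_rsf

open Finset

/-- the probability that one column of the noise contains a zero -/
theorem ns_column {R M : ℕ} (hM : 1 ≤ M) :
    prob (fun b : Fin R → Fin M => ∃ l, (b l : ℕ) = 0) ≤ (R / M : ℝ) := by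
  classical
  have hM0 : (0 : ℝ) < M := by exact_mod_cast hM
  have h1 : ∀ l : Fin R, prob (fun b : Fin R → Fin M => (b l : ℕ) = 0) ≤ (1 / M : ℝ) := by
    intro l
    rw [prob_eq]
    have hcard : (univ.filter (fun b : Fin R → Fin M => (b l : ℕ) = 0)) =
        Fintype.piFinset (fun i => if i = l then univ.filter (fun c : Fin M => (c : ℕ) = 0)
          else univ) := by
      ext b
      simp only [Finset.mem_filter, Finset.mem_univ, true_and, Fintype.mem_piFinset]
      constructor
      · intro h i
        split_ifs with hi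
        · subst hi; simpa using h
        · exact Finset.mem_univ _
      · intro h
        have := h l
        simpa using this
    have h2 : (univ.filter (fun c : Fin M => (c : ℕ) = 0)).card = 1 := by
      rw [Finset.card_eq_one]
      refine ⟨⟨0, hM⟩, ?_⟩
      ext c
      simp [Fin.ext_iff]
    have hR : 1 ≤ R := l.pos
    rw [hcard, Fintype.card_piFinset, ← Finset.mul_prod_erase _ _ (Finset.mem_univ l)]
    rw [if_pos rfl, h2, one_mul]
    have h3 : ∏ i ∈ univ.erase l, (if i = l then univ.filter (fun c : Fin M => (c : ℕ) = 0)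
        else univ).card = M ^ (R - 1) := by
      rw [Finset.prod_congr rfl (g := fun _ => M)]
      · rw [Finset.prod_const, Finset.card_erase_of_mem (Finset.mem_univ l), Finset.card_univ,
          Fintype.card_fin]
      · intro i hi
        rw [if_neg (Finset.ne_of_mem_erase hi), Finset.card_univ, Fintype.card_fin]
    rw [h3, Fintype.card_fun, Fintype.card_fin, Fintype.card_fin]
    push_cast
    obtain ⟨n, rfl⟩ : ∃ n, R = n + 1 := ⟨R - 1, by omega⟩
    rw [Nat.add_sub_cancel, pow_succ, div_le_div_iff₀ (by positivity) hM0]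
    ring_nf
    exact le_rfl
  refine (prob_mono (q := fun b : Fin R → Fin M => ∃ l ∈ (univ : Finset (Fin R)), (b l : ℕ) = 0)
    (fun b ⟨l, hl⟩ => ⟨l, Finset.mem_univ l, hl⟩)).trans ?_
  refine (prob_exists_le univ (fun (l : Fin R) (b : Fin R → Fin M) => (b l : ℕ) = 0)).trans ?_
  refine (Finset.sum_le_sum fun l _ => h1 l).trans ?_
  rw [Finset.sum_const, Finset.card_univ, Fintype.card_fin, nsmul_eq_mul]
  rw [mul_one_div]

theorem prob_subset_noise {V : Type} [Fintype V] [DecidableEq V] {R M : ℕ} (hM : 1 ≤ M)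
    (P : Finset V) :
    prob (fun ω : Fin R → V → Fin M => P ⊆ noise ω) ≤ (R / M : ℝ) ^ P.card := by
  classical
  have hcol := ns_column (R := R) hM
  have h0 : prob (fun ω : Fin R → V → Fin M => P ⊆ noise ω) =
      prob (fun ω : V → Fin R → Fin M => ∀ v ∈ P, ∃ l, (ω v l : ℕ) = 0) := by
    rw [← prob_equiv (Equiv.piComm (fun (_ : Fin R) (_ : V) => Fin M))]
    refine prob_congr fun ω => ?_
    constructor
    · intro h v hv
      exact mem_noise.mp (h hv)
    · intro h v hv
      exact mem_noise.mpr (h v hv)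
  rw [h0]
  set Z : Finset (Fin R → Fin M) := univ.filter (fun b => ∃ l, (b l : ℕ) = 0) with hZ
  have h1 : (univ.filter (fun ω : V → Fin R → Fin M => ∀ v ∈ P, ∃ l, (ω v l : ℕ) = 0)) =
      Fintype.piFinset (fun v => if v ∈ P then Z else univ) := by
    ext ω
    simp only [Finset.mem_filter, Finset.mem_univ, true_and, Fintype.mem_piFinset]
    refine forall_congr' fun v => ?_
    split_ifs with hv
    · simp [hv, hZ]
    · simp [hv]
  rw [prob_eq, h1, Fintype.card_piFinset, Fintype.card_fun]
  have h2 : ∏ v, (if v ∈ P then Z else univ : Finset (Fin R → Fin M)).card =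
      Z.card ^ P.card * (Fintype.card (Fin R → Fin M)) ^ (Fintype.card V - P.card) := by
    have e1 : ∀ v, (if v ∈ P then Z else univ : Finset (Fin R → Fin M)).card =
        if v ∈ P then Z.card else Fintype.card (Fin R → Fin M) := by
      intro v
      split_ifs <;> simp
    rw [Finset.prod_congr rfl fun v _ => e1 v, Finset.prod_ite, Finset.prod_const,
      Finset.prod_const]
    congr 2
    · simp
    · rw [Finset.filter_not, Finset.card_sdiff_of_subset (Finset.filter_subset _ _)]
      simp
  rw [h2]
  have hNpos : (0 : ℝ) < (Fintype.card (Fin R → Fin M) : ℝ) := by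
    have : Nonempty (Fin R → Fin M) := ⟨fun _ => ⟨0, hM⟩⟩
    exact_mod_cast Fintype.card_pos
  have hPV : P.card ≤ Fintype.card V := Finset.card_le_univ P
  obtain ⟨d, hd⟩ : ∃ d, Fintype.card V = P.card + d := ⟨Fintype.card V - P.card, by omega⟩
  have hZp : prob (fun b : Fin R → Fin M => ∃ l, (b l : ℕ) = 0) =
      (Z.card : ℝ) / (Fintype.card (Fin R → Fin M) : ℝ) := by
    rw [prob_eq]
  rw [hd, Nat.add_sub_cancel_left]
  push_cast
  have h3 : ((Z.card : ℝ) ^ P.card * (Fintype.card (Fin R → Fin M) : ℝ) ^ d) /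
      (Fintype.card (Fin R → Fin M) : ℝ) ^ (P.card + d) =
      ((Z.card : ℝ) / (Fintype.card (Fin R → Fin M) : ℝ)) ^ P.card := by
    rw [pow_add, div_pow, mul_div_mul_right _ _ (pow_pos hNpos d).ne']
  rw [h3, ← hZp]
  exact pow_le_pow_left₀ (prob_nonneg _) hcol _

end Pool.Agent.Lib_MP_22d2c8_rsf
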