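import Pool.Agent.Lib_MP_22d2c8_rsf.Basic

/-!
# POLY: the graph of a random polynomial

PROOF of `graph_prob`. Let `t = T.card ≤ w`. If `T` contains two points with the same first
coordinate and different second coordinates then no graph contains `T`. Otherwise the first
coordinates of the points of `T` are `t` different numbers below `m ≤ q`, hence different modulo
`q`. The number of `a : Fin w → Fin q` with `T ⊆ graph w m q a` is at most `q ^ (w - t)`: such an
`a` is determined by its coefficients `a l` with `l ≥ t` (`w - t` of them). Indeed if `a`, `a'` both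
are in the set and have the same coefficients at all `l ≥ t`, the polynomial over `ZMod q` (a
field) with coefficients `a l - a' l` has degree `< t` and vanishes at the `t` different first
coordinates, so it is zero, and `a l = a' l` in `ZMod q`, hence in `Fin q`. (Use
`Polynomial.card_roots'`/`Polynomial.eq_zero_of_natDegree_lt_card_of_eval_eq_zero'`, or the style of
`tab_unique` in Pool/Agent/Lib_MP_22d2c8_lc/SelPoly.lean.) So the probability is at most
`q ^ (w - t) / q ^ w = (1 / q) ^ t`.

PROOF of `graph_card`: the graph is the image of `Fin m` under `j ↦ (j, P(j) mod q)` (`q > 0`).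
-/

namespace Pool.Agent.Lib_MP_22d2c8_rsf

open Finset

theorem poly_graph_inj {w m q : ℕ} (hq : q.Prime) (hm : m ≤ q) (T : Finset (Fin m × Fin q))
    (a a' : Fin w → Fin q) (ha : T ⊆ graph w m q a) (ha' : T ⊆ graph w m q a')
    (h : ∀ l : Fin w, T.card ≤ (l : ℕ) → a l = a' l) : a = a' := by
  classical
  have hprime : Fact q.Prime := ⟨hq⟩
  have hmem : ∀ b : Fin w → Fin q, T ⊆ graph w m q b → ∀ p ∈ T,
      (p.2 : ℕ) = (∑ l, (b l : ℕ) * (p.1 : ℕ) ^ (l : ℕ)) % q := by
    intro b hb p hp
    have := hb hp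
    rw [graph, Finset.mem_filter] at this
    exact this.2
  let P : Polynomial (ZMod q) := ∑ l : Fin w,
    Polynomial.C (((a l : ℕ) : ZMod q) - ((a' l : ℕ) : ZMod q)) * Polynomial.X ^ (l : ℕ)
  have hcoef : ∀ n : ℕ, P.coeff n = ∑ l : Fin w,
      if n = (l : ℕ) then (((a l : ℕ) : ZMod q) - ((a' l : ℕ) : ZMod q)) else 0 := by
    intro n
    simp only [P, Polynomial.finsetSum_coeff, Polynomial.coeff_C_mul_X_pow]
  have hP : P = 0 := by
    apply Polynomial.eq_zero_of_degree_lt_of_eval_finset_eq_zero
      (T.image (fun p => ((p.1 : ℕ) : ZMod q)))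
    · have hcard : (T.image (fun p => ((p.1 : ℕ) : ZMod q))).card = T.card := by
        apply Finset.card_image_of_injOn
        intro p hp p' hp' hpp
        have h1 : ((p.1 : ℕ) : ZMod q) = ((p'.1 : ℕ) : ZMod q) := hpp
        rw [ZMod.natCast_eq_natCast_iff'] at h1
        rw [Nat.mod_eq_of_lt (lt_of_lt_of_le p.1.2 hm), Nat.mod_eq_of_lt (lt_of_lt_of_le p'.1.2 hm)] at h1
        have h2 : p.1 = p'.1 := Fin.ext h1
        have h3 := hmem a ha p hp
        have h4 := hmem a ha p' hp'
        rw [← h1, ← h3] at h4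
        exact Prod.ext h2 (Fin.ext h4.symm)
      rw [hcard, Polynomial.degree_lt_iff_coeff_zero]
      intro n hn
      rw [hcoef]
      apply Finset.sum_eq_zero
      intro l _
      split_ifs with hl
      · rw [h l (by omega), sub_self]
      · rfl
    · intro x hx
      rw [Finset.mem_image] at hx
      obtain ⟨p, hp, rfl⟩ := hx
      have h3 := congrArg (fun k : ℕ => (k : ZMod q)) (hmem a ha p hp)
      have h4 := congrArg (fun k : ℕ => (k : ZMod q)) (hmem a' ha' p hp)
      simp only [ZMod.natCast_mod] at h3 h4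
      push_cast at h3 h4
      simp only [P, Polynomial.eval_finsetSum, Polynomial.eval_mul, Polynomial.eval_C,
        Polynomial.eval_pow, Polynomial.eval_X, sub_mul, Finset.sum_sub_distrib]
      rw [← h3, ← h4, sub_self]
  funext l
  have h1 := hcoef (l : ℕ)
  rw [hP, Polynomial.coeff_zero] at h1
  rw [Finset.sum_eq_single l] at h1
  · rw [if_pos rfl] at h1
    have h2 : ((a l : ℕ) : ZMod q) = ((a' l : ℕ) : ZMod q) := (sub_eq_zero.mp h1.symm)
    rw [ZMod.natCast_eq_natCast_iff'] at h2
    rw [Nat.mod_eq_of_lt (a l).2, Nat.mod_eq_of_lt (a' l).2] at h2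
    exact Fin.ext h2
  · intro l' _ hl'
    rw [if_neg]
    intro hc
    exact hl' (Fin.ext hc.symm)
  · intro hc
    exact absurd (Finset.mem_univ l) hc

theorem graph_prob {w m q : ℕ} (hq : q.Prime) (hm : m ≤ q) (T : Finset (Fin m × Fin q))
    (hT : T.card ≤ w) :
    prob (fun a : Fin w → Fin q => T ⊆ graph w m q a) ≤ (1 / q : ℝ) ^ T.card := by
  classical
  have hqp : (0 : ℝ) < q := by exact_mod_cast hq.pos
  rw [prob_eq]
  have hcard : (univ.filter (fun a : Fin w → Fin q => T ⊆ graph w m q a)).card ≤ q ^ (w - T.card) := by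
    have h1 : Fintype.card (Fin (w - T.card) → Fin q) = q ^ (w - T.card) := by simp
    rw [← h1, ← Finset.card_univ]
    apply Finset.card_le_card_of_injOn
      (fun (a : Fin w → Fin q) (i : Fin (w - T.card)) => a ⟨T.card + i, by have := i.2; omega⟩)
    · intro a _
      exact Finset.mem_coe.mpr (Finset.mem_univ _)
    · intro a ha a' ha' h
      have ha1 : T ⊆ graph w m q a := by simpa using ha
      have ha2 : T ⊆ graph w m q a' := by simpa using ha'
      apply poly_graph_inj hq hm T a a' ha1 ha2
      intro l hl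
      have h2 := congrFun h ⟨(l : ℕ) - T.card, by have := l.2; omega⟩
      have h3 : (⟨T.card + ((l : ℕ) - T.card), by have := l.2; omega⟩ : Fin w) = l := by
        apply Fin.ext
        simp only
        omega
      simp only at h2
      rw [h3] at h2
      exact h2
  have hc : (Fintype.card (Fin w → Fin q) : ℝ) = (q : ℝ) ^ w := by
    simp
  rw [hc]
  have h2 : ((univ.filter (fun a : Fin w → Fin q => T ⊆ graph w m q a)).card : ℝ) ≤ (q : ℝ) ^ (w - T.card) := by
    exact_mod_cast hcard
  have h3 : (q : ℝ) ^ w = (q : ℝ) ^ (w - T.card) * (q : ℝ) ^ T.card := by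
    rw [← pow_add]
    congr 1
    omega
  rw [div_le_iff₀ (by positivity), h3, one_div, inv_pow]
  calc _ ≤ (q : ℝ) ^ (w - T.card) := h2
    _ = ((q : ℝ) ^ T.card)⁻¹ * ((q : ℝ) ^ (w - T.card) * (q : ℝ) ^ T.card) := by
      field_simp

theorem graph_card {w m q : ℕ} (hq : 1 ≤ q) (a : Fin w → Fin q) : (graph w m q a).card = m := by
  classical
  have h : graph w m q a = (univ : Finset (Fin m)).image (fun j : Fin m =>
      ((j, ⟨(∑ l, (a l : ℕ) * (j : ℕ) ^ (l : ℕ)) % q, Nat.mod_lt _ hq⟩) : Fin m × Fin q)) := by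
    ext p
    rw [graph, Finset.mem_filter, Finset.mem_image]
    constructor
    · rintro ⟨-, hp⟩
      exact ⟨p.1, Finset.mem_univ _, Prod.ext rfl (Fin.ext hp.symm)⟩
    · rintro ⟨j, -, rfl⟩
      exact ⟨Finset.mem_univ _, rfl⟩
  rw [h, Finset.card_image_of_injective]
  · simp
  · intro j j' hj
    exact congrArg Prod.fst hj

end Pool.Agent.Lib_MP_22d2c8_rsf
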