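import Pool.Agent.Lib_MP_22d2c8_rsf.Degree

/-!
# TAIL: a closed family has few large minimal sets, so a random graph `Y` rarely contains one

PROOF. The event is contained in: there are `s ∈ Ioc v w` and `T ∈ layer A s` with `T ⊆ Y a`
(members of `A` have size at most `w`). By `prob_exists_le` (twice) its probability is at most
`∑ s ∈ Ioc v w, (layer A s).card * (1 / q) ^ s ≤ ∑ s ∈ Ioc v w, (16 M / q) ^ s
≤ ∑ s ∈ Ioc v w, (1/8) ^ s ≤ (1/8) ^ v / 7` (geometric sum; e.g. by induction on `w`: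
`∑ s ∈ Ioc v w, (1/8)^s ≤ ((1/8)^v - (1/8)^w) / 7` for `v ≤ w`).
-/

namespace Pool.Agent.Lib_MP_22d2c8_rsf

open Finset

theorem tail_le {V ΩY : Type} [Fintype V] [DecidableEq V] [Fintype ΩY] {M w k q : ℕ} (hM : 1 ≤ M)
    (hq : 128 * M ≤ q) (Y : ΩY → Finset V)
    (hY : ∀ T : Finset V, T.card ≤ w → prob (fun a => T ⊆ Y a) ≤ (1 / q : ℝ) ^ T.card)
    {A : Finset (Finset V)}
    (hA : Closed w (noise : (Fin (k * Nat.size w) → V → Fin M) → Finset V) ((1 / 2) ^ k) A)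
    (v : ℕ) :
    prob (fun a => ∃ T, IsMin A T ∧ v < T.card ∧ T ⊆ Y a) ≤ (1 / 8) ^ v / 7 := by
  classical
  have hM' : (1 : ℝ) ≤ M := by exact_mod_cast hM
  have hq' : (128 : ℝ) * M ≤ q := by exact_mod_cast hq
  have hq0 : (0 : ℝ) < q := by linarith
  -- union bound over the sizes
  have h1 : prob (fun a => ∃ T, IsMin A T ∧ v < T.card ∧ T ⊆ Y a) ≤
      ∑ s ∈ Ioc v w, prob (fun a => ∃ T ∈ layer A s, T ⊆ Y a) := by
    refine le_trans (prob_mono (q := fun a => ∃ s ∈ Ioc v w, ∃ T ∈ layer A s, T ⊆ Y a) ?_)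
      (prob_exists_le _ _)
    rintro a ⟨T, hT, hv, hTY⟩
    refine ⟨T.card, Finset.mem_Ioc.mpr ⟨hv, hA.1 T hT.1⟩, T, ?_, hTY⟩
    unfold layer
    exact Finset.mem_filter.mpr ⟨hT.1, rfl, hT⟩
  have h2 : ∀ s ∈ Ioc v w, prob (fun a => ∃ T ∈ layer A s, T ⊆ Y a) ≤ (1 / 8 : ℝ) ^ s := by
    intro s hs
    have hsw : s ≤ w := (Finset.mem_Ioc.mp hs).2
    refine (prob_exists_le (layer A s) (fun T a => T ⊆ Y a)).trans ?_
    have h3 : ∀ T ∈ layer A s, prob (fun a => T ⊆ Y a) ≤ (1 / q : ℝ) ^ s := by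
      intro T hT
      have hTs : T.card = s := (Finset.mem_filter.mp hT).2.1
      have := hY T (by omega)
      rwa [hTs] at this
    refine (Finset.sum_le_sum h3).trans ?_
    rw [Finset.sum_const, nsmul_eq_mul]
    have h4 := layer_card hM hA s
    calc ((layer A s).card : ℝ) * (1 / q : ℝ) ^ s ≤ (16 * M : ℝ) ^ s * (1 / q : ℝ) ^ s :=
          mul_le_mul_of_nonneg_right h4 (by positivity)
      _ = (16 * M * (1 / q) : ℝ) ^ s := by rw [← mul_pow]
      _ ≤ (1 / 8 : ℝ) ^ s := by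
          refine pow_le_pow_left₀ (by positivity) ?_ s
          rw [mul_one_div, div_le_iff₀ hq0]
          linarith
  refine (h1.trans (Finset.sum_le_sum h2)).trans ?_
  rcases le_total v w with hvw | hvw
  · have h5 : ∀ n : ℕ, v ≤ n → ∑ s ∈ Ioc v n, (1 / 8 : ℝ) ^ s ≤ ((1 / 8) ^ v - (1 / 8) ^ n) / 7 := by
      intro n hn
      induction n, hn using Nat.le_induction with
      | base => simp
      | succ n hn ih =>
        rw [Finset.sum_Ioc_succ_top hn, pow_succ]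
        linarith
    have h6 := h5 w hvw
    have h7 : (0 : ℝ) ≤ (1 / 8) ^ w := by positivity
    linarith
  · rw [Finset.Ioc_eq_empty (by omega), Finset.sum_empty]
    positivity

end Pool.Agent.Lib_MP_22d2c8_rsf
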