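import Pool.Agent.Lib_MP_22d2c8_rsf.Closure
import Pool.Agent.Lib_MP_22d2c8_rsf.Tail
import Pool.Agent.Lib_MP_22d2c8_rsf.Approx
import Pool.Agent.Lib_MP_22d2c8_rsf.PolyGraph
import Pool.Agent.Lib_MP_22d2c8_rsf.NoiseSub

/-!
# MONO: the monotone lower bound for one block

PROOF. `V = Fin m × Fin q`, `w = 2 v`, `R = k * Nat.size w`, `U = noise` with `R` rounds, `Y = graph`.
`δ = (1/2) ^ k`, `ηU = (card V + 1) ^ w * δ ≤ (1/8) ^ v` (by `hk`, `card V = m q`),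
`ηY = (1/8) ^ v / 7` (`tail_le` with `graph_prob`). `δ < 1` because `k ≥ 1` (from `hk`:
`2 ^ k ≥ 8 ^ v ≥ 8`). Suppose `4 * l.length ≤ 8 ^ v`. Take `A`, `EY`, `EU` from `approx` for
`g = f0`. `prob (Hit A (U ω)) ≤ prob (f0 (U ω)) + prob EU ≤ q ^ w * (R / M) ^ m + l.length * ηU
≤ q ^ w * (1/2) ^ m + 1/4 ≤ 1/4 + 1/4 < 1` (`prob_exists_le` over `a`, `prob_subset_noise`,
`graph_card`, `2 R ≤ M`, `hm`), so `∅ ∉ A` (otherwise the probability is one), and so every minimal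
member of `A` has positive size and `Hit A (Y a)` implies the event of `tail_le` with `v = 0`
(a minimal member inside `Y a`). Then
`1 = prob (f0 (Y a)) ≤ prob (Hit A (Y a)) + prob EY ≤ 1/7 + l.length * (2 * ((1/8)^v/7))
≤ 1/7 + 1/14 < 1`, contradiction.
-/

namespace Pool.Agent.Lib_MP_22d2c8_rsf

open Finset

theorem mono_bound {v k M m q : ℕ} (hv : 1 ≤ v) (hM : 1 ≤ M)
    (hR : 2 * (k * Nat.size (2 * v)) ≤ M) (hq : q.Prime) (hMq : 128 * M ≤ q) (hmq : m ≤ q)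
    (hk : (m * q + 1) ^ (2 * v) * 8 ^ v ≤ 2 ^ k) (hm : 4 * q ^ (2 * v) ≤ 2 ^ m)
    {l : List (Finset (Fin m × Fin q) → Prop)} (hl : MProg (Fin m × Fin q) l)
    (hf : (fun x => ∃ a : Fin (2 * v) → Fin q, graph (2 * v) m q a ⊆ x) ∈ l) :
    8 ^ v < 4 * l.length := by
  classical
  by_contra hcon
  push Not at hcon
  have hlen : (l.length : ℝ) ≤ 8 ^ v / 4 := by
    have : ((4 * l.length : ℕ) : ℝ) ≤ ((8 ^ v : ℕ) : ℝ) := by exact_mod_cast hcon
    push_cast at this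
    linarith
  have h8 : (8 : ℝ) ^ v * (1 / 8 : ℝ) ^ v = 1 := by
    rw [← mul_pow]
    norm_num
  have hMne : NeZero M := ⟨by omega⟩
  have hqne : NeZero q := ⟨hq.ne_zero⟩
  have hk1 : 1 ≤ k := by
    rcases Nat.eq_zero_or_pos k with h0 | h0
    · exfalso
      rw [h0, pow_zero] at hk
      have h1 : 1 ≤ (m * q + 1) ^ (2 * v) := Nat.one_le_pow _ _ (by omega)
      have h2 : 8 ^ 1 ≤ 8 ^ v := Nat.pow_le_pow_right (by norm_num) hv
      nlinarith
    · exact h0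
  have hδ1 : ((1 / 2 : ℝ)) ^ k < 1 := pow_lt_one₀ (by norm_num) (by norm_num) (by omega)
  have hδ0 : (0 : ℝ) ≤ (1 / 2 : ℝ) ^ k := by positivity
  have hηY : (0 : ℝ) ≤ (1 / 8 : ℝ) ^ v / 7 := by positivity
  have hcardV : (Fintype.card (Fin m × Fin q) : ℝ) = m * q := by simp
  have hηU : ((Fintype.card (Fin m × Fin q) : ℝ) + 1) ^ (2 * v) * (1 / 2) ^ k ≤ (1 / 8 : ℝ) ^ v := by
    rw [hcardV]
    have h1 : ((m : ℝ) * q + 1) ^ (2 * v) * 8 ^ v ≤ 2 ^ k := by exact_mod_cast hk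
    have h2 : (2 : ℝ) ^ k * (1 / 2 : ℝ) ^ k = 1 := by
      rw [← mul_pow]
      norm_num
    have h3 : (0 : ℝ) < (1 / 2 : ℝ) ^ k * (1 / 8 : ℝ) ^ v := by positivity
    calc ((m : ℝ) * q + 1) ^ (2 * v) * (1 / 2) ^ k
        = (((m : ℝ) * q + 1) ^ (2 * v) * 8 ^ v) * ((1 / 2 : ℝ) ^ k * (1 / 8 : ℝ) ^ v) := by
          rw [show (((m : ℝ) * q + 1) ^ (2 * v) * 8 ^ v) * ((1 / 2 : ℝ) ^ k * (1 / 8 : ℝ) ^ v) =
            ((m : ℝ) * q + 1) ^ (2 * v) * (1 / 2 : ℝ) ^ k * (8 ^ v * (1 / 8 : ℝ) ^ v) by ring, h8, mul_one]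
      _ ≤ 2 ^ k * ((1 / 2 : ℝ) ^ k * (1 / 8 : ℝ) ^ v) := mul_le_mul_of_nonneg_right h1 h3.le
      _ = (1 / 8 : ℝ) ^ v := by rw [← mul_assoc, h2, one_mul]
  have hprob : ∀ T : Finset (Fin m × Fin q), T.card ≤ 2 * v →
      prob (fun a : Fin (2 * v) → Fin q => T ⊆ graph (2 * v) m q a) ≤ (1 / q : ℝ) ^ T.card :=
    fun T hT => graph_prob hq hmq T hT
  obtain ⟨EY, EU, hEY, hEU, hmain⟩ := approx (w := 2 * v) (v := v) rfl hv
    (noise : (Fin (k * Nat.size (2 * v)) → (Fin m × Fin q) → Fin M) → Finset (Fin m × Fin q))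
    (graph (2 * v) m q) hδ0 hδ1 hηY
    (show (0 : ℝ) ≤ ((Fintype.card (Fin m × Fin q) : ℝ) + 1) ^ (2 * v) * (1 / 2) ^ k by positivity)
    (fun B hB => exists_closed (2 * v) _ hδ0 B hB)
    (fun A hA => tail_le hM hMq _ hprob hA v) hl
  obtain ⟨A, hA, hAY, hAU⟩ := hmain _ hf
  -- the negative side
  have hf0U : prob (fun ω : Fin (k * Nat.size (2 * v)) → (Fin m × Fin q) → Fin M =>
      ∃ a : Fin (2 * v) → Fin q, graph (2 * v) m q a ⊆ noise ω) ≤ 1 / 4 := by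
    have h1 : prob (fun ω : Fin (k * Nat.size (2 * v)) → (Fin m × Fin q) → Fin M =>
        ∃ a : Fin (2 * v) → Fin q, graph (2 * v) m q a ⊆ noise ω) ≤
        prob (fun ω : Fin (k * Nat.size (2 * v)) → (Fin m × Fin q) → Fin M =>
        ∃ a ∈ (Finset.univ : Finset (Fin (2 * v) → Fin q)), graph (2 * v) m q a ⊆ noise ω) :=
      prob_mono fun ω ⟨a, ha⟩ => ⟨a, Finset.mem_univ _, ha⟩
    refine h1.trans ((prob_exists_le _ _).trans ?_)
    have hMpos : (0 : ℝ) < M := by exact_mod_cast hM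
    have hRM : ((k * Nat.size (2 * v) : ℕ) : ℝ) / M ≤ 1 / 2 := by
      rw [div_le_div_iff₀ hMpos (by norm_num)]
      have : ((2 * (k * Nat.size (2 * v)) : ℕ) : ℝ) ≤ M := by exact_mod_cast hR
      push_cast at this ⊢
      linarith
    have h2 : ∀ a : Fin (2 * v) → Fin q, prob (fun ω : Fin (k * Nat.size (2 * v)) → (Fin m × Fin q) → Fin M =>
        graph (2 * v) m q a ⊆ noise ω) ≤ (1 / 2 : ℝ) ^ m := by
      intro a
      refine (prob_subset_noise hM _).trans ?_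
      rw [graph_card hq.one_le]
      exact pow_le_pow_left₀ (by positivity) hRM m
    refine (Finset.sum_le_sum fun a _ => h2 a).trans ?_
    rw [Finset.sum_const, Finset.card_univ, nsmul_eq_mul]
    have h3 : (Fintype.card (Fin (2 * v) → Fin q) : ℝ) = (q : ℝ) ^ (2 * v) := by simp
    rw [h3]
    have h4 : (4 : ℝ) * (q : ℝ) ^ (2 * v) ≤ 2 ^ m := by exact_mod_cast hm
    have h5 : (2 : ℝ) ^ m * (1 / 2 : ℝ) ^ m = 1 := by
      rw [← mul_pow]
      norm_num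
    have h6 : (0 : ℝ) < (1 / 2 : ℝ) ^ m := by positivity
    nlinarith
  have hEU' : prob EU ≤ 1 / 4 := by
    refine hEU.trans ?_
    have h1 : (0 : ℝ) ≤ (1 / 8 : ℝ) ^ v := by positivity
    calc (l.length : ℝ) * (((Fintype.card (Fin m × Fin q) : ℝ) + 1) ^ (2 * v) * (1 / 2) ^ k)
        ≤ (8 ^ v / 4) * (1 / 8 : ℝ) ^ v := by
          apply mul_le_mul hlen hηU (by positivity) (by positivity)
      _ = 1 / 4 := by
          rw [div_mul_eq_mul_div, h8]
  have hHitU : prob (fun ω : Fin (k * Nat.size (2 * v)) → (Fin m × Fin q) → Fin M =>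
      Hit A (noise ω)) ≤ 1 / 2 := by
    have h1 : prob (fun ω : Fin (k * Nat.size (2 * v)) → (Fin m × Fin q) → Fin M => Hit A (noise ω)) ≤
        prob (fun ω : Fin (k * Nat.size (2 * v)) → (Fin m × Fin q) → Fin M =>
          (∃ a : Fin (2 * v) → Fin q, graph (2 * v) m q a ⊆ noise ω) ∨ EU ω) := by
      apply prob_mono
      intro ω hω
      by_cases hE : EU ω
      · exact Or.inr hE
      · exact Or.inl (hAU ω hω hE)
    have h2 := prob_or_le (fun ω : Fin (k * Nat.size (2 * v)) → (Fin m × Fin q) → Fin M =>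
      ∃ a : Fin (2 * v) → Fin q, graph (2 * v) m q a ⊆ noise ω) EU
    linarith
  have hempty : (∅ : Finset (Fin m × Fin q)) ∉ A := by
    intro hmem
    have h1 : prob (fun ω : Fin (k * Nat.size (2 * v)) → (Fin m × Fin q) → Fin M =>
        Hit A (noise ω)) = 1 := prob_true fun ω => ⟨∅, hmem, Finset.empty_subset _⟩
    linarith
  -- the positive side
  have hHitY : prob (fun a : Fin (2 * v) → Fin q => Hit A (graph (2 * v) m q a)) ≤ 1 / 7 := by
    have h1 := tail_le hM hMq (graph (2 * v) m q) hprob hA 0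
    rw [pow_zero] at h1
    refine le_trans (prob_mono ?_) h1
    rintro a ⟨T, hT, hTa⟩
    obtain ⟨T', hT', hmin⟩ := Finset.exists_min_image (A.filter (fun T' => T' ⊆ T)) Finset.card
      ⟨T, by rw [Finset.mem_filter]; exact ⟨hT, Finset.Subset.refl _⟩⟩
    rw [Finset.mem_filter] at hT'
    refine ⟨T', ⟨hT'.1, ?_⟩, ?_, hT'.2.trans hTa⟩
    · intro T'' hT'' hsub
      exact Finset.eq_of_subset_of_card_le hsub (hmin T'' (by
        rw [Finset.mem_filter]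
        exact ⟨hT'', hsub.trans hT'.2⟩))
    · rw [Finset.card_pos, Finset.nonempty_iff_ne_empty]
      intro h
      rw [h] at hT'
      exact hempty hT'.1
  have hEY' : prob EY ≤ 1 / 14 := by
    refine hEY.trans ?_
    calc (l.length : ℝ) * (2 * ((1 / 8 : ℝ) ^ v / 7))
        ≤ (8 ^ v / 4) * (2 * ((1 / 8 : ℝ) ^ v / 7)) := by
          apply mul_le_mul_of_nonneg_right hlen (by positivity)
      _ = (8 ^ v * (1 / 8 : ℝ) ^ v) / 14 := by ring
      _ = 1 / 14 := by rw [h8]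
  have hone : prob (fun a : Fin (2 * v) → Fin q =>
      ∃ a' : Fin (2 * v) → Fin q, graph (2 * v) m q a' ⊆ graph (2 * v) m q a) = 1 :=
    prob_true fun a => ⟨a, Finset.Subset.refl _⟩
  have hle : prob (fun a : Fin (2 * v) → Fin q =>
      ∃ a' : Fin (2 * v) → Fin q, graph (2 * v) m q a' ⊆ graph (2 * v) m q a) ≤
      prob (fun a : Fin (2 * v) → Fin q => Hit A (graph (2 * v) m q a) ∨ EY a) := by
    apply prob_mono
    intro a ha
    by_cases hE : EY a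
    · exact Or.inr hE
    · exact Or.inl (hAY a ha hE)
  have h2 := prob_or_le (fun a : Fin (2 * v) → Fin q => Hit A (graph (2 * v) m q a)) EY
  linarith

end Pool.Agent.Lib_MP_22d2c8_rsf
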